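import Mathlib

/-!
Resolution and random graphs: definitions.

`V` is the set of vertices, `b : V → Fin k` divides it into blocks. A box is a set `B` of vertices:
it stands for the set of all `z : Fin k → V` with `b (z j) = j` and `z j ∈ B` for all `j`.
-/

set_option autoImplicit false
set_option linter.unusedSectionVars false

open Finset

namespace Pool.Agent.H9.KR

/-! ## Graphs and boxes -/

section graph

variable {V : Type} [Fintype V] [DecidableEq V] {k : ℕ}

/-- The part of `B` in block `j`. -/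
def pt (b : V → Fin k) (B : Finset V) (j : Fin k) : Finset V := B.filter (fun v => b v = j)

open Classical in
/-- The vertices of `D` that are adjacent to all vertices of `x`. -/
noncomputable def nb (G : SimpleGraph V) (D x : Finset V) : Finset V :=
  D.filter (fun v => ∀ u ∈ x, G.Adj u v)

/-- `x` is a clique with at most one vertex in every block. -/
def TC (G : SimpleGraph V) (b : V → Fin k) (x : Finset V) : Prop :=
  ∀ u ∈ x, ∀ v ∈ x, u ≠ v → b u ≠ b v ∧ G.Adj u v

/-- The expansion property, with exceptional sets `W D`. -/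
structure Expan (G : SimpleGraph V) (b : V → Fin k) (f T w : ℕ) (σ : ℝ)
    (W : Finset V → Finset V) : Prop where
  card_le : ∀ D, (W D).card ≤ w
  expan : ∀ (j : Fin k) (D : Finset V), (∀ v ∈ D, b v = j) → f ≤ D.card →
    ∀ z : Finset V, z.card ≤ T → Disjoint z (W D) → (∀ v ∈ z, b v ≠ j) →
    σ * D.card ≤ ((nb G D z).card : ℝ)

/-- The exceptional vertices for the box `B` and the set `x`. -/
noncomputable def ex (G : SimpleGraph V) (b : V → Fin k) (W : Finset V → Finset V)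
    (B x : Finset V) : Finset V :=
  (univ : Finset (Fin k)).biUnion (fun j => W (nb G (pt b B j) x))

/-- Exceptional sequences (the last vertex comes first). -/
def Sq (G : SimpleGraph V) (b : V → Fin k) (W : Finset V → Finset V) (B : Finset V) :
    List V → Prop
  | [] => True
  | v :: l => v ∈ ex G b W B l.toFinset ∧ Sq G b W B l

/-- The properties of the random set `H` of vertices, for the boxes `B 0, ..., B (s - 1)`. -/
structure HP (G : SimpleGraph V) (b : V → Fin k) (W : Finset V → Finset V) (B : ℕ → Finset V)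
    (s T r : ℕ) (ρ d₂ μ : ℝ) (H : Finset V) : Prop where
  big : ∀ t < s, ∀ (j : Fin k) (x : Finset V), x.card ≤ T →
    d₂ ≤ ((nb G (pt b (B t) j) x).card : ℝ) →
    ρ * (nb G (pt b (B t) j) x).card / 2 < ((H ∩ nb G (pt b (B t) j) x).card : ℝ)
  small : ∀ t < s, ∀ (j : Fin k) (x : Finset V), x.card ≤ T →
    ((nb G (pt b (B t) j) x).card : ℝ) < μ →
    ((H ∩ nb G (pt b (B t) j) x).card : ℝ) ≤ 8 * ρ * μ
  exc : ∀ t < s, ∀ x : Finset V, x.card ≤ T →
    ((H ∩ ex G b W (B t) x).card : ℝ) ≤ ρ * d₂ / 4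
  seq : ∀ t < s, ∀ l : List V, l.Nodup → (∀ v ∈ l, v ∈ H) → Sq G b W (B t) l → l.length < r

open Classical in
/-- The blocks outside those of `C` in which `B` has few vertices adjacent to `C`. -/
noncomputable def Sm (G : SimpleGraph V) (b : V → Fin k) (μ : ℝ) (B C : Finset V) :
    Finset (Fin k) :=
  univ.filter (fun j => j ∉ C.image b ∧ ((nb G (pt b B j) C).card : ℝ) < μ)

/-- The properties of the clique `zS` that stays fixed. -/
structure ZP (G : SimpleGraph V) (b : V → Fin k) (B : ℕ → Finset V)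
    (s r a : ℕ) (μ d : ℝ) (H zS : Finset V) : Prop where
  sub : zS ⊆ H
  tc : TC G b zS
  card_le : zS.card ≤ a
  large : ∀ j, j ∉ zS.image b → d ≤ ((nb G (pt b univ j) zS).card : ℝ)
  few : ∀ t < s, ∀ C : Finset V, C.card ≤ r →
    (∀ v ∈ zS, b v ∉ C.image b → v ∈ nb G (B t) C) → (Sm G b μ (B t) C).card ≤ 2 * a

/-- The numbers. `n` vertices, `k` blocks with at least `m` vertices, `s` boxes. -/
structure Par (n m k f T w s r a M : ℕ) (σ ρ μ d₂ : ℝ) : Prop where
  σ_pos : 0 < σ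
  σ_le : σ ≤ 1
  ρ_pos : 0 < ρ
  ρ_le : ρ ≤ 1
  d₂_pos : 0 < d₂
  d₂_le : d₂ ≤ σ ^ 3 * μ
  f_pos : 0 < f
  f_le : (f : ℝ) ≤ σ ^ 2 * μ
  μ_le : 64 * μ ≤ σ * m
  T_le : 3 * a + r + M + M + 2 * a ≤ T
  kw_le : 32 * (k * w : ℝ) ≤ d₂
  k_pos : 0 < k
  a_pos : 0 < a
  a_le : a ≤ k
  count₁ : 3 * s * k * ((n : ℝ) + 1) ^ T * Real.exp (-(ρ * d₂ / 8)) + s * (k * w * ρ) ^ r < 1
  count₂ : s * ((n : ℝ) + 1) ^ r * (1 - (a : ℝ) / (2 * k)) ^ a < 1

/-- A good position at the box `B t`. -/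
def Good (G : SimpleGraph V) (b : V → Fin k) (B : ℕ → Finset V) (c : ℕ) (d : ℝ)
    (H zS : Finset V) (t : ℕ) : Prop :=
  ∃ x : Finset V, x ⊆ H ∧ x ⊆ B t ∧ TC G b x ∧ zS ⊆ x ∧ x.card ≤ c ∧
    ∀ j, j ∉ x.image b → d ≤ ((nb G (pt b (B t) j) x).card : ℝ)

/-- `z` is a point of the box `B`. -/
def In (b : V → Fin k) (B : Finset V) (z : Fin k → V) : Prop := ∀ j, b (z j) = j ∧ z j ∈ B

/-- `B 0, ..., B (s - 1)` is a refutation by boxes: every box has no clique on some set of at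
most `M` blocks, or is covered by at most `M` earlier boxes, and one box is everything. -/
def BoxRef (G : SimpleGraph V) (b : V → Fin k) (M s : ℕ) (B : ℕ → Finset V) : Prop :=
  (∀ t < s, (∃ Q : Finset (Fin k), Q.card ≤ M ∧ ∀ z, In b (B t) z →
      ∃ i ∈ Q, ∃ j ∈ Q, i ≠ j ∧ ¬ G.Adj (z i) (z j)) ∨
    (∃ P : Finset ℕ, P.card ≤ M ∧ (∀ q ∈ P, q < t) ∧ ∀ z, In b (B t) z →
      ∃ q ∈ P, In b (B q) z)) ∧ ∃ t < s, B t = univ

/-! ### Simple facts -/

lemma mem_pt {b : V → Fin k} {B : Finset V} {j : Fin k} {v : V} :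
    v ∈ pt b B j ↔ v ∈ B ∧ b v = j := by
  simp [pt]

lemma mem_nb {G : SimpleGraph V} {D x : Finset V} {v : V} :
    v ∈ nb G D x ↔ v ∈ D ∧ ∀ u ∈ x, G.Adj u v := by
  simp [nb]

lemma nb_nb (G : SimpleGraph V) (D x y : Finset V) : nb G (nb G D x) y = nb G D (x ∪ y) := by
  ext v
  simp only [mem_nb, mem_union]
  constructor
  · rintro ⟨⟨h1, h2⟩, h3⟩
    exact ⟨h1, fun u hu => hu.elim (h2 u) (h3 u)⟩
  · rintro ⟨h1, h2⟩
    exact ⟨⟨h1, fun u hu => h2 u (Or.inl hu)⟩, fun u hu => h2 u (Or.inr hu)⟩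

lemma nb_mono (G : SimpleGraph V) {D D' x x' : Finset V} (h : D ⊆ D') (hx : x' ⊆ x) :
    nb G D x ⊆ nb G D' x' := by
  intro v hv
  rw [mem_nb] at hv ⊢
  exact ⟨h hv.1, fun u hu => hv.2 u (hx hu)⟩

lemma nb_sub (G : SimpleGraph V) (D x : Finset V) : nb G D x ⊆ D := fun _ h => (mem_nb.1 h).1

lemma pt_mono (b : V → Fin k) {B B' : Finset V} (h : B ⊆ B') (j : Fin k) :
    pt b B j ⊆ pt b B' j := filter_subset_filter _ h

lemma pt_sub (b : V → Fin k) (B : Finset V) (j : Fin k) : pt b B j ⊆ B := filter_subset _ _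

lemma mem_ex {G : SimpleGraph V} {b : V → Fin k} {W : Finset V → Finset V} {B x : Finset V}
    {v : V} : v ∈ ex G b W B x ↔ ∃ j, v ∈ W (nb G (pt b B j) x) := by
  simp [ex]

lemma W_sub_ex (G : SimpleGraph V) (b : V → Fin k) (W : Finset V → Finset V) (B x : Finset V)
    (j : Fin k) : W (nb G (pt b B j) x) ⊆ ex G b W B x := fun _ h => mem_ex.2 ⟨j, h⟩

lemma card_ex_le {G : SimpleGraph V} {b : V → Fin k} {W : Finset V → Finset V} {w : ℕ}
    (hW : ∀ D, (W D).card ≤ w) (B x : Finset V) : (ex G b W B x).card ≤ k * w := by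
  unfold ex
  refine (card_biUnion_le).trans ((Finset.sum_le_sum fun j _ => hW _).trans ?_)
  simp

lemma mem_Sm {G : SimpleGraph V} {b : V → Fin k} {μ : ℝ} {B C : Finset V} {j : Fin k} :
    j ∈ Sm G b μ B C ↔ j ∉ C.image b ∧ ((nb G (pt b B j) C).card : ℝ) < μ := by
  simp only [Sm, mem_filter, mem_univ, true_and]

lemma TC.mono {G : SimpleGraph V} {b : V → Fin k} {x y : Finset V} (h : TC G b y) (hx : x ⊆ y) :
    TC G b x := fun u hu v hv huv => h u (hx hu) v (hx hv) huv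

end graph

/-! ## Random subsets -/

section prob

variable {Ω E : Type} [Fintype Ω] [DecidableEq E]

open Classical in
/-- The weight of an event. -/
noncomputable def pr (w : Ω → ℝ) (P : Ω → Prop) : ℝ := ∑ o, if P o then w o else 0

/-- `R` is a random subset of `E₀` that contains every element with probability `p`,
independently. -/
structure RSub (w : Ω → ℝ) (R : Ω → Finset E) (E₀ : Finset E) (p : ℝ) : Prop where
  nonneg : ∀ o, 0 ≤ w o
  hit : ∀ A : Finset E, A ⊆ E₀ → pr w (fun o => A ⊆ R o) = p ^ A.card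

lemma pr_nonneg {w : Ω → ℝ} (hw : ∀ o, 0 ≤ w o) (P : Ω → Prop) : 0 ≤ pr w P := by
  classical
  exact Finset.sum_nonneg fun o _ => by split_ifs <;> simp [hw o]

lemma pr_mono {w : Ω → ℝ} (hw : ∀ o, 0 ≤ w o) {P Q : Ω → Prop} (h : ∀ o, P o → Q o) :
    pr w P ≤ pr w Q := by
  classical
  refine Finset.sum_le_sum fun o _ => ?_
  by_cases h1 : P o
  · simp [h1, h o h1]
  · simp only [h1, if_false]
    split_ifs <;> simp [hw o]

lemma pr_or_le {w : Ω → ℝ} (hw : ∀ o, 0 ≤ w o) (P Q : Ω → Prop) :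
    pr w (fun o => P o ∨ Q o) ≤ pr w P + pr w Q := by
  classical
  unfold pr
  rw [← Finset.sum_add_distrib]
  refine Finset.sum_le_sum fun o _ => ?_
  by_cases h1 : P o <;> by_cases h2 : Q o <;> simp [h1, h2, hw o]

lemma pr_exists_le {w : Ω → ℝ} (hw : ∀ o, 0 ≤ w o) {ι : Type} (S : Finset ι)
    (P : ι → Ω → Prop) : pr w (fun o => ∃ i ∈ S, P i o) ≤ ∑ i ∈ S, pr w (P i) := by
  classical
  induction S using Finset.induction_on with
  | empty => simp [pr]
  | insert i S hi ih =>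
    rw [Finset.sum_insert hi]
    refine le_trans (pr_mono hw ?_) ((pr_or_le hw (P i) (fun o => ∃ i ∈ S, P i o)).trans
      (add_le_add le_rfl ih))
    rintro o ⟨l, hl, h⟩
    rcases mem_insert.1 hl with rfl | hl
    · exact Or.inl h
    · exact Or.inr ⟨l, hl, h⟩

lemma pr_exists_le_card {w : Ω → ℝ} (hw : ∀ o, 0 ≤ w o) {ι : Type} (S : Finset ι)
    (P : ι → Ω → Prop) (c : ℝ) (h : ∀ i ∈ S, pr w (P i) ≤ c) :
    pr w (fun o => ∃ i ∈ S, P i o) ≤ S.card * c := by
  refine (pr_exists_le hw S P).trans ((Finset.sum_le_sum h).trans ?_)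
  rw [Finset.sum_const, nsmul_eq_mul]

lemma RSub.total {w : Ω → ℝ} {R : Ω → Finset E} {E₀ : Finset E} {p : ℝ} (h : RSub w R E₀ p) :
    ∑ o, w o = 1 := by
  have h1 := h.hit ∅ (by simp)
  simpa [pr] using h1

lemma RSub.pr_le_one {w : Ω → ℝ} {R : Ω → Finset E} {E₀ : Finset E} {p : ℝ}
    (h : RSub w R E₀ p) (P : Ω → Prop) : pr w P ≤ 1 := by
  classical
  rw [← h.total]
  refine Finset.sum_le_sum fun o _ => ?_
  split_ifs
  · exact le_rfl
  · exact h.nonneg o

lemma RSub.exists_not {w : Ω → ℝ} {R : Ω → Finset E} {E₀ : Finset E} {p : ℝ}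
    (h : RSub w R E₀ p) (P : Ω → Prop) (hP : pr w P < 1) : ∃ o, ¬ P o := by
  classical
  by_contra hcon
  push Not at hcon
  have h1 : pr w P = ∑ o, w o := Finset.sum_congr rfl fun o _ => by simp [hcon o]
  rw [h.total] at h1
  linarith

end prob

section edges

variable {V : Type} [Fintype V] [DecidableEq V]

open Classical in
/-- The edges of a graph. -/
noncomputable def ed (G : SimpleGraph V) : Finset (Sym2 V) := univ.filter (fun e => e ∈ G.edgeSet)

open Classical in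
/-- The pairs of different vertices. -/
noncomputable def pairs (V : Type) [Fintype V] [DecidableEq V] : Finset (Sym2 V) :=
  univ.filter (fun e => ¬ e.IsDiag)

lemma mem_ed {G : SimpleGraph V} {u v : V} : s(u, v) ∈ ed G ↔ G.Adj u v := by
  simp [ed]

lemma mem_pairs {u v : V} : s(u, v) ∈ pairs V ↔ u ≠ v := by
  simp [pairs]

end edges

end Pool.Agent.H9.KR
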