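/-
ROW Up (about 80 lines). Upper tail.
PROOF. Let `τ = ⌈t⌉₊ ≥ 1`. If `t ≤ |R ∩ U|` then `τ ≤ |R ∩ U|`, so some `A ∈ powersetCard τ U` has `A ⊆ R` (`exists_subset_card_eq`).
By pr_mono, pr_exists_le_card and hit: `pr ≤ (U.card.choose τ) * p ^ τ ≤ U.card ^ τ / τ! * p ^ τ` (`Nat.choose_le_pow_div`).
As `8 p |U| ≤ t ≤ τ`: `(p |U|) ^ τ ≤ (τ / 8) ^ τ`, and `τ ^ τ / τ! ≤ exp τ` (`Real.pow_div_factorial_le_exp`), so
`pr ≤ (exp 1 / 8) ^ τ ≤ exp (-1) ^ τ = exp (-τ) ≤ exp (-t)` as `exp 2 ≤ 8` (`Real.exp_one_lt_d9`: `exp 1 < 2.7182818286`, `2.72 ^ 2 < 8`).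
-/
import Pool.Agent.H9.KR.Defs

set_option autoImplicit false
set_option linter.unusedSectionVars false

open Finset

namespace Pool.Agent.H9.KR

variable {Ω E : Type} [Fintype Ω] [DecidableEq E]

theorem upper {w : Ω → ℝ} {R : Ω → Finset E} {E₀ : Finset E} {p : ℝ} (h : RSub w R E₀ p)
    (hp0 : 0 ≤ p) (U : Finset E) (hU : U ⊆ E₀) (t : ℝ) (ht0 : 0 < t)
    (ht : 8 * (p * U.card) ≤ t) :
    pr w (fun o => t ≤ ((R o ∩ U).card : ℝ)) ≤ Real.exp (-t) := by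
  obtain ⟨τ, hτ⟩ : ∃ τ : ℕ, τ = ⌈t⌉₊ := ⟨_, rfl⟩
  have h1 : t ≤ τ := by
    rw [hτ]
    exact Nat.le_ceil t
  have h2 : pr w (fun o => t ≤ ((R o ∩ U).card : ℝ)) ≤
      ((powersetCard τ U).card : ℝ) * p ^ τ := by
    refine le_trans (pr_mono h.nonneg ?_)
      (pr_exists_le_card h.nonneg (powersetCard τ U) (fun A o => A ⊆ R o) (p ^ τ) ?_)
    · intro o ho
      have h3 : τ ≤ (R o ∩ U).card := by
        rw [hτ]
        exact Nat.ceil_le.2 ho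
      obtain ⟨A, hA, hAc⟩ := exists_subset_card_eq h3
      exact ⟨A, mem_powersetCard.2 ⟨hA.trans inter_subset_right, hAc⟩, hA.trans inter_subset_left⟩
    · intro A hA
      rw [mem_powersetCard] at hA
      rw [h.hit A (hA.1.trans hU), hA.2]
  refine h2.trans ?_
  rw [card_powersetCard]
  have h3 : ((U.card.choose τ : ℕ) : ℝ) ≤ (U.card : ℝ) ^ τ / (τ.factorial : ℝ) :=
    Nat.choose_le_pow_div τ U.card
  have hf : (0 : ℝ) < (τ.factorial : ℝ) := Nat.cast_pos.2 (Nat.factorial_pos τ)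
  have h4 : ((U.card.choose τ : ℕ) : ℝ) * p ^ τ ≤ ((τ : ℝ) / 8) ^ τ / (τ.factorial : ℝ) := by
    refine (mul_le_mul_of_nonneg_right h3 (pow_nonneg hp0 τ)).trans ?_
    have h5 : (U.card : ℝ) ^ τ / (τ.factorial : ℝ) * p ^ τ =
        (p * U.card) ^ τ / (τ.factorial : ℝ) := by
      rw [mul_pow]
      ring
    rw [h5]
    refine div_le_div_of_nonneg_right (pow_le_pow_left₀ (by positivity) ?_ τ) hf.le
    linarith
  refine h4.trans ?_
  have h5 : (τ : ℝ) ^ τ / (τ.factorial : ℝ) ≤ Real.exp τ :=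
    Real.pow_div_factorial_le_exp (τ : ℝ) (Nat.cast_nonneg τ) τ
  have h6 : ((τ : ℝ) / 8) ^ τ / (τ.factorial : ℝ) = (τ : ℝ) ^ τ / (τ.factorial : ℝ) / 8 ^ τ := by
    rw [div_pow]
    ring
  have h7 : Real.exp (2 * τ) ≤ 8 ^ τ := by
    have h8 : Real.exp 2 ≤ 8 := by
      have h9 : Real.exp 2 = Real.exp 1 * Real.exp 1 := by
        rw [← Real.exp_add]
        norm_num
      have h10 := Real.exp_one_lt_d9
      have h11 := Real.exp_pos 1
      rw [h9]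
      nlinarith
    have h9 : Real.exp (2 * τ) = Real.exp 2 ^ τ := by
      rw [← Real.exp_nat_mul]
      ring_nf
    rw [h9]
    exact pow_le_pow_left₀ (Real.exp_pos 2).le h8 τ
  rw [h6]
  have h8 : (0 : ℝ) < 8 ^ τ := by positivity
  rw [div_le_iff₀ h8]
  calc (τ : ℝ) ^ τ / (τ.factorial : ℝ) ≤ Real.exp τ := h5
    _ = Real.exp (-τ) * Real.exp (2 * τ) := by
        rw [← Real.exp_add]
        ring_nf
    _ ≤ Real.exp (-t) * 8 ^ τ := by
        refine mul_le_mul (Real.exp_le_exp.2 (by linarith)) h7 (Real.exp_pos _).le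
          (Real.exp_pos _).le

end Pool.Agent.H9.KR
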