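/-
ROW Gn (about 120 lines). The binomial random graph of Mathlib.
(1) rsub_gnp. PROOF. nonneg: measureReal_nonneg. hit: `(G(V, p)).real {G} = p ^ |ed G| (1 - p) ^ |pairs V \ ed G|`
 (`SimpleGraph.binomialRandom_singleton`, or `binomialRandom_apply'` with `setBernoulli_real_singleton`; `ed G ⊆ pairs V`). The map `G ↦ ed G` is a
 bijection from `SimpleGraph V` to the subsets of `pairs V` (inverse: `SimpleGraph.fromEdgeSet`), so for `A ⊆ pairs V`
 `pr w (A ⊆ ed G) = ∑ R ∈ (pairs V).powerset with A ⊆ R, p ^ |R| (1 - p) ^ |pairs V \ R| = p ^ |A|`: as in row Bn,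
 `Finset.prod_add (fun _ => p) (fun e => if e ∈ A then 0 else 1 - p) (pairs V)`.
(2) real_eq_pr. PROOF. `SimpleGraph V` is finite, `{G | P G}` is the finite disjoint union of the singletons: `measureReal_biUnion_finset` or
 `MeasureTheory.sum_measureReal_singleton` (singletons are measurable; `Measure.real` of the finite set).
-/
import Pool.Agent.H9.KR.Defs

set_option autoImplicit false
set_option linter.unusedSectionVars false

open Finset SimpleGraph

namespace Pool.Agent.H9.KR

variable {V : Type} [Fintype V] [DecidableEq V]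

theorem gnp_coe_ed (G : SimpleGraph V) : (↑(ed G) : Set (Sym2 V)) = G.edgeSet := by
  ext e
  simp [ed]

theorem gnp_coe_pairs : (↑(pairs V) : Set (Sym2 V)) = Sym2.diagSetᶜ := by
  ext e
  simp [pairs]

theorem gnp_ed_sub (G : SimpleGraph V) : ed G ⊆ pairs V := by
  intro e he
  induction e using Sym2.ind with
  | _ u v =>
    rw [mem_ed] at he
    rw [mem_pairs]
    exact he.ne

theorem gnp_real (p : unitInterval) (G : SimpleGraph V) :
    (G(V, p)).real {G} = (p : ℝ) ^ (ed G).card * (1 - (p : ℝ)) ^ (pairs V \ ed G).card := by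
  have h1 : (G(V, p)).real {G} = (ProbabilityTheory.setBernoulli (Sym2.diagSetᶜ : Set (Sym2 V)) p).real {G.edgeSet} := by
    rw [MeasureTheory.measureReal_def, binomialRandom_apply', Set.image_singleton,
      ← MeasureTheory.measureReal_def]
  rw [h1, ProbabilityTheory.setBernoulli_real_singleton p G.edgeSet_subset_compl_diagSet
    (Set.toFinite _), ← gnp_coe_ed, ← gnp_coe_pairs, ← Finset.coe_sdiff, Set.ncard_coe_finset,
    Set.ncard_coe_finset]

theorem rsub_gnp (p : unitInterval) :
    RSub (fun G : SimpleGraph V => (G(V, p)).real {G}) ed (pairs V) (p : ℝ) := by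
  classical
  refine ⟨fun G => MeasureTheory.measureReal_nonneg, fun A hA => ?_⟩
  have h1 : pr (fun G : SimpleGraph V => (G(V, p)).real {G}) (fun G => A ⊆ ed G) =
      ∑ R ∈ (pairs V).powerset, if A ⊆ R then (p : ℝ) ^ R.card * (1 - (p : ℝ)) ^ (pairs V \ R).card else 0 := by
    unfold pr
    refine Finset.sum_bij (fun G _ => ed G) (fun G _ => mem_powerset.2 (gnp_ed_sub G))
      (fun G _ G' _ h => ?_) (fun R hR => ?_) (fun G _ => ?_)
    · ext u v
      rw [← mem_ed, ← mem_ed, h]
    · refine ⟨SimpleGraph.fromEdgeSet (↑R : Set (Sym2 V)), mem_univ _, ?_⟩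
      ext e
      induction e using Sym2.ind with
      | _ u v =>
        rw [mem_ed, SimpleGraph.fromEdgeSet_adj, Finset.mem_coe]
        constructor
        · exact fun h => h.1
        · exact fun h => ⟨h, mem_pairs.1 (mem_powerset.1 hR h)⟩
    · beta_reduce
      rw [gnp_real]
      by_cases h : A ⊆ ed G
      · rw [if_pos h, if_pos h]
      · rw [if_neg h, if_neg h]
  rw [h1]
  have h2 := Finset.prod_add (fun _ : Sym2 V => (p : ℝ)) (fun e => if e ∈ A then 0 else 1 - (p : ℝ)) (pairs V)
  have h3 : ∏ e ∈ pairs V, ((p : ℝ) + if e ∈ A then 0 else 1 - (p : ℝ)) = (p : ℝ) ^ A.card := by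
    have h4 : ∀ e ∈ pairs V, ((p : ℝ) + if e ∈ A then 0 else 1 - (p : ℝ)) = if e ∈ A then (p : ℝ) else 1 := by
      intro e _
      split_ifs <;> ring
    rw [Finset.prod_congr rfl h4, Finset.prod_ite_mem, Finset.inter_eq_right.2 hA, Finset.prod_const]
  rw [← h3, h2]
  refine Finset.sum_congr rfl fun R hR => ?_
  split_ifs with hAR
  · rw [Finset.prod_const]
    congr 1
    rw [Finset.prod_congr rfl (g := fun _ => 1 - (p : ℝ)), Finset.prod_const]
    intro e he
    rw [if_neg]
    exact fun h => (mem_sdiff.1 he).2 (hAR h)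
  · obtain ⟨e, heA, heR⟩ := Finset.not_subset.1 hAR
    have h5 : ∏ e ∈ pairs V \ R, (if e ∈ A then 0 else 1 - (p : ℝ)) = 0 :=
      Finset.prod_eq_zero (mem_sdiff.2 ⟨hA heA, heR⟩) (if_pos heA)
    rw [h5, mul_zero]

theorem real_eq_pr (p : unitInterval) (P : SimpleGraph V → Prop) :
    (G(V, p)).real {G | P G} = pr (fun G : SimpleGraph V => (G(V, p)).real {G}) P := by
  classical
  have hms : MeasurableSingletonClass (SimpleGraph V) := ⟨fun G => by
    have h : ({G} : Set (SimpleGraph V)) = SimpleGraph.edgeSet ⁻¹' {G.edgeSet} := by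
      ext H
      simp
    rw [h]
    exact measurable_edgeSet (MeasurableSet.singleton _)⟩
  unfold pr
  rw [← Finset.sum_filter, MeasureTheory.sum_measureReal_singleton]
  congr 1
  ext G
  simp

end Pool.Agent.H9.KR
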