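/-
ROW Lo (about 110 lines). Lower tail for disjoint sets of elements.
Let `N o = #{i ∈ I | A i ⊆ R o}`.
PROOF. Step 1 (gen): `∑ o, w o * ∏ i ∈ I, (1 - (if A i ⊆ R o then 1/2 else 0)) = ∏ i ∈ I, (1 - p ^ (A i).card / 2)`.
 Expand the product: `Finset.prod_add` (or `Finset.prod_one_add`/`Finset.prod_one_sub_ordered`) gives
 `∏ i ∈ I, (1 + x i) = ∑ J ∈ I.powerset, ∏ i ∈ J, x i` with `x i = -(1/2) [A i ⊆ R o]`. For `J ⊆ I`,
 `∏ i ∈ J, x i = (-1/2) ^ |J| [J.biUnion A ⊆ R o]` and `∑ o, w o [J.biUnion A ⊆ R o] = pr w (..) = p ^ (J.biUnion A).card` (hit,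
 `J.biUnion A ⊆ E₀`) `= ∏ i ∈ J, p ^ (A i).card` (`card_biUnion` for the disjoint sets, `Finset.prod_pow_eq_pow_sum`).
 Sum over `J` and fold the product again with `x i = - p ^ (A i).card / 2`.
Step 2: the product in Step 1 is `(1/2) ^ (N o)` (`prod_ite`-like), and if `N o ≤ y` then `(1/2) ^ (N o) ≥ (1/2) ^ y = exp (- y log 2)`
 (rpow). So (Markov) `pr w (N ≤ y) ≤ exp (y log 2) * ∏ i ∈ I, (1 - p ^ (A i).card / 2)`.
Step 3: `0 ≤ 1 - p ^ (A i).card / 2 ≤ 1 - q / 2 ≤ exp (-q/2)` (`Real.add_one_le_exp`), so the product is at most `exp (- q |I| / 2)`;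
 with `y ≤ q |I| / 2` the total exponent is at most `q |I| (log 2 / 2 - 1 / 2) ≤ - q |I| / 8` as `log 2 < 0.75` (`Real.log_two_lt_d9`).
-/
import Pool.Agent.H9.KR.Defs

set_option autoImplicit false
set_option linter.unusedSectionVars false

open Finset

namespace Pool.Agent.H9.KR

variable {Ω E : Type} [Fintype Ω] [DecidableEq E]

open Classical in
theorem Lo_gen {w : Ω → ℝ} {R : Ω → Finset E} {E₀ : Finset E} {p : ℝ} (h : RSub w R E₀ p)
    {ι : Type} (A : ι → Finset E) (I : Finset ι)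
    (hA : ∀ i ∈ I, A i ⊆ E₀) (hdis : ∀ i ∈ I, ∀ j ∈ I, i ≠ j → Disjoint (A i) (A j))
    (B : Finset E) (hB : B ⊆ E₀) (hBA : ∀ i ∈ I, Disjoint B (A i)) :
    ∑ o, w o * (if B ⊆ R o then 1 else 0) * ∏ i ∈ I, (1 - (if A i ⊆ R o then (1 : ℝ) else 0) / 2) =
      p ^ B.card * ∏ i ∈ I, (1 - p ^ (A i).card / 2) := by
  induction I using Finset.induction_on generalizing B with
  | empty =>
    have h1 := h.hit B hB
    unfold pr at h1
    simp only [Finset.prod_empty, mul_one]
    rw [← h1]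
    refine Finset.sum_congr rfl fun o _ => ?_
    split_ifs <;> simp
  | insert i I hi ih =>
    have hA' : ∀ j ∈ I, A j ⊆ E₀ := fun j hj => hA j (mem_insert_of_mem hj)
    have hdis' : ∀ j ∈ I, ∀ l ∈ I, j ≠ l → Disjoint (A j) (A l) :=
      fun j hj l hl => hdis j (mem_insert_of_mem hj) l (mem_insert_of_mem hl)
    have hne : ∀ j ∈ I, i ≠ j := by
      rintro j hj rfl
      exact hi hj
    have e1 := ih hA' hdis' B hB (fun j hj => hBA j (mem_insert_of_mem hj))
    have e2 := ih hA' hdis' (B ∪ A i) (union_subset hB (hA i (mem_insert_self i I)))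
      (fun j hj => by
        rw [Finset.disjoint_union_left]
        exact ⟨hBA j (mem_insert_of_mem hj),
          hdis i (mem_insert_self i I) j (mem_insert_of_mem hj) (hne j hj)⟩)
    rw [card_union_of_disjoint (hBA i (mem_insert_self i I)), pow_add] at e2
    rw [Finset.prod_insert hi]
    have e3 : ∀ o, w o * (if B ⊆ R o then 1 else 0) *
        ∏ j ∈ insert i I, (1 - (if A j ⊆ R o then (1 : ℝ) else 0) / 2) =
        w o * (if B ⊆ R o then 1 else 0) * ∏ j ∈ I, (1 - (if A j ⊆ R o then (1 : ℝ) else 0) / 2) -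
        1 / 2 * (w o * (if B ∪ A i ⊆ R o then 1 else 0) *
          ∏ j ∈ I, (1 - (if A j ⊆ R o then (1 : ℝ) else 0) / 2)) := by
      intro o
      rw [Finset.prod_insert hi]
      by_cases h1 : B ⊆ R o <;> by_cases h2 : A i ⊆ R o
      · rw [if_pos h1, if_pos h2, if_pos (union_subset h1 h2)]
        ring
      · rw [if_pos h1, if_neg h2, if_neg (fun h3 => h2 (subset_union_right.trans h3))]
        ring
      · rw [if_neg h1, if_neg (fun h3 => h1 (subset_union_left.trans h3))]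
        ring
      · rw [if_neg h1, if_neg (fun h3 => h1 (subset_union_left.trans h3))]
        ring
    rw [Finset.sum_congr rfl fun o _ => e3 o, Finset.sum_sub_distrib, ← Finset.mul_sum, e1, e2]
    ring

open Classical in
theorem Lo_markov {w : Ω → ℝ} {R : Ω → Finset E} (hw : ∀ o, 0 ≤ w o)
    {ι : Type} (A : ι → Finset E) (I : Finset ι) (y : ℝ) :
    pr w (fun o => ((I.filter (fun i => A i ⊆ R o)).card : ℝ) ≤ y) * Real.exp (-(y * Real.log 2)) ≤
      ∑ o, w o * ∏ i ∈ I, (1 - (if A i ⊆ R o then (1 : ℝ) else 0) / 2) := by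
  unfold pr
  rw [Finset.sum_mul]
  refine Finset.sum_le_sum fun o _ => ?_
  have e : ∏ i ∈ I, (1 - (if A i ⊆ R o then (1 : ℝ) else 0) / 2) =
      Real.exp (-(((I.filter (fun i => A i ⊆ R o)).card : ℝ) * Real.log 2)) := by
    have e1 : ∀ i ∈ I, (1 - (if A i ⊆ R o then (1 : ℝ) else 0) / 2) =
        if A i ⊆ R o then (1 / 2 : ℝ) else 1 := by
      intro i _
      split_ifs <;> norm_num
    rw [Finset.prod_congr rfl e1, Finset.prod_ite, Finset.prod_const, Finset.prod_const_one, mul_one,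
      Real.exp_neg, Real.exp_nat_mul, Real.exp_log (by norm_num)]
    rw [one_div, inv_pow]
  rw [e]
  split_ifs with hy
  · refine mul_le_mul_of_nonneg_left (Real.exp_le_exp.2 ?_) (hw o)
    have := mul_le_mul_of_nonneg_right hy (Real.log_nonneg (show (1 : ℝ) ≤ 2 by norm_num))
    linarith
  · rw [zero_mul]
    exact mul_nonneg (hw o) (Real.exp_pos _).le

open Classical in
theorem lower {w : Ω → ℝ} {R : Ω → Finset E} {E₀ : Finset E} {p : ℝ} (h : RSub w R E₀ p)
    (hp0 : 0 ≤ p) (hp1 : p ≤ 1) {ι : Type} (I : Finset ι) (A : ι → Finset E)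
    (hA : ∀ i ∈ I, A i ⊆ E₀) (hdis : ∀ i ∈ I, ∀ j ∈ I, i ≠ j → Disjoint (A i) (A j))
    (q : ℝ) (hq0 : 0 ≤ q) (hq : ∀ i ∈ I, q ≤ p ^ (A i).card) (y : ℝ) (hy : y ≤ q * I.card / 2) :
    pr w (fun o => ((I.filter (fun i => A i ⊆ R o)).card : ℝ) ≤ y) ≤
      Real.exp (-(q * I.card / 8)) := by
  have hw := h.nonneg
  have hgen := Lo_gen h A I hA hdis ∅ (by simp) (fun i _ => by simp)
  simp only [Finset.empty_subset, if_true, mul_one, Finset.card_empty, pow_zero, one_mul] at hgen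
  have hM := Lo_markov hw A I (R := R) y
  have hbd : ∏ i ∈ I, (1 - p ^ (A i).card / 2) ≤ Real.exp (-(q * I.card / 2)) := by
    calc ∏ i ∈ I, (1 - p ^ (A i).card / 2) ≤ ∏ _i ∈ I, Real.exp (-(q / 2)) := by
          refine Finset.prod_le_prod (fun i hi => ?_) (fun i hi => ?_)
          · have := pow_le_one₀ (n := (A i).card) hp0 hp1
            linarith
          · have h1 := hq i hi
            have h2 := Real.add_one_le_exp (-(q / 2))
            linarith
      _ = Real.exp (-(q * I.card / 2)) := by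
          rw [Finset.prod_const, ← Real.exp_nat_mul]
          congr 1
          ring
  rw [hgen] at hM
  have hlog : 0 ≤ Real.log 2 := Real.log_nonneg (by norm_num)
  have hlog2 := Real.log_two_lt_d9
  have hq' : 0 ≤ q * I.card := mul_nonneg hq0 (Nat.cast_nonneg _)
  have h3 : pr w (fun o => ((I.filter (fun i => A i ⊆ R o)).card : ℝ) ≤ y) ≤
      Real.exp (y * Real.log 2) * Real.exp (-(q * I.card / 2)) := by
    have h4 := hM.trans hbd
    have h5 := mul_le_mul_of_nonneg_left h4 (Real.exp_pos (y * Real.log 2)).le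
    refine le_trans (le_of_eq ?_) h5
    rw [mul_comm (pr w _), ← mul_assoc, ← Real.exp_add]
    simp
  refine h3.trans ?_
  rw [← Real.exp_add]
  refine Real.exp_le_exp.2 ?_
  have h6 : y * Real.log 2 ≤ q * I.card / 2 * Real.log 2 := mul_le_mul_of_nonneg_right hy hlog
  nlinarith

end Pool.Agent.H9.KR
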