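/-
ROW Cf (about 70 lines). The random graph has no large clique.
PROOF. If `G` is not `k`-clique free there is `x : Finset V` with `x.card = k`, all pairs of different vertices adjacent, so
`x.sym2.filter (¬ ·.IsDiag) ⊆ ed G` (a subset of `pairs V` with `k.choose 2` elements, e.g. `Sym2.card_image_offDiag` /
`SimpleGraph.card_edgeFinset_top_eq_card_choose_two`). pr_exists_le_card over `powersetCard k univ` and hit:
`pr ≤ (card V).choose k * p ^ (k.choose 2)`.
-/
import Pool.Agent.H9.KR.Defs

set_option autoImplicit false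
set_option linter.unusedSectionVars false

open Finset

namespace Pool.Agent.H9.KR

variable {V : Type} [Fintype V] [DecidableEq V]

theorem pr_clique {w : SimpleGraph V → ℝ} {p : ℝ} (h : RSub w ed (pairs V) p) (k : ℕ) :
    pr w (fun G => ¬ G.CliqueFree k) ≤ ((Fintype.card V).choose k : ℝ) * p ^ (k.choose 2) := by
  classical
  have h1 : pr w (fun G => ¬ G.CliqueFree k) ≤
      pr w (fun G => ∃ x ∈ powersetCard k (univ : Finset V), x.offDiag.image (Function.uncurry Sym2.mk) ⊆ ed G) := by
    refine pr_mono h.nonneg fun G hG => ?_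
    unfold SimpleGraph.CliqueFree at hG
    push Not at hG
    obtain ⟨x, hx⟩ := hG
    refine ⟨x, mem_powersetCard.2 ⟨subset_univ x, hx.card_eq⟩, ?_⟩
    intro e he
    obtain ⟨⟨u, v⟩, huv, rfl⟩ := mem_image.1 he
    obtain ⟨hu, hv, hne⟩ := mem_offDiag.1 huv
    exact mem_ed.2 (hx.isClique hu hv hne)
  refine h1.trans ((pr_exists_le_card h.nonneg (powersetCard k (univ : Finset V))
    (fun x G => x.offDiag.image (Function.uncurry Sym2.mk) ⊆ ed G) (p ^ (k.choose 2)) ?_).trans (le_of_eq ?_))
  · intro x hx
    have hc : (x.offDiag.image (Function.uncurry Sym2.mk)).card = k.choose 2 := by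
      rw [Sym2.card_image_offDiag, (mem_powersetCard.1 hx).2]
    rw [← hc]
    refine le_of_eq (h.hit _ ?_)
    intro e he
    obtain ⟨⟨u, v⟩, huv, rfl⟩ := mem_image.1 he
    exact mem_pairs.2 (mem_offDiag.1 huv).2.2
  · rw [card_powersetCard, card_univ]

end Pool.Agent.H9.KR
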