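/-
ROW Bn (about 60 lines). The product weights on the subsets of a finite set.
PROOF. nonneg is clear. hit: for `A` use `Finset.prod_add (fun e => p) (fun e => if e ∈ A then 0 else 1 - p) univ`:
`∏ e, (p + if e ∈ A then 0 else 1 - p) = ∑ R ∈ univ.powerset, (∏ e ∈ R, p) * ∏ e ∈ univ \ R, (if e ∈ A then 0 else 1 - p)`.
The left side is `∏ e, (if e ∈ A then p else 1) = p ^ A.card` (`prod_ite`, `p + (1 - p) = 1`). In the right side the term of `R` is
`p ^ R.card * (1 - p) ^ (univ \ R).card` if `A ⊆ R` (no element of `univ \ R` is in `A`) and `0` otherwise (some `e ∈ A \ R` gives a zero factor);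
`univ.powerset = univ` (`Finset.powerset_univ`).
-/
import Pool.Agent.H9.KR.Defs

set_option autoImplicit false
set_option linter.unusedSectionVars false

open Finset

namespace Pool.Agent.H9.KR

theorem rsub_bernoulli {E : Type} [Fintype E] [DecidableEq E] (p : ℝ) (hp0 : 0 ≤ p) (hp1 : p ≤ 1) :
    RSub (fun R : Finset E => p ^ R.card * (1 - p) ^ (univ \ R).card) (fun R => R) univ p := by
  classical
  refine ⟨fun R => mul_nonneg (pow_nonneg hp0 _) (pow_nonneg (by linarith) _), fun A _ => ?_⟩
  have h1 := Finset.prod_add (fun _ : E => p) (fun e : E => if e ∈ A then (0 : ℝ) else 1 - p) univ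
  have h2 : ∏ e : E, (p + if e ∈ A then (0 : ℝ) else 1 - p) = p ^ A.card := by
    have h3 : ∀ e : E, (p + if e ∈ A then (0 : ℝ) else 1 - p) = if e ∈ A then p else 1 := by
      intro e
      split_ifs <;> ring
    rw [Finset.prod_congr rfl fun e _ => h3 e, Finset.prod_ite, Finset.prod_const,
      Finset.prod_const_one, mul_one]
    congr 1
    congr 1
    ext e
    simp
  rw [h2, Finset.powerset_univ] at h1
  rw [h1]
  unfold pr
  refine Finset.sum_congr rfl fun R _ => ?_
  rw [Finset.prod_const]
  by_cases hA : A ⊆ R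
  · have h4 : ∏ e ∈ univ \ R, (if e ∈ A then (0 : ℝ) else 1 - p) = (1 - p) ^ (univ \ R).card := by
      rw [← Finset.prod_const]
      refine Finset.prod_congr rfl fun e he => ?_
      rw [if_neg]
      intro h5
      exact (Finset.mem_sdiff.1 he).2 (hA h5)
    rw [h4, if_pos hA]
  · rw [if_neg hA]
    obtain ⟨e, heA, heR⟩ := Finset.not_subset.1 hA
    have h6 : ∏ e ∈ univ \ R, (if e ∈ A then (0 : ℝ) else 1 - p) = 0 :=
      Finset.prod_eq_zero (Finset.mem_sdiff.2 ⟨Finset.mem_univ e, heR⟩) (if_pos heA)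
    rw [h6, mul_zero]

end Pool.Agent.H9.KR
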