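import Pool.Agent.H9.KR.Defs

/-!
Boxes with local predicates.
-/

set_option autoImplicit false
set_option linter.unusedSectionVars false

open Finset

namespace Pool.Agent.H9.KR

variable {V : Type} [Fintype V] [DecidableEq V] {k : ℕ}

/-- The predicate `φ` depends only on the coordinates in `Q`. -/
def Loc (Q : Finset (Fin k)) (φ : (Fin k → V) → Prop) : Prop :=
  ∀ z z', (∀ j ∈ Q, z j = z' j) → (φ z ↔ φ z')

/-- A refutation by boxes with local predicates. -/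
def CellRef (G : SimpleGraph V) (b : V → Fin k) (M D s : ℕ) (B : ℕ → Finset V)
    (Q : ℕ → Finset (Fin k)) (φ : ℕ → (Fin k → V) → Prop) : Prop :=
  (∀ t < s, (Q t).card ≤ D ∧ Loc (Q t) (φ t)) ∧
  (∀ t < s, (∃ R : Finset (Fin k), R.card ≤ M ∧ ∀ z, In b (B t) z → φ t z →
      ∃ i ∈ R, ∃ j ∈ R, i ≠ j ∧ ¬ G.Adj (z i) (z j)) ∨
    (∃ P : Finset ℕ, P.card * (D + 1) ≤ M ∧ (∀ q ∈ P, q < t) ∧ ∀ z, In b (B t) z → φ t z →
      ∃ q ∈ P, In b (B q) z ∧ φ q z)) ∧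
  ∃ t < s, B t = univ ∧ ∀ z, φ t z

/-- A good position at the line `t`. -/
def Good2 (G : SimpleGraph V) (b : V → Fin k) (B : ℕ → Finset V)
    (φ : ℕ → (Fin k → V) → Prop) (c : ℕ) (d : ℝ) (H zS : Finset V) (t : ℕ) : Prop :=
  ∃ x : Finset V, x ⊆ H ∧ x ⊆ B t ∧ TC G b x ∧ zS ⊆ x ∧ x.card ≤ c ∧
    (∀ z : Fin k → V, (∀ v ∈ x, z (b v) = v) → φ t z) ∧
    ∀ j, j ∉ x.image b → d ≤ ((nb G (pt b (B t) j) x).card : ℝ)

end Pool.Agent.H9.KR
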