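import Pool.Agent.H9.KR.Defs

/-!
The k-clique formula of a graph, refutations and protocols.
-/

set_option autoImplicit false
set_option linter.unusedSectionVars false

open Finset

namespace Pool.Agent.H9.KR

/-- The assignment `x` (where `x i v` says that `v` is the i-th vertex of the clique) satisfies all
axioms of the k-clique formula of `G` that mention only indices from `Q`: every index has a vertex,
no index has two vertices, and the vertices of different indices are adjacent. -/
def Axioms {n k : ℕ} (G : SimpleGraph (Fin n)) (Q : Finset (Fin k))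
    (x : Fin k → Fin n → Bool) : Prop :=
  (∀ i ∈ Q, ∃ v, x i v = true) ∧ (∀ i ∈ Q, ∀ u v, x i u = true → x i v = true → u = v) ∧
    ∀ i ∈ Q, ∀ j ∈ Q, i ≠ j → ∀ u v, x i u = true → x j v = true → G.Adj u v

/-- A proof line: the disjunction of a clause (a finite set of literals, a literal being a variable
together with its required value) and of an arbitrary predicate `P` of the variables whose index is
in `Q`. -/
structure Line (k n : ℕ) where
  clause : Finset ((Fin k × Fin n) × Bool)
  Q : Finset (Fin k)
  P : (Fin k → Fin n → Bool) → Prop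
  dep : ∀ x y, (∀ i ∈ Q, ∀ v, x i v = y i v) → (P x ↔ P y)

/-- The assignment `x` satisfies the line. -/
def Line.Holds {k n : ℕ} (L : Line k n) (x : Fin k → Fin n → Bool) : Prop :=
  (∃ l ∈ L.clause, x l.1.1 l.1.2 = l.2) ∨ L.P x

/-- The lines `L 0, ..., L (s - 1)` are a refutation of the k-clique formula of `G`: every line has
a predicate of at most `D` indices, and is implied (over all assignments) by the axioms on some
set of at most `M` indices, or by at most `M / (D + 1)` earlier lines; one line is
unsatisfiable. -/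
def Refutes {n k : ℕ} (G : SimpleGraph (Fin n)) (M : ℝ) (D s : ℕ) (L : ℕ → Line k n) : Prop :=
  (∀ t < s, (L t).Q.card ≤ D) ∧
  (∀ t < s, (∃ Q : Finset (Fin k), (Q.card : ℝ) ≤ M ∧ ∀ x, Axioms G Q x → (L t).Holds x) ∨
    (∃ P : Finset ℕ, (P.card : ℝ) * (D + 1) ≤ M ∧ (∀ q ∈ P, q < t) ∧
      ∀ x, (∀ q ∈ P, (L q).Holds x) → (L t).Holds x)) ∧
  ∃ t < s, ∀ x, ¬ (L t).Holds x

/-- A set of points `z : Fin k → Fin n` (`z i` is held by party `i`): the points of the box
`∏ i, box i` that satisfy a predicate `P` of the coordinates in `Q`. -/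
structure Cell (k n : ℕ) where
  box : Fin k → Set (Fin n)
  Q : Finset (Fin k)
  P : (Fin k → Fin n) → Prop
  dep : ∀ z z', (∀ i ∈ Q, z i = z' i) → (P z ↔ P z')

/-- `z` is a point of the cell. -/
def Cell.Mem {k n : ℕ} (F : Cell k n) (z : Fin k → Fin n) : Prop := (∀ i, z i ∈ F.box i) ∧ F.P z

/-- The cells `F 0, ..., F (s - 1)` are a dag-like k-party protocol for the search problem: given
`z`, find two indices `i`, `j` whose vertices `z i`, `z j` are not adjacent. The predicates have at
most `D` coordinates; in every cell the vertices of some set of at most `M` indices never form a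
clique, or the cell is covered by at most `M / (D + 1)` earlier cells; one cell contains all
points. -/
def Protocol {n k : ℕ} (G : SimpleGraph (Fin n)) (M : ℝ) (D s : ℕ) (F : ℕ → Cell k n) : Prop :=
  (∀ t < s, (F t).Q.card ≤ D) ∧
  (∀ t < s, (∃ Q : Finset (Fin k), (Q.card : ℝ) ≤ M ∧ ∀ z, (F t).Mem z →
      ∃ i ∈ Q, ∃ j ∈ Q, i ≠ j ∧ ¬ G.Adj (z i) (z j)) ∨
    (∃ P : Finset ℕ, (P.card : ℝ) * (D + 1) ≤ M ∧ (∀ q ∈ P, q < t) ∧
      ∀ z, (F t).Mem z → ∃ q ∈ P, (F q).Mem z)) ∧
  ∃ t < s, ∀ z, (F t).Mem z

/-- The block of a vertex. -/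
def blk (n k : ℕ) (hk : 0 < k) (v : Fin n) : Fin k := ⟨v % k, Nat.mod_lt _ hk⟩

end Pool.Agent.H9.KR
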