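/-
From refutations to boxes.
-/
import Pool.Agent.H9.KR.St
import Pool.Agent.H9.KR.D2

set_option autoImplicit false
set_option linter.unusedSectionVars false

open Finset

namespace Pool.Agent.H9.KR

variable {n k : ℕ}

theorem blk_card (hk : 0 < k) (j : Fin k) : n / k ≤ (pt (blk n k hk) univ j).card := by
  have hlt : ∀ i : Fin (n / k), (j : ℕ) + k * i < n := by
    intro i
    have h1 : (i : ℕ) + 1 ≤ n / k := i.2
    have h2 : k * ((i : ℕ) + 1) ≤ k * (n / k) := Nat.mul_le_mul_left k h1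
    have h3 : k * (n / k) ≤ n := Nat.mul_div_le n k
    have h4 := j.2
    have h5 : k * ((i : ℕ) + 1) = k * i + k := by ring
    omega
  have h := Finset.card_le_card_of_injOn (s := (univ : Finset (Fin (n / k))))
    (t := pt (blk n k hk) univ j) (fun i => (⟨(j : ℕ) + k * i, hlt i⟩ : Fin n)) (fun i _ => by
      rw [Finset.mem_coe, mem_pt]
      refine ⟨mem_univ _, ?_⟩
      apply Fin.ext
      show ((j : ℕ) + k * i) % k = j
      rw [Nat.add_mul_mod_self_left]
      exact Nat.mod_eq_of_lt j.2) (fun a _ b _ hab => by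
      have h1 : (j : ℕ) + k * a = (j : ℕ) + k * b := congrArg Fin.val hab
      have h2 : k * (a : ℕ) = k * b := by omega
      exact Fin.ext (Nat.eq_of_mul_eq_mul_left hk h2))
  rwa [Finset.card_univ, Fintype.card_fin] at h

/-- The cell of a line. -/
def toCell (L : Line k n) : Cell k n where
  box i := {v | ∀ l ∈ L.clause, l.1.1 = i → ¬ (decide (v = l.1.2) = l.2)}
  Q := L.Q
  P z := ¬ L.P (fun i v => decide (z i = v))
  dep z z' h := by
    rw [L.dep (fun i v => decide (z i = v)) (fun i v => decide (z' i = v))]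
    intro i hi v
    show decide (z i = v) = decide (z' i = v)
    rw [h i hi]

lemma mem_toCell (L : Line k n) (z : Fin k → Fin n) :
    (toCell L).Mem z ↔ ¬ L.Holds (fun i v => decide (z i = v)) := by
  constructor
  · rintro ⟨hz, hP⟩ (⟨l, hl, hx⟩ | hx)
    · exact hz l.1.1 l hl rfl hx
    · exact hP hx
  · intro hz
    refine ⟨fun i l hl hli hx => hz (Or.inl ⟨l, hl, ?_⟩), fun h => hz (Or.inr h)⟩
    show decide (z l.1.1 = l.1.2) = l.2
    rw [hli]
    exact hx

theorem refutes_protocol (G : SimpleGraph (Fin n)) (M : ℝ) (D s : ℕ) (L : ℕ → Line k n)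
    (h : Refutes G M D s L) : ∃ F : ℕ → Cell k n, Protocol G M D s F := by
  obtain ⟨hD, h1, t0, ht0, hL0⟩ := h
  refine ⟨fun t => toCell (L t), hD, ?_, t0, ht0, fun z => (mem_toCell _ z).2 (hL0 _)⟩
  intro t ht
  rcases h1 t ht with ⟨Q, hQ, hx⟩ | ⟨P, hP, hPt, hx⟩
  · left
    refine ⟨Q, hQ, fun z hz => ?_⟩
    have hz' := (mem_toCell _ z).1 hz
    by_contra hcon
    push Not at hcon
    apply hz'
    apply hx
    refine ⟨fun i _ => ⟨z i, by simp⟩, fun i _ u v hu hv => ?_, fun i hi j hj hij u v hu hv => ?_⟩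
    · rw [decide_eq_true_eq] at hu hv
      rw [← hu, ← hv]
    · rw [decide_eq_true_eq] at hu hv
      rw [← hu, ← hv]
      exact hcon i hi j hj hij
  · right
    refine ⟨P, hP, hPt, fun z hz => ?_⟩
    have hz' := (mem_toCell _ z).1 hz
    by_contra hcon
    push Not at hcon
    apply hz'
    apply hx
    intro q hq
    by_contra hh
    exact hcon q hq ((mem_toCell _ z).2 hh)

theorem protocol_box (G : SimpleGraph (Fin n)) (M : ℝ) (D s : ℕ) (F : ℕ → Cell k n)
    (hk : 0 < k) (h : Protocol G M D s F) :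
    ∃ B : ℕ → Finset (Fin n), CellRef G (blk n k hk) ⌊M⌋₊ D s B (fun t => (F t).Q)
      (fun t => (F t).P) := by
  classical
  obtain ⟨hD, h1, t0, ht0, hB0⟩ := h
  have key : ∀ (t : ℕ) (z : Fin k → Fin n),
      In (blk n k hk) (univ.filter (fun v => v ∈ (F t).box (blk n k hk v))) z ↔
        (∀ j, blk n k hk (z j) = j) ∧ ∀ j, z j ∈ (F t).box j := by
    intro t z
    constructor
    · intro hz
      refine ⟨fun j => (hz j).1, fun j => ?_⟩
      have h2 := (hz j).2
      rw [mem_filter, (hz j).1] at h2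
      exact h2.2
    · rintro ⟨hz1, hz2⟩ j
      refine ⟨hz1 j, ?_⟩
      rw [mem_filter, hz1 j]
      exact ⟨mem_univ _, hz2 j⟩
  refine ⟨fun t => univ.filter (fun v => v ∈ (F t).box (blk n k hk v)),
    fun t ht => ⟨hD t ht, fun z z' h => (F t).dep z z' h⟩, ?_, t0, ht0, ?_, fun z => (hB0 z).2⟩
  · intro t ht
    rcases h1 t ht with ⟨Q, hQ, hx⟩ | ⟨P, hP, hPt, hx⟩
    · left
      exact ⟨Q, Nat.le_floor hQ, fun z hz hφ => hx z ⟨((key t z).1 hz).2, hφ⟩⟩
    · right
      refine ⟨P, Nat.le_floor (by push_cast; exact hP), hPt, fun z hz hφ => ?_⟩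
      obtain ⟨hz1, hz2⟩ := (key t z).1 hz
      obtain ⟨q, hq, hqz⟩ := hx z ⟨hz2, hφ⟩
      exact ⟨q, hq, (key q z).2 ⟨hz1, hqz.1⟩, hqz.2⟩
  · ext v
    simp only [mem_filter, mem_univ, true_and, iff_true]
    exact (hB0 (fun _ => v)).1 _

end Pool.Agent.H9.KR
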