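/-
Committing to vertices in the blocks of `Q`, starting from `x ∪ y₀`.
-/
import Pool.Agent.H9.KR.Defs

set_option autoImplicit false
set_option linter.unusedSectionVars false

open Finset

namespace Pool.Agent.H9.KR

variable {V : Type} [Fintype V] [DecidableEq V] {k : ℕ}

theorem commit' {G : SimpleGraph V} {b : V → Fin k} {f T w s r : ℕ} {σ ρ d₂ μ : ℝ}
    {W : Finset V → Finset V} {B : ℕ → Finset V} {H : Finset V} (hE : Expan G b f T w σ W)
    (hH : HP G b W B s T r ρ d₂ μ H) (hσ : 0 < σ) (hρ : 0 < ρ) {t : ℕ} (ht : t < s)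
    (x y₀ : Finset V) (hx : TC G b (x ∪ y₀)) (hy₀ : Disjoint y₀ (ex G b W (B t) x)) (d₀ : ℝ)
    (hd : ∀ j, j ∉ x.image b → d₀ ≤ ((nb G (pt b (B t) j) x).card : ℝ))
    (hf : (f : ℝ) ≤ d₀) (hσd : d₂ ≤ σ * d₀) (Q : Finset (Fin k))
    (hQ : ∀ j ∈ Q, j ∉ (x ∪ y₀).image b)
    (hT : x.card + y₀.card + Q.card ≤ T) (U : Finset V)
    (hU : ((H ∩ U).card : ℝ) ≤ ρ * d₂ / 4) :
    ∃ y : Finset V, y ⊆ H ∧ y ⊆ B t ∧ Disjoint y U ∧ Disjoint y (ex G b W (B t) x) ∧
      y.image b = Q ∧ y.card ≤ Q.card ∧ TC G b ((x ∪ y₀) ∪ y) ∧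
      ∀ j, j ∉ ((x ∪ y₀) ∪ y).image b →
        σ * d₀ ≤ ((nb G (pt b (B t) j) ((x ∪ y₀) ∪ y)).card : ℝ) := by
  classical
  -- the claim
  have claim : ∀ y : Finset V, Disjoint y (ex G b W (B t) x) → y₀.card + y.card ≤ T →
      ∀ j, j ∉ ((x ∪ y₀) ∪ y).image b →
        σ * d₀ ≤ ((nb G (pt b (B t) j) ((x ∪ y₀) ∪ y)).card : ℝ) := by
    intro y hy hyT j hj
    rw [union_assoc] at hj ⊢
    have hjx : j ∉ x.image b := fun h => hj (image_subset_image subset_union_left h)
    have h1 := hd j hjx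
    have h2 : f ≤ (nb G (pt b (B t) j) x).card := by
      have : (f : ℝ) ≤ ((nb G (pt b (B t) j) x).card : ℝ) := hf.trans h1
      exact_mod_cast this
    have h3 := hE.expan j (nb G (pt b (B t) j) x)
      (fun v hv => (mem_pt.1 (nb_sub _ _ _ hv)).2) h2 (y₀ ∪ y)
      ((card_union_le _ _).trans hyT)
      ((disjoint_union_left.2 ⟨hy₀, hy⟩).mono_right (W_sub_ex G b W (B t) x j))
      (fun v hv hvj => hj (mem_image.2 ⟨v, mem_union_right _ hv, hvj⟩))
    rw [nb_nb] at h3
    exact (mul_le_mul_of_nonneg_left h1 hσ.le).trans h3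
  -- the induction
  have main : ∀ Q' : Finset (Fin k), (∀ j ∈ Q', j ∉ (x ∪ y₀).image b) →
      x.card + y₀.card + Q'.card ≤ T →
      ∃ y : Finset V, y ⊆ H ∧ y ⊆ B t ∧ Disjoint y U ∧ Disjoint y (ex G b W (B t) x) ∧
        y.image b = Q' ∧ y.card ≤ Q'.card ∧ TC G b ((x ∪ y₀) ∪ y) := by
    intro Q'
    induction Q' using Finset.induction_on with
    | empty =>
      intro _ _
      refine ⟨∅, empty_subset _, empty_subset _, disjoint_empty_left _, disjoint_empty_left _,
        image_empty _, le_rfl, ?_⟩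
      rw [union_empty]
      exact hx
    | insert q Q' hq ih =>
      intro hQ' hT'
      rw [card_insert_of_notMem hq] at hT'
      obtain ⟨y, hyH, hyB, hyU, hyX, hyi, hyc, hyT⟩ :=
        ih (fun j hj => hQ' j (mem_insert_of_mem hj)) (by omega)
      have hqx : q ∉ (x ∪ y₀).image b := hQ' q (mem_insert_self _ _)
      have hqn : q ∉ ((x ∪ y₀) ∪ y).image b := by
        rw [image_union, mem_union, hyi]
        exact fun h => h.elim hqx hq
      have hcl := claim y hyX (by omega) q hqn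
      have hcard : ((x ∪ y₀) ∪ y).card ≤ T := by
        have h1 := card_union_le (x ∪ y₀) y
        have h2 := card_union_le x y₀
        omega
      have hd2 : d₂ ≤ ((nb G (pt b (B t) q) ((x ∪ y₀) ∪ y)).card : ℝ) := hσd.trans hcl
      have hbig := hH.big t ht q ((x ∪ y₀) ∪ y) hcard hd2
      have hexc := hH.exc t ht x (by omega)
      have hlow : ρ * d₂ / 2 ≤ ρ * (nb G (pt b (B t) q) ((x ∪ y₀) ∪ y)).card / 2 := by
        have := mul_le_mul_of_nonneg_left hd2 hρ.le
        linarith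
      have hex : ∃ v ∈ H ∩ nb G (pt b (B t) q) ((x ∪ y₀) ∪ y),
          v ∉ U ∧ v ∉ ex G b W (B t) x := by
        by_contra hcon
        push Not at hcon
        have hsub : H ∩ nb G (pt b (B t) q) ((x ∪ y₀) ∪ y) ⊆
            (H ∩ U) ∪ (H ∩ ex G b W (B t) x) := by
          intro v hv
          have hvH := (mem_inter.1 hv).1
          by_cases hvU : v ∈ U
          · exact mem_union_left _ (mem_inter.2 ⟨hvH, hvU⟩)
          · exact mem_union_right _ (mem_inter.2 ⟨hvH, hcon v hv hvU⟩)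
        have hc := (card_le_card hsub).trans (card_union_le _ _)
        have hc' : ((H ∩ nb G (pt b (B t) q) ((x ∪ y₀) ∪ y)).card : ℝ) ≤
            ((H ∩ U).card : ℝ) + ((H ∩ ex G b W (B t) x).card : ℝ) := by exact_mod_cast hc
        linarith
      obtain ⟨v, hv, hvU, hvX⟩ := hex
      have hvH := (mem_inter.1 hv).1
      have hvn := mem_nb.1 (mem_inter.1 hv).2
      have hvp := mem_pt.1 hvn.1
      refine ⟨insert v y, insert_subset hvH hyH, insert_subset hvp.1 hyB, ?_, ?_, ?_, ?_, ?_⟩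
      · rw [disjoint_insert_left]
        exact ⟨hvU, hyU⟩
      · rw [disjoint_insert_left]
        exact ⟨hvX, hyX⟩
      · rw [image_insert, hvp.2, hyi]
      · rw [card_insert_of_notMem hq]
        exact (card_insert_le _ _).trans (by omega)
      · have hmem : ∀ u ∈ (x ∪ y₀) ∪ insert v y, u = v ∨ u ∈ (x ∪ y₀) ∪ y := by
          intro u hu
          rw [union_insert, mem_insert] at hu
          exact hu
        have hbv : ∀ u ∈ (x ∪ y₀) ∪ y, b u ≠ b v := by
          intro u hu h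
          apply hqn
          rw [← hvp.2, ← h]
          exact mem_image_of_mem _ hu
        intro u hu u' hu' huu
        rcases hmem u hu with rfl | h1
        · rcases hmem u' hu' with rfl | h2
          · exact absurd rfl huu
          · exact ⟨(hbv u' h2).symm, (hvn.2 u' h2).symm⟩
        · rcases hmem u' hu' with rfl | h2
          · exact ⟨hbv u h1, hvn.2 u h1⟩
          · exact hyT u h1 u' h2 huu
  obtain ⟨y, hyH, hyB, hyU, hyX, hyi, hyc, hyT⟩ := main Q hQ hT
  exact ⟨y, hyH, hyB, hyU, hyX, hyi, hyc, hyT, claim y hyX (by omega)⟩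

end Pool.Agent.H9.KR
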