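/-
ROW Cv (about 110 lines). Covering a box by few boxes (the argument of Tarsi's lemma).
PROOF. For `q ∈ P` let `J q = {j | ¬ pt b B j ⊆ C q}` (a finset of blocks), and for `P' ⊆ P` let `J P' = P'.biUnion J`. Let `P' ⊆ P` be of largest
cardinality with `(J P').card ≤ P'.card` (`∅` qualifies). Claim: every `z` with `In b B z` has `q ∈ P'` with `In b (C q) z`; then `J = J P'`
works (for `q ∈ P'`, `j ∉ J P'` we have `j ∉ J q`). Suppose `z` is in `B` but in no `C q`, `q ∈ P'`. For every nonempty `R ⊆ P \ P'`: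
`(R.biUnion (fun q => J q \ J P')).card > R.card - 1`, i.e. `≥ R.card`: otherwise `P' ∪ R` has `(J (P' ∪ R)).card ≤ P'.card + R.card` and is larger.
By Hall's theorem (`Finset.all_card_le_biUnion_card_iff_exists_injective` for the index type `{q // q ∈ P \ P'}`) there is an injective
`g` with `g q ∈ J q \ J P'`. For each such `q` choose `u q ∈ pt b B (g q)` with `u q ∉ C q`. Let `z' j = u q` if `j = g q` for some (unique) `q`,
and `z' j = z j` otherwise. Then `In b B z'`. By hcov some `q ∈ P` has `In b (C q) z'`. If `q ∈ P \ P'`: `z' (g q) = u q ∉ C q`, contradiction. If `q ∈ P'`: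
as `z` is not in `C q`, some `j` has `z j ∉ C q` (`b (z j) = j` holds), and `z j ∈ pt b B j`, so `j ∈ J q ⊆ J P'`, hence `j` is not a value of `g` and
`z' j = z j ∉ C q`, contradiction.
-/
import Pool.Agent.H9.KR.Defs

set_option autoImplicit false
set_option linter.unusedSectionVars false

open Finset

namespace Pool.Agent.H9.KR

variable {V : Type} [Fintype V] [DecidableEq V] {k : ℕ}

theorem cover (b : V → Fin k) (B : Finset V) (P : Finset ℕ) (C : ℕ → Finset V)
    (hcov : ∀ z, In b B z → ∃ q ∈ P, In b (C q) z) :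
    ∃ P' ⊆ P, ∃ J : Finset (Fin k), J.card ≤ P'.card ∧
      (∀ z, In b B z → ∃ q ∈ P', In b (C q) z) ∧ ∀ q ∈ P', ∀ j, j ∉ J → pt b B j ⊆ C q := by
  classical
  let J : ℕ → Finset (Fin k) := fun q => univ.filter (fun j => ¬ pt b B j ⊆ C q)
  have hJ : ∀ q j, j ∈ J q ↔ ¬ pt b B j ⊆ C q := fun q j => by simp [J]
  obtain ⟨P', hP', hmax⟩ := Finset.exists_max_image
    (P.powerset.filter (fun R => (R.biUnion J).card ≤ R.card)) (fun R => R.card)
    ⟨∅, by simp⟩
  rw [mem_filter, mem_powerset] at hP'
  refine ⟨P', hP'.1, P'.biUnion J, hP'.2, ?_, ?_⟩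
  · intro z hz
    by_contra hno
    push Not at hno
    -- Hall condition
    let T : {q // q ∈ P \ P'} → Finset (Fin k) := fun q => J q.1 \ P'.biUnion J
    have hall : ∀ R : Finset {q // q ∈ P \ P'}, R.card ≤ (R.biUnion T).card := by
      intro R
      by_contra hlt
      rw [not_le] at hlt
      set R' : Finset ℕ := R.image Subtype.val with hR'
      have hcR : R'.card = R.card := card_image_of_injective _ Subtype.val_injective
      have hR'P : R' ⊆ P \ P' := by
        intro q hq
        rw [hR', mem_image] at hq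
        obtain ⟨q', _, rfl⟩ := hq
        exact q'.2
      have hdis : Disjoint P' R' := by
        rw [Finset.disjoint_left]
        intro q hq hq'
        exact (mem_sdiff.1 (hR'P hq')).2 hq
      have hbU : (P' ∪ R').biUnion J = P'.biUnion J ∪ R.biUnion T := by
        ext j
        simp only [mem_union, mem_biUnion, T, mem_sdiff, hR', mem_image]
        constructor
        · rintro ⟨q, hq | ⟨q', hq', rfl⟩, hj⟩
          · exact Or.inl ⟨q, hq, hj⟩
          · by_cases hj' : ∃ a ∈ P', j ∈ J a
            · exact Or.inl hj'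
            · exact Or.inr ⟨q', hq', hj, hj'⟩
        · rintro (⟨q, hq, hj⟩ | ⟨q', hq', hj, _⟩)
          · exact ⟨q, Or.inl hq, hj⟩
          · exact ⟨q'.1, Or.inr ⟨q', hq', rfl⟩, hj⟩
      have hcard : ((P' ∪ R').biUnion J).card ≤ (P' ∪ R').card := by
        rw [hbU, card_union_of_disjoint hdis, hcR]
        exact (card_union_le _ _).trans (add_le_add hP'.2 hlt.le)
      have h1 := hmax (P' ∪ R') (by
        rw [mem_filter, mem_powerset]
        exact ⟨union_subset hP'.1 (hR'P.trans sdiff_subset), hcard⟩)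
      rw [card_union_of_disjoint hdis, hcR] at h1
      omega
    obtain ⟨g, hginj, hg⟩ := (Finset.all_card_le_biUnion_card_iff_exists_injective T).1 hall
    have hu : ∀ q : {q // q ∈ P \ P'}, ∃ v, v ∈ pt b B (g q) ∧ v ∉ C q.1 := by
      intro q
      have h2 := (mem_sdiff.1 (hg q)).1
      rw [hJ, Finset.not_subset] at h2
      exact h2
    choose u hu1 hu2 using hu
    let z' : Fin k → V := fun j => if h : ∃ q, g q = j then u h.choose else z j
    have hz'g : ∀ q, z' (g q) = u q := by
      intro q
      have hex : ∃ q', g q' = g q := ⟨q, rfl⟩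
      simp only [z', dif_pos hex]
      rw [hginj hex.choose_spec]
    have hz'n : ∀ j, (¬ ∃ q, g q = j) → z' j = z j := by
      intro j hj
      simp only [z', dif_neg hj]
    have hz' : In b B z' := by
      intro j
      by_cases h : ∃ q, g q = j
      · obtain ⟨q, rfl⟩ := h
        rw [hz'g]
        have := mem_pt.1 (hu1 q)
        exact ⟨this.2, this.1⟩
      · rw [hz'n j h]
        exact hz j
    obtain ⟨q, hq, hqz⟩ := hcov z' hz'
    by_cases hqP : q ∈ P'
    · have h3 := hno q hqP
      unfold In at h3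
      push Not at h3
      obtain ⟨j, hj⟩ := h3
      have h4 : z j ∉ C q := hj (hz j).1
      have h5 : j ∈ J q := by
        rw [hJ]
        intro hsub
        exact h4 (hsub (mem_pt.2 ⟨(hz j).2, (hz j).1⟩))
      have h6 : ¬ ∃ q', g q' = j := by
        rintro ⟨q', rfl⟩
        exact (mem_sdiff.1 (hg q')).2 (mem_biUnion.2 ⟨q, hqP, h5⟩)
      have h7 := (hqz j).2
      rw [hz'n j h6] at h7
      exact h4 h7
    · have hmem : q ∈ P \ P' := mem_sdiff.2 ⟨hq, hqP⟩
      have h8 := (hqz (g ⟨q, hmem⟩)).2
      rw [hz'g] at h8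
      exact hu2 ⟨q, hmem⟩ h8
  · intro q hq j hj
    by_contra hsub
    exact hj (mem_biUnion.2 ⟨q, hq, (hJ q j).2 hsub⟩)

end Pool.Agent.H9.KR
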