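/-
ROW Ct. Two counts.
-/
import Pool.Agent.H9.KR.Defs

set_option autoImplicit false
set_option linter.unusedSectionVars false

open Finset

namespace Pool.Agent.H9.KR

variable {V : Type} [Fintype V] [DecidableEq V] {k : ℕ}

theorem card_small (T : ℕ) :
    ((univ : Finset (Finset V)).filter (fun x => x.card ≤ T)).card ≤ (Fintype.card V + 1) ^ T := by
  classical
  induction T with
  | zero =>
    have h : (univ : Finset (Finset V)).filter (fun x => x.card ≤ 0) = {∅} := by
      ext x; simp
    rw [h]; simp
  | succ T ih =>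
    set S := (univ : Finset (Finset V)).filter (fun x => x.card ≤ T) with hS
    have h1 : (univ : Finset (Finset V)).filter (fun x => x.card ≤ T + 1) ⊆
        (S ×ˢ (univ : Finset (Option V))).image
          (fun q => match q.2 with
            | none => q.1
            | some v => insert v q.1) := by
      intro y hy
      have hy1 : y.card ≤ T + 1 := (mem_filter.1 hy).2
      rw [mem_image]
      rcases y.eq_empty_or_nonempty with rfl | ⟨v, hv⟩
      · exact ⟨(∅, none), by simp [hS], rfl⟩
      · refine ⟨(y.erase v, some v), ?_, ?_⟩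
        · rw [mem_product]
          refine ⟨?_, mem_univ _⟩
          rw [hS, mem_filter]
          refine ⟨mem_univ _, ?_⟩
          simp only
          rw [card_erase_of_mem hv]
          omega
        · simp only
          exact insert_erase hv
    refine (card_le_card h1).trans (card_image_le.trans ?_)
    rw [card_product, card_univ, Fintype.card_option, pow_succ]
    exact Nat.mul_le_mul_right _ ih

/-- All exceptional sequences of length `r`. -/
noncomputable def sqs (G : SimpleGraph V) (b : V → Fin k) (W : Finset V → Finset V)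
    (B : Finset V) : ℕ → Finset (List V)
  | 0 => {[]}
  | r + 1 => (sqs G b W B r).biUnion (fun l => (ex G b W B l.toFinset).image (fun v => v :: l))

lemma mem_sqs (G : SimpleGraph V) (b : V → Fin k) (W : Finset V → Finset V) (B : Finset V)
    (l : List V) (h : Sq G b W B l) : l ∈ sqs G b W B l.length := by
  induction l with
  | nil => simp [sqs]
  | cons v l ih =>
    obtain ⟨h1, h2⟩ := h
    simp only [List.length_cons, sqs, mem_biUnion, mem_image]
    exact ⟨l, ih h2, v, h1, rfl⟩

lemma card_sqs (G : SimpleGraph V) (b : V → Fin k) (W : Finset V → Finset V) (w : ℕ)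
    (hW : ∀ D, (W D).card ≤ w) (B : Finset V) (r : ℕ) :
    (sqs G b W B r).card ≤ (k * w) ^ r := by
  induction r with
  | zero => simp [sqs]
  | succ r ih =>
    simp only [sqs]
    refine card_biUnion_le.trans ((Finset.sum_le_sum fun l _ =>
      (card_image_le.trans (card_ex_le hW B l.toFinset))).trans ?_)
    rw [Finset.sum_const, smul_eq_mul, pow_succ]
    exact Nat.mul_le_mul_right _ ih

theorem seq_pr {w' : Finset V → ℝ} {ρ : ℝ} (h : RSub w' (fun H => H) univ ρ) (hρ : 0 ≤ ρ)
    (G : SimpleGraph V) (b : V → Fin k) (W : Finset V → Finset V) (w : ℕ)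
    (hW : ∀ D, (W D).card ≤ w) (B : Finset V) (r : ℕ) :
    pr w' (fun H => ∃ l : List V, l.length = r ∧ l.Nodup ∧ (∀ v ∈ l, v ∈ H) ∧ Sq G b W B l) ≤
      (k * w * ρ) ^ r := by
  classical
  set S := (sqs G b W B r).filter (fun l => l.length = r ∧ l.Nodup) with hS
  have h1 : pr w' (fun H => ∃ l : List V, l.length = r ∧ l.Nodup ∧ (∀ v ∈ l, v ∈ H) ∧
      Sq G b W B l) ≤ pr w' (fun H => ∃ l ∈ S, l.toFinset ⊆ H) := by
    apply pr_mono h.nonneg
    rintro H ⟨l, hl, hn, hlH, hsq⟩
    refine ⟨l, ?_, ?_⟩
    · rw [hS, mem_filter]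
      refine ⟨?_, hl, hn⟩
      have := mem_sqs G b W B l hsq
      rwa [hl] at this
    · intro v hv
      exact hlH v (List.mem_toFinset.1 hv)
  refine h1.trans ((pr_exists_le_card h.nonneg S _ (ρ ^ r) ?_).trans ?_)
  · intro l hl
    rw [hS, mem_filter] at hl
    obtain ⟨_, hl, hn⟩ := hl
    have h2 := h.hit l.toFinset (subset_univ _)
    rw [List.toFinset_card_of_nodup hn, hl] at h2
    exact h2.le
  · rw [mul_pow]
    apply mul_le_mul_of_nonneg_right _ (by positivity)
    have h3 : S.card ≤ (k * w) ^ r :=
      (card_le_card (filter_subset _ _)).trans (card_sqs G b W w hW B r)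
    exact_mod_cast h3

end Pool.Agent.H9.KR
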