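/-
ROW G1 (about 130 lines). One step of the greedy choice.
(1) avg: `J` finite set of blocks, `A` finite set, a relation `S F j`; every `F ∈ A` has at least `a` elements `j ∈ J` with `S F j`;
 `J.card ≤ k`, `A` nonempty, `0 < a`. Then some `j ∈ J` has `a |A| ≤ k #{F ∈ A | S F j}`. PROOF. Double counting
 (`Finset.sum_card_bipartiteAbove_eq_sum_card_bipartiteBelow`): `a |A| ≤ ∑ F ∈ A, #{j ∈ J | S F j} = ∑ j ∈ J, #{F ∈ A | S F j}`; if all
 `k #{..} < a |A|` then (J nonempty) `k ∑ < |J| a |A| ≤ k a |A|`, contradiction.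
(2) pick: `Y` finite nonempty set, `A'` finite set, a relation `N F v`, every `F ∈ A'` has `2 #{v ∈ Y | N F v} ≤ |Y|`. Then some `v ∈ Y`
 has `2 #{F ∈ A' | N F v} ≤ |A'|`. PROOF. The same double counting.
(3) greedy_step: let `A` be a finite set of pairs `(t, C)` (`t < s`, `C.card ≤ r ≤ T`, `(Sm G b μ (B t) C).card > 2 a`, and
 alive: for `v ∈ z`, `b v ∉ C.image b → v ∈ nb G (B t) C`), `z ⊆ H` with TC, `z.card < a`, disjoint from `X₀ = ex G b W univ ∅`.
 If `A = ∅` nothing is claimed (assume A nonempty). Apply (1) with `J = univ \ z.image b`, `S F j := j ∈ Sm G b μ (B F.1) F.2`: each `F` has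
 at least `2 a + 1 - z.card ≥ a` such `j`. Get `j₀ ∉ z.image b` with `a |A| ≤ k |A'|`, `A' = {F ∈ A | j₀ ∈ Sm ..}`.
 `D = nb G (pt b univ j₀) z` has `|D| ≥ σ m ≥ d₂`: expan for `D₀ = pt b univ j₀` (`|D₀| ≥ m ≥ f`; `W D₀ = W (nb G (pt b univ j₀) ∅) ⊆ X₀`,
 `z.card ≤ T`, `b v ≠ j₀` for `v ∈ z`). `Y = (H ∩ D) \ X₀`: by hH.big, hH.exc for the box `univ = B t₀`:
 `|Y| ≥ ρ |D| / 2 - ρ d₂ / 4 ≥ ρ σ m / 4 > 0` (strictly larger in fact). For `F ∈ A'`: `{v ∈ Y | v ∈ nb G (B F.1) F.2} ⊆ H ∩ nb G (pt b (B F.1) j₀) F.2`,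
 which has at most `8 ρ μ ≤ ρ σ m / 8 ≤ |Y| / 2` elements (hH.small as `j₀ ∈ Sm`; `64 μ ≤ σ m`). By (2) there is `v ∈ Y` with
 `2 #{F ∈ A' | v ∈ nb G (B F.1) F.2} ≤ |A'|`. Take `insert v z`. `F ∈ A` is alive for `insert v z` only if `F ∉ A'` or
 `v ∈ nb G (B F.1) F.2` (as `b v = j₀ ∉ F.2.image b` for `F ∈ A'`). So the number of alive `F` is at most
 `|A| - |A'| / 2 ≤ |A| - a |A| / (2 k)`.
-/
import Pool.Agent.H9.KR.Defs

set_option autoImplicit false
set_option linter.unusedSectionVars false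

open Finset

namespace Pool.Agent.H9.KR

variable {V : Type} [Fintype V] [DecidableEq V] {k : ℕ}

open Classical in
private theorem Gr1_avg {α : Type} (J : Finset (Fin k)) (A : Finset α) (S : α → Fin k → Prop)
    (a : ℕ) (ha : 0 < a) (hA : A.Nonempty) (hS : ∀ F ∈ A, a ≤ (J.filter (S F)).card) :
    ∃ j ∈ J, a * A.card ≤ k * (A.filter (fun F => S F j)).card := by
  by_contra hcon
  push Not at hcon
  have h1 : ∑ F ∈ A, (J.filter (S F)).card = ∑ j ∈ J, (A.filter (fun F => S F j)).card :=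
    sum_card_bipartiteAbove_eq_sum_card_bipartiteBelow S
  have h2 : a * A.card ≤ ∑ F ∈ A, (J.filter (S F)).card := by
    have := card_nsmul_le_sum A (fun F => (J.filter (S F)).card) a hS
    rw [smul_eq_mul] at this
    rw [mul_comm]
    exact this
  obtain ⟨F, hF⟩ := hA
  have hJ : J.Nonempty := by
    have h3 := hS F hF
    have h4 : 0 < (J.filter (S F)).card := by omega
    obtain ⟨j, hj⟩ := card_pos.1 h4
    exact ⟨j, (mem_filter.1 hj).1⟩
  have h3 : ∑ j ∈ J, k * (A.filter (fun F => S F j)).card < ∑ _j ∈ J, a * A.card :=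
    sum_lt_sum_of_nonempty hJ hcon
  rw [← mul_sum, ← h1, sum_const, smul_eq_mul] at h3
  have h4 : J.card ≤ k := by
    have := card_le_univ J
    rw [Fintype.card_fin] at this
    exact this
  have h5 : J.card * (a * A.card) ≤ k * (a * A.card) := Nat.mul_le_mul_right _ h4
  have h6 : k * (a * A.card) ≤ k * ∑ F ∈ A, (J.filter (S F)).card := Nat.mul_le_mul_left _ h2
  omega

open Classical in
private theorem Gr1_pick {α β : Type} (Y : Finset β) (A : Finset α) (N : α → β → Prop)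
    (hY : Y.Nonempty) (hN : ∀ F ∈ A, 2 * (Y.filter (N F)).card ≤ Y.card) :
    ∃ v ∈ Y, 2 * (A.filter (fun F => N F v)).card ≤ A.card := by
  by_contra hcon
  push Not at hcon
  have h1 : ∑ F ∈ A, (Y.filter (N F)).card = ∑ v ∈ Y, (A.filter (fun F => N F v)).card :=
    sum_card_bipartiteAbove_eq_sum_card_bipartiteBelow N
  have h2 : ∑ _v ∈ Y, A.card < ∑ v ∈ Y, 2 * (A.filter (fun F => N F v)).card :=
    sum_lt_sum_of_nonempty hY hcon
  have h3 : ∑ F ∈ A, 2 * (Y.filter (N F)).card ≤ ∑ _F ∈ A, Y.card := sum_le_sum hN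
  rw [← mul_sum, ← h1, sum_const, smul_eq_mul] at h2
  rw [← mul_sum, sum_const, smul_eq_mul] at h3
  have h4 : Y.card * A.card = A.card * Y.card := mul_comm _ _
  omega

open Classical in
theorem greedy_step {G : SimpleGraph V} {b : V → Fin k} {f T w s r a m : ℕ} {σ ρ d₂ μ : ℝ}
    {W : Finset V → Finset V} {B : ℕ → Finset V} {H : Finset V} (hE : Expan G b f T w σ W)
    (hH : HP G b W B s T r ρ d₂ μ H) (hσ : 0 < σ) (hρ : 0 < ρ) (hk : 0 < k) (ha : 0 < a)
    (hm : ∀ j, m ≤ (pt b univ j).card) (hm0 : 0 < m) (hroot : ∃ t < s, B t = univ)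
    (hmd : d₂ ≤ σ * m) (hmf : f ≤ m) (hμ : 64 * μ ≤ σ * m) (hrT : r ≤ T) (haT : a ≤ T)
    (z : Finset V) (hzH : z ⊆ H) (hz : TC G b z) (hzX : Disjoint z (ex G b W univ ∅))
    (hza : z.card < a) (A : Finset (ℕ × Finset V)) (hA : A.Nonempty)
    (hAs : ∀ F ∈ A, F.1 < s ∧ F.2.card ≤ r ∧ 2 * a < (Sm G b μ (B F.1) F.2).card) :
    ∃ v, v ∈ H ∧ v ∉ ex G b W univ ∅ ∧ TC G b (insert v z) ∧
      (((A.filter (fun F => b v ∉ F.2.image b → v ∈ nb G (B F.1) F.2)).card : ℕ) : ℝ) ≤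
        (1 - (a : ℝ) / (2 * k)) * A.card := by
  obtain ⟨t₀, ht₀, hBt⟩ := hroot
  -- the block
  obtain ⟨S, hS⟩ : ∃ S : ℕ × Finset V → Fin k → Prop,
      S = fun F j => j ∈ Sm G b μ (B F.1) F.2 := ⟨_, rfl⟩
  obtain ⟨N, hN⟩ : ∃ N : ℕ × Finset V → V → Prop,
      N = fun F v => v ∈ nb G (B F.1) F.2 := ⟨_, rfl⟩
  obtain ⟨j₀, hj₀, hav⟩ := Gr1_avg (univ \ z.image b) A S a ha hA
    (by
      intro F hF
      obtain ⟨-, -, h3⟩ := hAs F hF
      have h4 : (z.image b).card ≤ z.card := card_image_le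
      have h5 := le_card_sdiff (z.image b) (Sm G b μ (B F.1) F.2)
      have h6 : Sm G b μ (B F.1) F.2 \ z.image b ⊆ (univ \ z.image b).filter (S F) := by
        intro j hj
        rw [mem_sdiff] at hj
        rw [mem_filter, mem_sdiff, hS]
        exact ⟨⟨mem_univ _, hj.2⟩, hj.1⟩
      have h7 := card_le_card h6
      omega)
  rw [mem_sdiff] at hj₀
  obtain ⟨-, hjz⟩ := hj₀
  obtain ⟨A', hA'⟩ : ∃ A', A' = A.filter (fun F => S F j₀) := ⟨_, rfl⟩
  rw [← hA'] at hav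
  -- the candidates
  obtain ⟨X₀, hX₀⟩ : ∃ X₀, X₀ = ex G b W univ ∅ := ⟨_, rfl⟩
  obtain ⟨D, hD⟩ : ∃ D, D = nb G (pt b univ j₀) z := ⟨_, rfl⟩
  have hnb0 : nb G (pt b univ j₀) ∅ = pt b univ j₀ := by
    ext v
    rw [mem_nb]
    simp
  have hWX : W (pt b univ j₀) ⊆ X₀ := by
    have h1 := W_sub_ex G b W univ ∅ j₀
    rw [hnb0] at h1
    rw [hX₀]
    exact h1
  have hm' : (m : ℝ) ≤ ((pt b univ j₀).card : ℝ) := by exact_mod_cast hm j₀
  have hmpos : (0 : ℝ) < m := by exact_mod_cast hm0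
  have hDc : σ * m ≤ (D.card : ℝ) := by
    have h1 := hE.expan j₀ (pt b univ j₀) (fun v hv => (mem_pt.1 hv).2) (hmf.trans (hm j₀)) z
      (by omega) (by
        rw [hX₀] at hWX
        exact disjoint_of_subset_right hWX hzX)
      (fun v hv h => hjz (mem_image.2 ⟨v, hv, h⟩))
    rw [hD]
    exact (mul_le_mul_of_nonneg_left hm' hσ.le).trans h1
  have hDd : d₂ ≤ (D.card : ℝ) := hmd.trans hDc
  have hbig := hH.big t₀ ht₀ j₀ z (by omega) (by
    rw [hBt, ← hD]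
    exact hDd)
  have hexc := hH.exc t₀ ht₀ ∅ (by simp)
  rw [hBt, ← hD] at hbig
  rw [hBt, ← hX₀] at hexc
  obtain ⟨Y, hY⟩ : ∃ Y, Y = (H ∩ D) \ X₀ := ⟨_, rfl⟩
  have hYc : ρ * σ * m / 4 < (Y.card : ℝ) := by
    have h1 : (H ∩ D).card ≤ Y.card + (H ∩ X₀).card := by
      have h2 : H ∩ D ⊆ Y ∪ (H ∩ X₀) := by
        intro v hv
        rw [mem_union, hY, mem_sdiff, mem_inter]
        rw [mem_inter] at hv ⊢
        by_cases h : v ∈ X₀
        · exact Or.inr ⟨hv.1, h⟩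
        · exact Or.inl ⟨hv, h⟩
      exact (card_le_card h2).trans (card_union_le _ _)
    have h3 : ((H ∩ D).card : ℝ) ≤ Y.card + (H ∩ X₀).card := by exact_mod_cast h1
    have h4 : ρ * d₂ ≤ ρ * D.card := mul_le_mul_of_nonneg_left hDd hρ.le
    have h5 : ρ * (σ * m) ≤ ρ * D.card := mul_le_mul_of_nonneg_left hDc hρ.le
    nlinarith
  have hY0 : 0 < Y.card := by
    have h1 : (0 : ℝ) < ρ * σ * m / 4 := by positivity
    have h2 : (0 : ℝ) < (Y.card : ℝ) := h1.trans hYc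
    exact_mod_cast h2
  have hYm : ∀ v ∈ Y, v ∈ H ∧ v ∉ X₀ ∧ b v = j₀ ∧ ∀ u ∈ z, G.Adj u v := by
    intro v hv
    rw [hY, mem_sdiff, mem_inter, hD, mem_nb, mem_pt] at hv
    exact ⟨hv.1.1, hv.2, hv.1.2.1.2, hv.1.2.2⟩
  -- the vertex
  obtain ⟨v, hvY, hvA⟩ := Gr1_pick Y A' N (card_pos.1 hY0) (by
    intro F hF
    rw [hA', mem_filter, hS] at hF
    obtain ⟨hFA, hFj⟩ := hF
    obtain ⟨h1, h2, -⟩ := hAs F hFA
    have h3 := hH.small F.1 h1 j₀ F.2 (h2.trans hrT) (mem_Sm.1 hFj).2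
    have h4 : Y.filter (N F) ⊆ H ∩ nb G (pt b (B F.1) j₀) F.2 := by
      intro v hv
      rw [mem_filter, hN] at hv
      simp only [mem_nb] at hv
      obtain ⟨h5, -, h6, -⟩ := hYm v hv.1
      rw [mem_inter, mem_nb, mem_pt]
      exact ⟨h5, ⟨hv.2.1, h6⟩, hv.2.2⟩
    have h5 : ((Y.filter (N F)).card : ℝ) ≤ 8 * ρ * μ := by
      refine le_trans ?_ h3
      exact_mod_cast card_le_card h4
    have h6 : ρ * (64 * μ) ≤ ρ * (σ * m) := mul_le_mul_of_nonneg_left hμ hρ.le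
    have h7 : (2 * (Y.filter (N F)).card : ℝ) ≤ Y.card := by nlinarith
    exact_mod_cast h7)
  obtain ⟨hvH, hvX, hvj, hvz⟩ := hYm v hvY
  refine ⟨v, hvH, by rw [← hX₀]; exact hvX, ?_, ?_⟩
  · intro u hu u' hu' huu
    rw [mem_insert] at hu hu'
    rcases hu with rfl | hu
    · rcases hu' with rfl | hu'
      · exact absurd rfl huu
      · refine ⟨fun h => hjz ?_, (hvz u' hu').symm⟩
        rw [← hvj, h]
        exact mem_image_of_mem b hu'
    · rcases hu' with rfl | hu'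
      · refine ⟨fun h => hjz ?_, hvz u hu⟩
        rw [← hvj, ← h]
        exact mem_image_of_mem b hu
      · exact hz u hu u' hu' huu
  · have h1 : A.filter (fun F => b v ∉ F.2.image b → v ∈ nb G (B F.1) F.2) ⊆
        (A \ A') ∪ A'.filter (fun F => N F v) := by
      intro F hF
      rw [mem_filter] at hF
      rw [mem_union, mem_sdiff, mem_filter, hN]
      by_cases h : F ∈ A'
      · right
        refine ⟨h, hF.2 ?_⟩
        rw [hA', mem_filter, hS] at h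
        rw [hvj]
        exact (mem_Sm.1 h.2).1
      · exact Or.inl ⟨hF.1, h⟩
    have h2 := (card_le_card h1).trans (card_union_le _ _)
    have h3 : A' ⊆ A := by
      rw [hA']
      exact filter_subset _ _
    have h4 : (A \ A').card + A'.card = A.card := card_sdiff_add_card_eq_card h3
    have h5 : (((A.filter (fun F => b v ∉ F.2.image b → v ∈ nb G (B F.1) F.2)).card : ℕ) : ℝ) ≤
        (A \ A').card + (A'.filter (fun F => N F v)).card := by exact_mod_cast h2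
    have h6 : ((A \ A').card : ℝ) + A'.card = A.card := by exact_mod_cast h4
    have h7 : (2 : ℝ) * (A'.filter (fun F => N F v)).card ≤ A'.card := by
      exact_mod_cast hvA
    have h8 : (a : ℝ) * A.card ≤ k * A'.card := by exact_mod_cast hav
    have hk' : (0 : ℝ) < k := by exact_mod_cast hk
    have h9 : (a : ℝ) / (2 * k) * A.card ≤ A'.card / 2 := by
      rw [div_mul_eq_mul_div, div_le_div_iff₀ (by positivity) (by norm_num)]
      nlinarith
    linarith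

end Pool.Agent.H9.KR
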