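/-
ROW G2 (about 110 lines). The greedy choice.
PROOF. Let `F₀ = {(t, C) | t < s, C.card ≤ r, 2 a < (Sm G b μ (B t) C).card}` (a finset: filter of `range s ×ˢ univ.filter (·.card ≤ r)`), with
`|F₀| ≤ s (|V| + 1) ^ r` (card_small). For `z` let `N z = #{F ∈ F₀ | ∀ v ∈ z, b v ∉ F.2.image b → v ∈ nb G (B F.1) F.2}`.
Claim: for `i ≤ a` there is `z ⊆ H`, TC, disjoint from `ex G b W univ ∅`, `z.card ≤ i`, `N z ≤ s (|V| + 1) ^ r (1 - a / (2 k)) ^ i`. Induction: `i = 0`:
`z = ∅`. Step: if `N z = 0` keep `z`; otherwise greedy_step for the set `A` of alive `F` gives `v`; `insert v z` works: the alive `F` of `insert v z`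
are exactly the `F ∈ A` with `b v ∉ F.2.image b → v ∈ nb ..`. (`0 ≤ 1 - a / (2 k)` as `a ≤ k`.)
For `i = a`: `N z < 1` by hcount so `N z = 0`. This `z` is `zS`. large: for `j ∉ z.image b`, expan for `D = pt b univ j` (`|D| ≥ m ≥ f`,
`W D = W (nb G (pt b univ j) ∅) ⊆ ex G b W univ ∅`): `σ m ≤ σ |D| ≤ |nb G (pt b univ j) z|`. few: if `(t, C)` is alive and
`2 a < (Sm ..).card` then it is counted in `N z`, contradiction.
-/
import Pool.Agent.H9.KR.Gr1
import Pool.Agent.H9.KR.Ct

set_option autoImplicit false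
set_option linter.unusedSectionVars false

open Finset

namespace Pool.Agent.H9.KR

variable {V : Type} [Fintype V] [DecidableEq V] {k : ℕ}

theorem greedy {G : SimpleGraph V} {b : V → Fin k} {f T w s r a m : ℕ} {σ ρ d₂ μ : ℝ}
    {W : Finset V → Finset V} {B : ℕ → Finset V} {H : Finset V} (hE : Expan G b f T w σ W)
    (hH : HP G b W B s T r ρ d₂ μ H) (hσ : 0 < σ) (hρ : 0 < ρ) (hk : 0 < k) (ha : 0 < a)
    (hak : a ≤ k)
    (hm : ∀ j, m ≤ (pt b univ j).card) (hm0 : 0 < m) (hroot : ∃ t < s, B t = univ)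
    (hmd : d₂ ≤ σ * m) (hmf : f ≤ m) (hμ : 64 * μ ≤ σ * m) (hrT : r ≤ T) (haT : a ≤ T)
    (hcount : s * ((Fintype.card V : ℝ) + 1) ^ r * (1 - (a : ℝ) / (2 * k)) ^ a < 1) :
    ∃ zS, ZP G b B s r a μ (σ * m) H zS := by
  classical
  set F₀ : Finset (ℕ × Finset V) :=
    (range s ×ˢ (univ.filter (fun x : Finset V => x.card ≤ r))).filter
      (fun F => 2 * a < (Sm G b μ (B F.1) F.2).card) with hF₀
  have hF₀card : ((F₀.card : ℕ) : ℝ) ≤ s * ((Fintype.card V : ℝ) + 1) ^ r := by
    have h1 : F₀.card ≤ s * (Fintype.card V + 1) ^ r := by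
      refine (card_filter_le _ _).trans ?_
      rw [card_product, card_range]
      exact Nat.mul_le_mul_left _ (card_small r)
    exact_mod_cast h1
  have hkR : (0 : ℝ) < k := by exact_mod_cast hk
  have haR : (a : ℝ) ≤ k := by exact_mod_cast hak
  have hq0 : (0 : ℝ) ≤ 1 - (a : ℝ) / (2 * k) := by
    have : (a : ℝ) / (2 * k) ≤ 1 := by
      rw [div_le_one (by positivity)]
      linarith
    linarith
  have hNn : (0 : ℝ) ≤ s * ((Fintype.card V : ℝ) + 1) ^ r := by positivity
  have key : ∀ i : ℕ, i ≤ a → ∃ z : Finset V, z ⊆ H ∧ TC G b z ∧ Disjoint z (ex G b W univ ∅) ∧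
      z.card ≤ i ∧
      (((F₀.filter (fun F => ∀ v ∈ z, b v ∉ F.2.image b → v ∈ nb G (B F.1) F.2)).card : ℕ) : ℝ) ≤
        s * ((Fintype.card V : ℝ) + 1) ^ r * (1 - (a : ℝ) / (2 * k)) ^ i := by
    intro i
    induction i with
    | zero =>
      intro _
      refine ⟨∅, by simp, ?_, by simp, by simp, ?_⟩
      · intro u hu
        simp at hu
      · rw [pow_zero, mul_one]
        refine le_trans ?_ hF₀card
        exact_mod_cast card_filter_le _ _
    | succ i ih =>
      intro hi
      obtain ⟨z, hzH, hzT, hzX, hzc, hzN⟩ := ih (by omega)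
      set A := F₀.filter (fun F => ∀ v ∈ z, b v ∉ F.2.image b → v ∈ nb G (B F.1) F.2) with hA
      rcases A.eq_empty_or_nonempty with hA0 | hA1
      · refine ⟨z, hzH, hzT, hzX, by omega, ?_⟩
        rw [← hA, hA0]
        simp only [card_empty, Nat.cast_zero]
        positivity
      · obtain ⟨v, hvH, hvX, hvT, hvN⟩ := greedy_step hE hH hσ hρ hk ha hm hm0 hroot hmd hmf hμ hrT
          haT z hzH hzT hzX (by omega) A hA1 (by
            intro F hF
            have h1 := (mem_filter.1 hF).1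
            rw [hF₀, mem_filter, mem_product, mem_range, mem_filter] at h1
            exact ⟨h1.1.1, h1.1.2.2, h1.2⟩)
        refine ⟨insert v z, insert_subset hvH hzH, hvT, ?_, ?_, ?_⟩
        · rw [disjoint_insert_left]
          exact ⟨hvX, hzX⟩
        · have := card_insert_le v z
          omega
        · have h2 : F₀.filter (fun F => ∀ u ∈ insert v z, b u ∉ F.2.image b →
              u ∈ nb G (B F.1) F.2) ⊆
              A.filter (fun F => b v ∉ F.2.image b → v ∈ nb G (B F.1) F.2) := by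
            intro F hF
            rw [mem_filter] at hF ⊢
            refine ⟨?_, hF.2 v (mem_insert_self _ _)⟩
            rw [hA, mem_filter]
            exact ⟨hF.1, fun u hu => hF.2 u (mem_insert_of_mem hu)⟩
          have h3 : (((F₀.filter (fun F => ∀ u ∈ insert v z, b u ∉ F.2.image b →
              u ∈ nb G (B F.1) F.2)).card : ℕ) : ℝ) ≤
              ((A.filter (fun F => b v ∉ F.2.image b → v ∈ nb G (B F.1) F.2)).card : ℕ) := by
            exact_mod_cast card_le_card h2
          refine h3.trans ((le_of_eq ?_).trans (hvN.trans ?_))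
          · congr
          · calc (1 - (a : ℝ) / (2 * k)) * (A.card : ℝ)
                ≤ (1 - (a : ℝ) / (2 * k)) *
                  (s * ((Fintype.card V : ℝ) + 1) ^ r * (1 - (a : ℝ) / (2 * k)) ^ i) :=
                  mul_le_mul_of_nonneg_left hzN hq0
              _ = _ := by rw [pow_succ]; ring
  obtain ⟨z, hzH, hzT, hzX, hzc, hzN⟩ := key a le_rfl
  have hN0 : F₀.filter (fun F => ∀ v ∈ z, b v ∉ F.2.image b → v ∈ nb G (B F.1) F.2) = ∅ := by
    rw [← card_eq_zero]
    have h1 := hzN.trans_lt hcount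
    have h2 : (F₀.filter (fun F => ∀ v ∈ z, b v ∉ F.2.image b → v ∈ nb G (B F.1) F.2)).card < 1 := by
      exact_mod_cast h1
    omega
  refine ⟨z, hzH, hzT, hzc, ?_, ?_⟩
  · intro j hj
    have h1 : nb G (pt b univ j) ∅ = pt b univ j := by
      ext v
      simp [mem_nb]
    have h2 : W (pt b univ j) ⊆ ex G b W univ ∅ := by
      have := W_sub_ex G b W univ ∅ j
      rwa [h1] at this
    have h3 := hE.expan j (pt b univ j) (fun v hv => (mem_pt.1 hv).2) (hmf.trans (hm j)) z
      (hzc.trans haT) (disjoint_of_subset_right h2 hzX) (fun v hv hvj => hj (by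
        rw [mem_image]
        exact ⟨v, hv, hvj⟩))
    refine le_trans ?_ h3
    exact mul_le_mul_of_nonneg_left (by exact_mod_cast hm j) hσ.le
  · intro t ht C hC hal
    by_contra hcon
    push Not at hcon
    have h1 : ((t, C) : ℕ × Finset V) ∈
        F₀.filter (fun F => ∀ v ∈ z, b v ∉ F.2.image b → v ∈ nb G (B F.1) F.2) := by
      rw [mem_filter, hF₀, mem_filter, mem_product, mem_range, mem_filter]
      exact ⟨⟨⟨ht, mem_univ _, hC⟩, hcon⟩, hal⟩
    rw [hN0] at h1
    simp at h1

end Pool.Agent.H9.KR
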