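/-
ROW Hx (about 130 lines). Existence of the random set.
PROOF. `w' R = ρ ^ R.card * (1 - ρ) ^ (univ \ R).card`, `h = rsub_bernoulli ρ`. Bad events (`t < s`, `j : Fin k`, `x` with `x.card ≤ T`,
`D = nb G (pt b (B t) j) x`), `e = exp (-(ρ * d₂ / 8))`:
 E1 (t, j, x): `d₂ ≤ |D|` and `|H ∩ D| ≤ ρ |D| / 2`. `pr ≤ exp (-(ρ |D| / 8)) ≤ e` by `lower` with `I = D`, `A v = {v}`, `q = ρ`
   (`D.filter (fun v => {v} ⊆ H) = H ∩ D`).
 E2 (t, j, x): `|D| < μ` and `8 ρ μ < |H ∩ D|`: `pr ≤ exp (-(8 ρ μ)) ≤ e` by `upper` (`8 (ρ |D|) ≤ 8 ρ μ`; `d₂ ≤ μ`).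
 E3 (t, x): `ρ d₂ / 4 < |H ∩ ex G b W (B t) x|`: `pr ≤ exp (-(ρ d₂ / 4)) ≤ e` by `upper` (`8 ρ |ex| ≤ 8 ρ k w ≤ ρ d₂ / 4`, card_ex_le, hkw).
 E4 (t): there is a list of length `r`, nodup, contained in `H`, with `Sq`: `pr ≤ (k w ρ) ^ r` by `seq_pr`.
Number of the events: `s * k * N`, `s * k * N`, `s * N`, `s` with `N = #{x | x.card ≤ T} ≤ (|V| + 1) ^ T` (card_small); union bound
(pr_or_le, pr_exists_le_card over `range s ×ˢ univ ×ˢ univ.filter (·.card ≤ T)`). So the total is at most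
`3 s k (|V| + 1) ^ T e + s (k w ρ) ^ r < 1` (use `1 ≤ k`), and RSub.exists_not gives an `H` outside all bad events. big, small, exc are
immediate; seq: if `l` is nodup, in `H`, `Sq` and `r ≤ l.length`, then the suffix `l.drop (l.length - r)` has length `r`, is nodup, in `H`
and `Sq` (Sq of a cons gives Sq of the tail; induction), contradiction with E4.
-/
import Pool.Agent.H9.KR.Bern
import Pool.Agent.H9.KR.Up
import Pool.Agent.H9.KR.Lo
import Pool.Agent.H9.KR.Ct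

set_option autoImplicit false
set_option linter.unusedSectionVars false

open Finset

namespace Pool.Agent.H9.KR

variable {V : Type} [Fintype V] [DecidableEq V] {k : ℕ}

theorem Hex_pr_false {Ω : Type} [Fintype Ω] {w : Ω → ℝ} {P : Ω → Prop} (h : ∀ o, ¬ P o) :
    pr w P = 0 := by
  classical
  unfold pr
  exact Finset.sum_eq_zero fun o _ => if_neg (h o)

theorem Hex_drop (G : SimpleGraph V) (b : V → Fin k) (W : Finset V → Finset V) (B : Finset V)
    (n : ℕ) : ∀ l : List V, Sq G b W B l → Sq G b W B (l.drop n) := by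
  induction n with
  | zero => intro l h; exact h
  | succ n ih =>
    intro l h
    cases l with
    | nil => exact h
    | cons v l => exact ih l h.2

theorem Hex_E1 {w' : Finset V → ℝ} {ρ : ℝ} (h : RSub w' (fun H => H) univ ρ) (hρ0 : 0 < ρ)
    (hρ1 : ρ ≤ 1) (d₂ : ℝ) (D : Finset V) :
    pr w' (fun H => d₂ ≤ (D.card : ℝ) ∧ ((H ∩ D).card : ℝ) ≤ ρ * D.card / 2) ≤
      Real.exp (-(ρ * d₂ / 8)) := by
  classical
  by_cases hD : d₂ ≤ (D.card : ℝ)
  · have h1 := lower h hρ0.le hρ1 D (fun v => ({v} : Finset V)) (fun _ _ => subset_univ _)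
      (fun i _ j _ hij => disjoint_singleton.2 hij) ρ hρ0.le
      (fun i _ => by rw [card_singleton, pow_one]) (ρ * D.card / 2) le_rfl
    refine (pr_mono h.nonneg ?_).trans (h1.trans ?_)
    · rintro H ⟨-, hH⟩
      refine le_trans (le_of_eq ?_) hH
      congr 2
      ext v
      simp only [mem_filter, singleton_subset_iff, mem_inter]
      exact and_comm
    · refine Real.exp_le_exp.2 (neg_le_neg ?_)
      have := mul_le_mul_of_nonneg_left hD hρ0.le
      linarith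
  · rw [Hex_pr_false (fun H hH => hD hH.1)]
    exact (Real.exp_pos _).le

theorem Hex_E2 {w' : Finset V → ℝ} {ρ : ℝ} (h : RSub w' (fun H => H) univ ρ) (hρ0 : 0 < ρ)
    (d₂ μ : ℝ) (hd : 0 < d₂) (hμ : d₂ ≤ μ) (D : Finset V) :
    pr w' (fun H => (D.card : ℝ) < μ ∧ 8 * ρ * μ < ((H ∩ D).card : ℝ)) ≤
      Real.exp (-(ρ * d₂ / 8)) := by
  by_cases hD : (D.card : ℝ) < μ
  · have hμ0 : 0 < μ := hd.trans_le hμ
    have h1 := upper h hρ0.le D (subset_univ _) (8 * ρ * μ) (by positivity)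
      (by nlinarith)
    refine (pr_mono h.nonneg ?_).trans (h1.trans ?_)
    · rintro H ⟨-, hH⟩
      exact hH.le
    · refine Real.exp_le_exp.2 (neg_le_neg ?_)
      have h2 := mul_le_mul_of_nonneg_left hμ hρ0.le
      have h3 := mul_pos hρ0 hd
      linarith
  · rw [Hex_pr_false (fun H hH => hD hH.1)]
    exact (Real.exp_pos _).le

theorem Hex_E3 {w' : Finset V → ℝ} {ρ : ℝ} (h : RSub w' (fun H => H) univ ρ) (hρ0 : 0 < ρ)
    (d₂ : ℝ) (hd : 0 < d₂) (D : Finset V) (hD : 32 * (D.card : ℝ) ≤ d₂) :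
    pr w' (fun H => ρ * d₂ / 4 < ((H ∩ D).card : ℝ)) ≤ Real.exp (-(ρ * d₂ / 8)) := by
  have h1 := upper h hρ0.le D (subset_univ _) (ρ * d₂ / 4) (by positivity)
    (by nlinarith)
  refine (pr_mono h.nonneg fun H hH => hH.le).trans (h1.trans ?_)
  refine Real.exp_le_exp.2 (neg_le_neg ?_)
  have h3 := mul_pos hρ0 hd
  linarith

theorem exists_H (G : SimpleGraph V) (b : V → Fin k) (W : Finset V → Finset V) (w : ℕ)
    (hW : ∀ D, (W D).card ≤ w) (B : ℕ → Finset V) (s T r : ℕ) (ρ d₂ μ : ℝ)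
    (hk : 1 ≤ k) (hρ0 : 0 < ρ) (hρ1 : ρ ≤ 1) (hd : 0 < d₂) (hμ : d₂ ≤ μ)
    (hkw : 32 * (k * w : ℝ) ≤ d₂)
    (hcount : 3 * s * k * ((Fintype.card V : ℝ) + 1) ^ T * Real.exp (-(ρ * d₂ / 8)) +
      s * (k * w * ρ) ^ r < 1) :
    ∃ H : Finset V, HP G b W B s T r ρ d₂ μ H := by
  classical
  have h := rsub_bernoulli (E := V) ρ hρ0.le hρ1
  set w' : Finset V → ℝ := fun R : Finset V => ρ ^ R.card * (1 - ρ) ^ (univ \ R).card with hw'
  set e : ℝ := Real.exp (-(ρ * d₂ / 8)) with he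
  have he0 : 0 < e := Real.exp_pos _
  set Sx : Finset (Finset V) := univ.filter (fun x => x.card ≤ T) with hSx
  have hN : (Sx.card : ℝ) ≤ ((Fintype.card V : ℝ) + 1) ^ T := by
    have := card_small (V := V) T
    exact_mod_cast this
  let I1 : Finset (ℕ × Fin k × Finset V) := range s ×ˢ (univ : Finset (Fin k)) ×ˢ Sx
  let I3 : Finset (ℕ × Finset V) := range s ×ˢ Sx
  let DD : ℕ × Fin k × Finset V → Finset V := fun i => nb G (pt b (B i.1) i.2.1) i.2.2
  let E1 : ℕ × Fin k × Finset V → Finset V → Prop := fun i H =>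
    d₂ ≤ ((DD i).card : ℝ) ∧ ((H ∩ DD i).card : ℝ) ≤ ρ * (DD i).card / 2
  let E2 : ℕ × Fin k × Finset V → Finset V → Prop := fun i H =>
    ((DD i).card : ℝ) < μ ∧ 8 * ρ * μ < ((H ∩ DD i).card : ℝ)
  let E3 : ℕ × Finset V → Finset V → Prop := fun i H =>
    ρ * d₂ / 4 < ((H ∩ ex G b W (B i.1) i.2).card : ℝ)
  let E4 : ℕ → Finset V → Prop := fun t H =>
    ∃ l : List V, l.length = r ∧ l.Nodup ∧ (∀ v ∈ l, v ∈ H) ∧ Sq G b W (B t) l
  have p1 : pr w' (fun H => ∃ i ∈ I1, E1 i H) ≤ I1.card * e :=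
    pr_exists_le_card h.nonneg I1 E1 e fun i _ => Hex_E1 h hρ0 hρ1 d₂ (DD i)
  have p2 : pr w' (fun H => ∃ i ∈ I1, E2 i H) ≤ I1.card * e :=
    pr_exists_le_card h.nonneg I1 E2 e fun i _ => Hex_E2 h hρ0 d₂ μ hd hμ (DD i)
  have p3 : pr w' (fun H => ∃ i ∈ I3, E3 i H) ≤ I3.card * e := by
    refine pr_exists_le_card h.nonneg I3 E3 e fun i _ => ?_
    refine Hex_E3 h hρ0 d₂ hd (ex G b W (B i.1) i.2) ?_
    have h1 : ((ex G b W (B i.1) i.2).card : ℝ) ≤ k * w := by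
      exact_mod_cast card_ex_le hW (B i.1) i.2
    linarith
  have p4 : pr w' (fun H => ∃ t ∈ range s, E4 t H) ≤ (range s).card * (k * w * ρ) ^ r :=
    pr_exists_le_card h.nonneg (range s) E4 _ fun t _ => seq_pr h hρ0.le G b W w hW (B t) r
  have c1 : (I1.card : ℝ) = s * (k * Sx.card) := by
    have : I1.card = s * (k * Sx.card) := by
      rw [card_product, card_product, card_range, card_univ, Fintype.card_fin]
    exact_mod_cast this
  have c3 : (I3.card : ℝ) = s * Sx.card := by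
    have : I3.card = s * Sx.card := by
      rw [card_product, card_range]
    exact_mod_cast this
  rw [card_range] at p4
  have hk' : (1 : ℝ) ≤ k := by exact_mod_cast hk
  have hs0 : (0 : ℝ) ≤ s := Nat.cast_nonneg _
  have hN0 : (0 : ℝ) ≤ Sx.card := Nat.cast_nonneg _
  have hbad : pr w' (fun H => (∃ i ∈ I1, E1 i H) ∨ (∃ i ∈ I1, E2 i H) ∨ (∃ i ∈ I3, E3 i H) ∨
      ∃ t ∈ range s, E4 t H) < 1 := by
    have q1 := pr_or_le h.nonneg (fun H => ∃ i ∈ I1, E1 i H) (fun H => (∃ i ∈ I1, E2 i H) ∨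
      (∃ i ∈ I3, E3 i H) ∨ ∃ t ∈ range s, E4 t H)
    have q2 := pr_or_le h.nonneg (fun H => ∃ i ∈ I1, E2 i H) (fun H =>
      (∃ i ∈ I3, E3 i H) ∨ ∃ t ∈ range s, E4 t H)
    have q3 := pr_or_le h.nonneg (fun H => ∃ i ∈ I3, E3 i H) (fun H => ∃ t ∈ range s, E4 t H)
    rw [c1] at p1 p2
    rw [c3] at p3
    have q4 : s * (k * Sx.card) * e + s * (k * Sx.card) * e + s * Sx.card * e ≤
        3 * s * k * ((Fintype.card V : ℝ) + 1) ^ T * e := by
      have r1 : (s : ℝ) * Sx.card * e ≤ s * (k * Sx.card) * e := by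
        refine mul_le_mul_of_nonneg_right ?_ he0.le
        refine mul_le_mul_of_nonneg_left ?_ hs0
        nlinarith
      have r2 : (s : ℝ) * (k * Sx.card) * e ≤ s * (k * ((Fintype.card V : ℝ) + 1) ^ T) * e := by
        refine mul_le_mul_of_nonneg_right ?_ he0.le
        refine mul_le_mul_of_nonneg_left ?_ hs0
        exact mul_le_mul_of_nonneg_left hN (by linarith)
      nlinarith
    linarith
  obtain ⟨H, hH⟩ := h.exists_not _ hbad
  rw [not_or, not_or, not_or] at hH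
  obtain ⟨n1, n2, n3, n4⟩ := hH
  refine ⟨H, ?_, ?_, ?_, ?_⟩
  · intro t ht j x hx hd2
    by_contra hcon
    refine n1 ⟨(t, j, x), ?_, hd2, not_lt.1 hcon⟩
    exact mem_product.2 ⟨mem_range.2 ht, mem_product.2 ⟨mem_univ _,
      mem_filter.2 ⟨mem_univ _, hx⟩⟩⟩
  · intro t ht j x hx hlt
    by_contra hcon
    refine n2 ⟨(t, j, x), ?_, hlt, not_le.1 hcon⟩
    exact mem_product.2 ⟨mem_range.2 ht, mem_product.2 ⟨mem_univ _,
      mem_filter.2 ⟨mem_univ _, hx⟩⟩⟩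
  · intro t ht x hx
    by_contra hcon
    refine n3 ⟨(t, x), ?_, not_le.1 hcon⟩
    exact mem_product.2 ⟨mem_range.2 ht, mem_filter.2 ⟨mem_univ _, hx⟩⟩
  · intro t ht l hnd hl hSq
    by_contra hcon
    have hlen : r ≤ l.length := not_lt.1 hcon
    refine n4 ⟨t, mem_range.2 ht, l.drop (l.length - r), ?_, ?_, ?_, ?_⟩
    · rw [List.length_drop]
      omega
    · exact hnd.sublist (List.drop_sublist _ _)
    · intro v hv
      exact hl v (List.mem_of_mem_drop hv)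
    · exact Hex_drop G b W (B t) _ l hSq

end Pool.Agent.H9.KR
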