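/-
ROW Co (about 160 lines). The deterministic theorem.
(1) extend: if `Good G b B (3 a + r) (σ μ) H zS t` (with the set `x`), `t < s`, and `Q` is a set of at most `M` blocks, then there is `x₁ ⊇ x` with `x₁ ⊆ H`,
 `x₁ ⊆ B t`, TC, `x₁.card ≤ 3 a + r + M`, `Q ⊆ x₁.image b`, `σ ^ 2 μ ≤ |nb G (pt b (B t) j) x₁|` for `j ∉ x₁.image b`. PROOF. `commit` for
 `Q \ x.image b`, `d₀ = σ μ` (`f ≤ σ ^ 2 μ ≤ σ μ`, `d₂ ≤ σ ^ 3 μ ≤ σ (σ μ)`), `U = ∅`; `x₁ = x ∪ y`; `σ d₀ = σ ^ 2 μ`.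
(2) full: for such `x₁` there is `z : Fin k → V` with `In b (B t) z` and `z j ∈ x₁` for `j ∈ x₁.image b`: for other `j` the set
 `nb G (pt b (B t) j) x₁` has at least `σ ^ 2 μ > 0` elements. And `v ∈ x₁ → z (b v) = v` by TC. So `z i, z j` are adjacent for
 `i ≠ j` in `x₁.image b`.
(3) no leaf: (1), (2) for the set `Q` of the leaf give `z` in `B t` with all pairs of `Q` adjacent, contradiction.
(4) step: `B t` covered by the boxes of `P`, `P.card ≤ M`: `cover` gives `P' ⊆ P`, `J` with `J.card ≤ P'.card ≤ M`. (1) with `Q = J`, (2) gives `z`;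
 `z` is in `B q` for some `q ∈ P'`. `x₁ ⊆ B q` as every `v ∈ x₁` is `z (b v)`. For `j ∉ x₁.image b`: `j ∉ J`, so
 `pt b (B t) j ⊆ pt b (B q) j` and the count for `B q` is at least `σ ^ 2 μ` (nb_mono, card_le_card). `restore` gives `Good .. q`.
(5) root: `Good .. t` if `B t = univ`: `x = zS` (`σ μ ≤ σ m`: `64 μ ≤ σ m`, `μ > 0` (from `0 < d₂ ≤ σ ^ 3 μ`), so `μ ≤ σ m ≤ m`).
(6) core: H from exists_H (`d₂ ≤ σ ^ 3 μ ≤ μ`), `zS` from greedy (`d₂ ≤ σ ^ 3 μ ≤ σ m`, `f ≤ σ ^ 2 μ ≤ μ ≤ m`, `m > 0`). By strong induction on `t`,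
 no `t < s` is Good: contradiction with (5).
-/
import Pool.Agent.H9.KR.Hex
import Pool.Agent.H9.KR.Com
import Pool.Agent.H9.KR.Gr2
import Pool.Agent.H9.KR.Rst
import Pool.Agent.H9.KR.Cov

set_option autoImplicit false
set_option linter.unusedSectionVars false

open Finset

namespace Pool.Agent.H9.KR

variable {V : Type} [Fintype V] [DecidableEq V] {k : ℕ}

/-- every set `x₁` with large neighbourhoods is contained in a point of the box -/
lemma core_full {G : SimpleGraph V} {b : V → Fin k} {B' : Finset V} {e : ℝ} (he : 0 < e)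
    (x₁ : Finset V) (hxB : x₁ ⊆ B') (hx : TC G b x₁)
    (hd : ∀ j, j ∉ x₁.image b → e ≤ ((nb G (pt b B' j) x₁).card : ℝ)) :
    ∃ z : Fin k → V, In b B' z ∧ ∀ v ∈ x₁, z (b v) = v := by
  have h1 : ∀ j : Fin k, ∃ v : V, (b v = j ∧ v ∈ B') ∧ (j ∈ x₁.image b → v ∈ x₁) := by
    intro j
    by_cases hj : j ∈ x₁.image b
    · obtain ⟨v, hv, hvj⟩ := mem_image.1 hj
      exact ⟨v, ⟨hvj, hxB hv⟩, fun _ => hv⟩
    · have h2 := hd j hj
      have h3 : 0 < (nb G (pt b B' j) x₁).card := by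
        have : (0 : ℝ) < ((nb G (pt b B' j) x₁).card : ℝ) := lt_of_lt_of_le he h2
        exact_mod_cast this
      obtain ⟨v, hv⟩ := card_pos.1 h3
      have h4 := mem_pt.1 (nb_sub G _ _ hv)
      exact ⟨v, ⟨h4.2, h4.1⟩, fun h => absurd h hj⟩
  choose z hz1 hz2 using h1
  refine ⟨z, hz1, ?_⟩
  intro v hv
  by_contra hne
  have h2 := hz2 (b v) (mem_image_of_mem b hv)
  exact (hx _ h2 _ hv hne).1 (hz1 (b v)).1

/-- extension of a good position by a set of blocks -/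
lemma core_extend {G : SimpleGraph V} {b : V → Fin k} {n m f T w s r a M : ℕ} {σ ρ μ d₂ : ℝ}
    {W : Finset V → Finset V} {B : ℕ → Finset V} {H zS : Finset V}
    (hP : Par n m k f T w s r a M σ ρ μ d₂) (hE : Expan G b f T w σ W)
    (hH : HP G b W B s T r ρ d₂ μ H) (hμ : 0 < μ) {t : ℕ} (ht : t < s)
    (hG : Good G b B (3 * a + r) (σ * μ) H zS t) (Q : Finset (Fin k)) (hQ : Q.card ≤ M) :
    ∃ x₁ : Finset V, x₁ ⊆ H ∧ x₁ ⊆ B t ∧ TC G b x₁ ∧ zS ⊆ x₁ ∧ x₁.card ≤ 3 * a + r + M ∧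
      Q ⊆ x₁.image b ∧
      ∀ j, j ∉ x₁.image b → σ ^ 2 * μ ≤ ((nb G (pt b (B t) j) x₁).card : ℝ) := by
  obtain ⟨x, hxH, hxB, hx, hzx, hxc, hd⟩ := hG
  have hσ := hP.σ_pos
  have hσ1 := hP.σ_le
  have e1 : σ ^ 2 * μ ≤ σ * μ := by
    have : σ * (σ * μ) ≤ 1 * (σ * μ) := mul_le_mul_of_nonneg_right hσ1 (by positivity)
    nlinarith
  have e2 : σ ^ 3 * μ ≤ σ * (σ * μ) := by
    have : σ * (σ ^ 2 * μ) ≤ 1 * (σ ^ 2 * μ) := mul_le_mul_of_nonneg_right hσ1 (by positivity)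
    nlinarith
  have hQ'c : (Q \ x.image b).card ≤ M := (card_le_card sdiff_subset).trans hQ
  obtain ⟨y, hyH, hyB, _, hyQ, hyc, hxy, hdy⟩ := commit hE hH hσ hP.ρ_pos ht x hx (σ * μ) hd
    (hP.f_le.trans e1) (hP.d₂_le.trans e2) (Q \ x.image b)
    (fun j hj => (mem_sdiff.1 hj).2) (by
      have := hP.T_le
      omega) ∅ (by
      rw [inter_empty, card_empty, Nat.cast_zero]
      have h1 := hP.ρ_pos
      have h2 := hP.d₂_pos
      positivity)
  refine ⟨x ∪ y, union_subset hxH hyH, union_subset hxB hyB, hxy,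
    hzx.trans subset_union_left, ?_, ?_, ?_⟩
  · have := card_union_le x y
    omega
  · intro j hj
    by_cases h : j ∈ x.image b
    · exact image_subset_image subset_union_left h
    · refine image_subset_image subset_union_right ?_
      rw [hyQ]
      exact mem_sdiff.2 ⟨hj, h⟩
  · intro j hj
    have h1 := hdy j hj
    have h2 : σ * (σ * μ) = σ ^ 2 * μ := by ring
    rwa [h2] at h1

theorem core {G : SimpleGraph V} {b : V → Fin k} {m f T w s r a M : ℕ} {σ ρ μ d₂ : ℝ}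
    {W : Finset V → Finset V} (hP : Par (Fintype.card V) m k f T w s r a M σ ρ μ d₂)
    (hE : Expan G b f T w σ W) (hm : ∀ j, m ≤ (pt b univ j).card) (B : ℕ → Finset V) :
    ¬ BoxRef G b M s B := by
  rintro ⟨hR, hroot⟩
  have hσ := hP.σ_pos
  have hσ1 := hP.σ_le
  have hμ : 0 < μ := by
    have h1 := hP.d₂_pos
    have h2 := hP.d₂_le
    by_contra hcon
    rw [not_lt] at hcon
    have h3 : σ ^ 3 * μ ≤ 0 := mul_nonpos_of_nonneg_of_nonpos (by positivity) hcon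
    linarith
  have e1 : σ * μ ≤ μ := by
    have := mul_le_mul_of_nonneg_right hσ1 hμ.le
    linarith
  have e2 : σ ^ 2 * μ ≤ σ * μ := by
    have : σ * (σ * μ) ≤ 1 * (σ * μ) := mul_le_mul_of_nonneg_right hσ1 (by positivity)
    nlinarith
  have e3 : σ ^ 3 * μ ≤ σ ^ 2 * μ := by
    have : σ * (σ ^ 2 * μ) ≤ 1 * (σ ^ 2 * μ) := mul_le_mul_of_nonneg_right hσ1 (by positivity)
    nlinarith
  have hσm : 64 * μ ≤ σ * m := hP.μ_le
  have hm0r : (0 : ℝ) < m := by
    by_contra hcon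
    rw [not_lt] at hcon
    have h3 : σ * (m : ℝ) ≤ 0 := mul_nonpos_of_nonneg_of_nonpos hσ.le hcon
    linarith
  have hm0 : 0 < m := by exact_mod_cast hm0r
  have hσm1 : σ * (m : ℝ) ≤ m := by
    have := mul_le_mul_of_nonneg_right hσ1 hm0r.le
    linarith
  have hT := hP.T_le
  obtain ⟨H, hH⟩ := exists_H G b W w hE.card_le B s T r ρ d₂ μ hP.k_pos hP.ρ_pos hP.ρ_le
    hP.d₂_pos (by linarith [hP.d₂_le]) hP.kw_le hP.count₁
  obtain ⟨zS, hZ⟩ := greedy hE hH hσ hP.ρ_pos hP.k_pos hP.a_pos hP.a_le hm hm0 hroot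
    (by linarith [hP.d₂_le]) (by
      have h1 : (f : ℝ) ≤ m := by linarith [hP.f_le]
      exact_mod_cast h1) hσm (by omega) (by omega) hP.count₂
  have key : ∀ t, t < s → ¬ Good G b B (3 * a + r) (σ * μ) H zS t := by
    intro t
    induction t using Nat.strong_induction_on with
    | _ t ih =>
    intro ht hG
    rcases hR t ht with ⟨Q, hQc, hQ⟩ | ⟨P, hPc, hPt, hcov⟩
    · obtain ⟨x₁, _, hxB, hx, _, _, hQx, hd⟩ := core_extend hP hE hH hμ ht hG Q hQc
      obtain ⟨z, hz, hzx⟩ := core_full (by positivity) x₁ hxB hx hd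
      obtain ⟨i, hi, j, hj, hij, hna⟩ := hQ z hz
      obtain ⟨u, hu, hui⟩ := mem_image.1 (hQx hi)
      obtain ⟨v, hv, hvj⟩ := mem_image.1 (hQx hj)
      have h1 : z i = u := by rw [← hui]; exact hzx u hu
      have h2 : z j = v := by rw [← hvj]; exact hzx v hv
      rw [h1, h2] at hna
      refine hna (hx u hu v hv ?_).2
      intro h
      exact hij (by rw [← hui, ← hvj, h])
    · obtain ⟨P', hP'P, J, hJc, hcov', hJ⟩ := cover b (B t) P B hcov
      have hJM : J.card ≤ M := hJc.trans ((card_le_card hP'P).trans hPc)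
      obtain ⟨x₁, hxH, hxB, hx, hzSx, hxc, hJx, hd⟩ := core_extend hP hE hH hμ ht hG J hJM
      obtain ⟨z, hz, hzx⟩ := core_full (by positivity) x₁ hxB hx hd
      obtain ⟨q, hq, hzq⟩ := hcov' z hz
      have hqt : q < t := hPt q (hP'P hq)
      have hxq : x₁ ⊆ B q := by
        intro v hv
        have := (hzq (b v)).2
        rwa [hzx v hv] at this
      have hdq : ∀ j, j ∉ x₁.image b → σ ^ 2 * μ ≤ ((nb G (pt b (B q) j) x₁).card : ℝ) := by
        intro j hj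
        have hjJ : j ∉ J := fun h => hj (hJx h)
        have hsub : pt b (B t) j ⊆ pt b (B q) j := by
          intro v hv
          exact mem_pt.2 ⟨hJ q hq j hjJ hv, (mem_pt.1 hv).2⟩
        refine (hd j hj).trans ?_
        exact_mod_cast card_le_card (nb_mono G hsub (Subset.refl x₁))
      exact ih q hqt (hqt.trans ht)
        (restore hP hE hH hZ (hqt.trans ht) x₁ hxH hxq hx hzSx hxc hdq)
  obtain ⟨t, ht, hBt⟩ := hroot
  refine key t ht ⟨zS, hZ.sub, ?_, hZ.tc, Subset.refl _, ?_, ?_⟩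
  · rw [hBt]
    exact subset_univ _
  · have := hZ.card_le
    omega
  · intro j hj
    rw [hBt]
    refine le_trans ?_ (hZ.large j hj)
    linarith

end Pool.Agent.H9.KR
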