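/-
Forgetting: restoring a good position, with local predicates.
-/
import Pool.Agent.H9.KR.Cmt2
import Pool.Agent.H9.KR.Rst
import Pool.Agent.H9.KR.D2

set_option autoImplicit false
set_option linter.unusedSectionVars false

open Finset

namespace Pool.Agent.H9.KR

variable {V : Type} [Fintype V] [DecidableEq V] {k : ℕ}

theorem restore2 {G : SimpleGraph V} {b : V → Fin k} {n m f T w s r a M D : ℕ} {σ ρ μ d₂ d : ℝ}
    {W : Finset V → Finset V} {B : ℕ → Finset V} {H zS : Finset V}
    {φ : ℕ → (Fin k → V) → Prop} (hP : Par n m k f T w s r a M σ ρ μ d₂)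
    (hE : Expan G b f T w σ W)
    (hH : HP G b W B s T r ρ d₂ μ H) (hZ : ZP G b B s r a μ d H zS) {t : ℕ} (ht : t < s)
    (Qt : Finset (Fin k)) (hQt : Qt.card ≤ D) (hDM : D ≤ M) (hloc : Loc Qt (φ t))
    (x : Finset V) (hxH : x ⊆ H) (hxB : x ⊆ B t) (hx : TC G b x) (hzx : zS ⊆ x)
    (hxc : x.card ≤ 3 * a + r + M + M) (hQx : Qt ⊆ x.image b)
    (z₀ : Fin k → V) (hz₀ : ∀ v ∈ x, z₀ (b v) = v) (hφ : φ t z₀)
    (hd : ∀ j, j ∉ x.image b → σ ^ 2 * μ ≤ ((nb G (pt b (B t) j) x).card : ℝ)) :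
    Good2 G b B φ (3 * a + r + D) (σ * μ) H zS t := by
  have hσ := hP.σ_pos
  have hσ1 := hP.σ_le
  have hf := hP.f_le
  have hf0 : (0 : ℝ) < f := by exact_mod_cast hP.f_pos
  have hμ : 0 < μ := by
    have h1 : 0 < σ ^ 2 * μ := lt_of_lt_of_le hf0 hf
    exact (mul_pos_iff_of_pos_left (by positivity)).1 h1
  have hfμ : (f : ℝ) ≤ μ := by
    have h1 : σ ^ 2 * μ ≤ 1 * μ := mul_le_mul_of_nonneg_right (pow_le_one₀ hσ.le hσ1) hμ.le
    linarith
  have hT := hP.T_le
  obtain ⟨C, hCx, hCr, hdis⟩ := maxC hH ht x hxH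
  obtain ⟨S', hS'⟩ : ∃ S' : Finset (Fin k), S' = Sm G b μ (B t) C := ⟨_, rfl⟩
  have hfew : S'.card ≤ 2 * a := by
    rw [hS']
    refine hZ.few t ht C hCr.le fun v hv hvC => ?_
    have hvx := hzx hv
    refine mem_nb.2 ⟨hxB hvx, fun u hu => ?_⟩
    have huv : u ≠ v := by
      rintro rfl
      exact hvC (Finset.mem_image_of_mem b hu)
    exact (hx u (hCx hu) v hvx huv).2
  have hQc : (S' \ x.image b).card ≤ 2 * a := (Finset.card_le_card Finset.sdiff_subset).trans hfew
  obtain ⟨y, hyH, hyB, hyU, hyQ, hyc, hTC, -⟩ := commit hE hH hσ hP.ρ_pos ht x hx (σ ^ 2 * μ) hd hf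
    (by
      have h1 := hP.d₂_le
      have h2 : σ ^ 3 * μ = σ * (σ ^ 2 * μ) := by ring
      linarith) (S' \ x.image b) (fun j hj => (Finset.mem_sdiff.1 hj).2) (by omega)
    (ex G b W (B t) C) (hH.exc t ht C (by omega))
  obtain ⟨x', hx'⟩ : ∃ x' : Finset V, x' = (x ∪ y).filter
    (fun v => v ∈ zS ∨ v ∈ C ∨ b v ∈ S' ∨ b v ∈ Qt) := ⟨_, rfl⟩
  have hx'sub : x' ⊆ x ∪ y := by rw [hx']; exact Finset.filter_subset _ _
  have hCx' : C ⊆ x' := by
    intro v hv
    rw [hx', Finset.mem_filter]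
    exact ⟨Finset.mem_union_left _ (hCx hv), Or.inr (Or.inl hv)⟩
  have hinj : ∀ R : Finset (Fin k), ((x ∪ y).filter (fun v => b v ∈ R)).card ≤ R.card := by
    intro R
    refine Finset.card_le_card_of_injOn b (fun v hv => ?_) ?_
    · exact (Finset.mem_filter.1 hv).2
    · intro u hu v hv huv
      by_contra hne
      exact (hTC u (Finset.mem_filter.1 hu).1 v (Finset.mem_filter.1 hv).1 hne).1 huv
  have hcard : x'.card ≤ 3 * a + r + D := by
    have h1 : x' ⊆ ((zS ∪ C) ∪ (x ∪ y).filter (fun v => b v ∈ S')) ∪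
        (x ∪ y).filter (fun v => b v ∈ Qt) := by
      intro v hv
      rw [hx', Finset.mem_filter] at hv
      rcases hv.2 with h | h | h | h
      · exact Finset.mem_union_left _ (Finset.mem_union_left _ (Finset.mem_union_left _ h))
      · exact Finset.mem_union_left _ (Finset.mem_union_left _ (Finset.mem_union_right _ h))
      · exact Finset.mem_union_left _
          (Finset.mem_union_right _ (Finset.mem_filter.2 ⟨hv.1, h⟩))
      · exact Finset.mem_union_right _ (Finset.mem_filter.2 ⟨hv.1, h⟩)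
    have h2 := hinj S'
    have h2' := hinj Qt
    have h3 := (Finset.card_le_card h1).trans (Finset.card_union_le _ _)
    have h3' := Finset.card_union_le (zS ∪ C) ((x ∪ y).filter (fun v => b v ∈ S'))
    have h4 := Finset.card_union_le zS C
    have h5 := hZ.card_le
    omega
  refine ⟨x', ?_, ?_, hTC.mono hx'sub, ?_, hcard, ?_, ?_⟩
  · exact hx'sub.trans (Finset.union_subset hxH hyH)
  · exact hx'sub.trans (Finset.union_subset hxB hyB)
  · intro v hv
    rw [hx', Finset.mem_filter]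
    exact ⟨Finset.mem_union_left _ (hzx hv), Or.inl hv⟩
  · intro z hz
    refine (hloc z z₀ fun j hj => ?_).2 hφ
    obtain ⟨v, hv, hvj⟩ := mem_image.1 (hQx hj)
    have hvx' : v ∈ x' := by
      rw [hx', Finset.mem_filter]
      exact ⟨Finset.mem_union_left _ hv, Or.inr (Or.inr (Or.inr (by rw [hvj]; exact hj)))⟩
    rw [← hvj, hz v hvx', hz₀ v hv]
  · intro j hj
    have hjS : j ∉ S' := by
      intro hjS
      have h1 : j ∈ (x ∪ y).image b := by
        by_cases h2 : j ∈ x.image b
        · exact Finset.image_subset_image Finset.subset_union_left h2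
        · have h3 : j ∈ y.image b := by
            rw [hyQ]
            exact Finset.mem_sdiff.2 ⟨hjS, h2⟩
          exact Finset.image_subset_image Finset.subset_union_right h3
      obtain ⟨v, hv, hbv⟩ := Finset.mem_image.1 h1
      apply hj
      rw [← hbv]
      refine Finset.mem_image_of_mem b ?_
      rw [hx', Finset.mem_filter]
      exact ⟨hv, Or.inr (Or.inr (Or.inl (by rw [hbv]; exact hjS)))⟩
    have hjC : j ∉ C.image b := fun h => hj (Finset.image_subset_image hCx' h)
    have hD : μ ≤ ((nb G (pt b (B t) j) C).card : ℝ) := by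
      by_contra h1
      apply hjS
      rw [hS', mem_Sm]
      exact ⟨hjC, not_le.1 h1⟩
    have hzW : Disjoint (x' \ C) (W (nb G (pt b (B t) j) C)) := by
      rw [Finset.disjoint_left]
      intro v hv hvW
      have hvU := W_sub_ex G b W (B t) C j hvW
      rw [Finset.mem_sdiff] at hv
      rcases Finset.mem_union.1 (hx'sub hv.1) with h | h
      · exact Finset.disjoint_left.1 hdis (Finset.mem_sdiff.2 ⟨h, hv.2⟩) hvU
      · exact Finset.disjoint_left.1 hyU h hvU
    have hzc : (x' \ C).card ≤ T := by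
      have h1 := Finset.card_le_card (Finset.sdiff_subset : x' \ C ⊆ x')
      omega
    have h1 := hE.expan j (nb G (pt b (B t) j) C)
      (fun v hv => (mem_pt.1 (nb_sub G _ _ hv)).2) (by exact_mod_cast hfμ.trans hD) (x' \ C) hzc hzW
      (fun v hv hbv => hj (by rw [← hbv]; exact Finset.mem_image_of_mem b (Finset.mem_sdiff.1 hv).1))
    rw [nb_nb, Finset.union_sdiff_of_subset hCx'] at h1
    exact (mul_le_mul_of_nonneg_left hD hσ.le).trans h1

end Pool.Agent.H9.KR
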