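/-
The deterministic theorem, for boxes with local predicates.
-/
import Pool.Agent.H9.KR.Core
import Pool.Agent.H9.KR.Rst2

set_option autoImplicit false
set_option linter.unusedSectionVars false

open Finset

namespace Pool.Agent.H9.KR

variable {V : Type} [Fintype V] [DecidableEq V] {k : ℕ}

lemma ext_eq {G : SimpleGraph V} {b : V → Fin k} {x : Finset V} (hx : TC G b x)
    {z : Fin k → V} (hz : ∀ j, b (z j) = j) {v : V} (hv : v ∈ x) (h : z (b v) ∈ x) :
    z (b v) = v := by
  by_contra hne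
  exact (hx _ h _ hv hne).1 (hz (b v))

theorem core2 {G : SimpleGraph V} {b : V → Fin k} {m f T w s r a M D : ℕ} {σ ρ μ d₂ : ℝ}
    {W : Finset V → Finset V} (hP : Par (Fintype.card V) m k f T w s r a M σ ρ μ d₂)
    (hE : Expan G b f T w σ W) (hm : ∀ j, m ≤ (pt b univ j).card) (hDM : D ≤ M)
    (B : ℕ → Finset V) (Q : ℕ → Finset (Fin k)) (φ : ℕ → (Fin k → V) → Prop) :
    ¬ CellRef G b M D s B Q φ := by
  classical
  rintro ⟨hQl, hR, hroot⟩
  have hσ := hP.σ_pos
  have hσ1 := hP.σ_le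
  have hμ : 0 < μ := by
    have h1 := hP.d₂_pos
    have h2 := hP.d₂_le
    by_contra hcon
    rw [not_lt] at hcon
    have h3 : σ ^ 3 * μ ≤ 0 := mul_nonpos_of_nonneg_of_nonpos (by positivity) hcon
    linarith
  have e1 : σ * μ ≤ μ := by
    have := mul_le_mul_of_nonneg_right hσ1 hμ.le
    linarith
  have e2 : σ ^ 2 * μ ≤ σ * μ := by
    have : σ * (σ * μ) ≤ 1 * (σ * μ) := mul_le_mul_of_nonneg_right hσ1 (by positivity)
    nlinarith
  have e3 : σ ^ 3 * μ ≤ σ ^ 2 * μ := by
    have : σ * (σ ^ 2 * μ) ≤ 1 * (σ ^ 2 * μ) := mul_le_mul_of_nonneg_right hσ1 (by positivity)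
    nlinarith
  have hσm : 64 * μ ≤ σ * m := hP.μ_le
  have hm0r : (0 : ℝ) < m := by
    by_contra hcon
    rw [not_lt] at hcon
    have h3 : σ * (m : ℝ) ≤ 0 := mul_nonpos_of_nonneg_of_nonpos hσ.le hcon
    linarith
  have hm0 : 0 < m := by exact_mod_cast hm0r
  have hσm1 : σ * (m : ℝ) ≤ m := by
    have := mul_le_mul_of_nonneg_right hσ1 hm0r.le
    linarith
  have hT := hP.T_le
  have hU : (((∅ : Finset V).card : ℕ) : ℝ) ≤ ρ * d₂ / 4 := by
    rw [card_empty, Nat.cast_zero]
    have h1 := hP.ρ_pos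
    have h2 := hP.d₂_pos
    positivity
  have e4 : d₂ ≤ σ * (σ * μ) := by
    have h2 := hP.d₂_le
    have h3 : σ * (σ * μ) = σ ^ 2 * μ := by ring
    linarith
  have e5 : (f : ℝ) ≤ σ * μ := hP.f_le.trans e2
  have e6 : σ * (σ * μ) = σ ^ 2 * μ := by ring
  obtain ⟨H, hH⟩ := exists_H G b W w hE.card_le B s T r ρ d₂ μ hP.k_pos hP.ρ_pos hP.ρ_le
    hP.d₂_pos (by linarith [hP.d₂_le]) hP.kw_le hP.count₁
  have hroot' : ∃ t < s, B t = univ := by
    obtain ⟨t, ht, h, _⟩ := hroot
    exact ⟨t, ht, h⟩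
  obtain ⟨zS, hZ⟩ := greedy hE hH hσ hP.ρ_pos hP.k_pos hP.a_pos hP.a_le hm hm0 hroot'
    (by linarith [hP.d₂_le]) (by
      have h1 : (f : ℝ) ≤ m := by linarith [hP.f_le]
      exact_mod_cast h1) hσm (by omega) (by omega) hP.count₂
  have key : ∀ t, t < s → ¬ Good2 G b B φ (3 * a + r + D) (σ * μ) H zS t := by
    intro t
    induction t using Nat.strong_induction_on with
    | _ t ih =>
    intro ht hG
    obtain ⟨x, hxH, hxB, hx, hzx, hxc, hφ, hd⟩ := hG
    -- first stage
    have stage1 : ∀ R : Finset (Fin k), R.card ≤ M → ∃ y : Finset V, y ⊆ H ∧ y ⊆ B t ∧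
        Disjoint y (ex G b W (B t) x) ∧ y.card ≤ R.card ∧ TC G b (x ∪ y) ∧
        R ⊆ (x ∪ y).image b ∧
        ∀ j, j ∉ (x ∪ y).image b → σ ^ 2 * μ ≤ ((nb G (pt b (B t) j) (x ∪ y)).card : ℝ) := by
      intro R hRM
      have hRc : (R \ x.image b).card ≤ R.card := card_le_card sdiff_subset
      obtain ⟨y, hyH, hyB, -, hyX, hyi, hyc, hyT, hyd⟩ := commit' hE hH hσ hP.ρ_pos ht x ∅
        (by rw [union_empty]; exact hx) (disjoint_empty_left _) (σ * μ) hd e5 e4
        (R \ x.image b) (fun j hj => by rw [union_empty]; exact (mem_sdiff.1 hj).2)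
        (by rw [card_empty]; omega) ∅ (by rw [inter_empty]; exact hU)
      rw [union_empty] at hyT hyd
      refine ⟨y, hyH, hyB, hyX, by omega, hyT, ?_, ?_⟩
      · intro j hj
        by_cases h : j ∈ x.image b
        · exact image_subset_image subset_union_left h
        · refine image_subset_image subset_union_right ?_
          rw [hyi]
          exact mem_sdiff.2 ⟨hj, h⟩
      · intro j hj
        have h1 := hyd j hj
        rwa [e6] at h1
    rcases hR t ht with ⟨R, hRc, hleaf⟩ | ⟨P, hPc, hPt, hcov⟩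
    · obtain ⟨y, hyH, hyB, hyX, hyc, hyT, hRy, hyd⟩ := stage1 R hRc
      obtain ⟨z, hz, hzx'⟩ := core_full (by positivity) (x ∪ y) (union_subset hxB hyB) hyT hyd
      obtain ⟨i, hi, j, hj, hij, hna⟩ := hleaf z hz
        (hφ z fun v hv => hzx' v (mem_union_left _ hv))
      obtain ⟨u, hu, hui⟩ := mem_image.1 (hRy hi)
      obtain ⟨v, hv, hvj⟩ := mem_image.1 (hRy hj)
      have h1 : z i = u := by rw [← hui]; exact hzx' u hu
      have h2 : z j = v := by rw [← hvj]; exact hzx' v hv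
      rw [h1, h2] at hna
      refine hna (hyT u hu v hv ?_).2
      intro h
      exact hij (by rw [← hui, ← hvj, h])
    · -- the predicates of the covering cells
      obtain ⟨R, hRdef⟩ : ∃ R : Finset (Fin k), R = P.biUnion Q := ⟨_, rfl⟩
      have hRc : R.card ≤ P.card * D := by
        rw [hRdef]
        refine card_biUnion_le.trans ((Finset.sum_le_sum fun q hq =>
          (hQl q ((hPt q hq).trans ht)).1).trans ?_)
        rw [Finset.sum_const, smul_eq_mul]
      have hPD : P.card * D + P.card ≤ M := by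
        have : P.card * (D + 1) = P.card * D + P.card := by ring
        omega
      obtain ⟨y, hyH, hyB, hyX, hyc, hyT, hRy, hyd⟩ := stage1 R (by omega)
      obtain ⟨z₁, hz₁, hz₁x⟩ := core_full (by positivity) (x ∪ y) (union_subset hxB hyB) hyT hyd
      obtain ⟨P₁, hP₁⟩ : ∃ P₁ : Finset ℕ, P₁ = P.filter (fun q => φ q z₁) := ⟨_, rfl⟩
      obtain ⟨B', hB'⟩ : ∃ B' : Finset V,
        B' = (B t).filter (fun v => b v ∈ (x ∪ y).image b → v ∈ x ∪ y) := ⟨_, rfl⟩
      -- points that extend `x ∪ y` have the same predicates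
      have hsame : ∀ z : Fin k → V, (∀ v ∈ x ∪ y, z (b v) = v) → ∀ q ∈ P, (φ q z ↔ φ q z₁) := by
        intro z hz q hq
        refine (hQl q ((hPt q hq).trans ht)).2 z z₁ fun j hj => ?_
        have hjR : j ∈ R := by rw [hRdef]; exact mem_biUnion.2 ⟨q, hq, hj⟩
        obtain ⟨v, hv, hvj⟩ := mem_image.1 (hRy hjR)
        rw [← hvj, hz v hv, hz₁x v hv]
      have hB'ext : ∀ z, In b B' z → In b (B t) z ∧ ∀ v ∈ x ∪ y, z (b v) = v := by
        intro z hz
        refine ⟨fun j => ⟨(hz j).1, ?_⟩, fun v hv => ?_⟩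
        · have h1 := (hz j).2
          rw [hB', mem_filter] at h1
          exact h1.1
        · have h1 := (hz (b v)).2
          rw [hB', mem_filter, (hz (b v)).1] at h1
          exact ext_eq hyT (fun j => (hz j).1) hv (h1.2 (mem_image_of_mem b hv))
      obtain ⟨P', hP'P, J, hJc, hcov', hJ⟩ := cover b B' P₁ B (by
        intro z hz
        obtain ⟨h1, h2⟩ := hB'ext z hz
        obtain ⟨q, hq, h3, h4⟩ := hcov z h1 (hφ z fun v hv => h2 v (mem_union_left _ hv))
        refine ⟨q, ?_, h3⟩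
        rw [hP₁, mem_filter]
        exact ⟨hq, (hsame z h2 q hq).1 h4⟩)
      have hP₁P : P₁ ⊆ P := by rw [hP₁]; exact filter_subset _ _
      have hJP : J.card ≤ P.card := hJc.trans (card_le_card (hP'P.trans hP₁P))
      have hJ'c : (J \ (x ∪ y).image b).card ≤ J.card := card_le_card sdiff_subset
      -- second stage
      obtain ⟨y₂, hy₂H, hy₂B, -, -, hy₂i, hy₂c, hy₂T, hy₂d⟩ := commit' hE hH hσ hP.ρ_pos ht x y
        hyT hyX (σ * μ) hd e5 e4 (J \ (x ∪ y).image b) (fun j hj => (mem_sdiff.1 hj).2)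
        (by omega) ∅ (by rw [inter_empty]; exact hU)
      rw [e6] at hy₂d
      have hxyB : (x ∪ y) ∪ y₂ ⊆ B t := union_subset (union_subset hxB hyB) hy₂B
      obtain ⟨z₂, hz₂, hz₂x⟩ := core_full (by positivity) ((x ∪ y) ∪ y₂) hxyB hy₂T hy₂d
      have hz₂xy : ∀ v ∈ x ∪ y, z₂ (b v) = v := fun v hv => hz₂x v (mem_union_left _ hv)
      obtain ⟨q, hq, hz₂q⟩ := hcov' z₂ (by
        intro j
        refine ⟨(hz₂ j).1, ?_⟩
        rw [hB', mem_filter]
        refine ⟨(hz₂ j).2, fun hj => ?_⟩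
        rw [(hz₂ j).1] at hj
        obtain ⟨v, hv, hvj⟩ := mem_image.1 hj
        rw [← hvj, hz₂xy v hv]
        exact hv)
      have hqP₁ : q ∈ P₁ := hP'P hq
      have hqP : q ∈ P := hP₁P hqP₁
      have hqt : q < t := hPt q hqP
      have hφq : φ q z₂ := by
        rw [hP₁, mem_filter] at hqP₁
        exact (hsame z₂ hz₂xy q hqP).2 hqP₁.2
      have hxq : (x ∪ y) ∪ y₂ ⊆ B q := by
        intro v hv
        have := (hz₂q (b v)).2
        rwa [hz₂x v hv] at this
      have hdq : ∀ j, j ∉ ((x ∪ y) ∪ y₂).image b →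
          σ ^ 2 * μ ≤ ((nb G (pt b (B q) j) ((x ∪ y) ∪ y₂)).card : ℝ) := by
        intro j hj
        have hj1 : j ∉ (x ∪ y).image b := fun h => hj (image_subset_image subset_union_left h)
        have hjJ : j ∉ J := by
          intro h
          refine hj (image_subset_image subset_union_right ?_)
          rw [hy₂i]
          exact mem_sdiff.2 ⟨h, hj1⟩
        have hsub : pt b (B t) j ⊆ pt b (B q) j := by
          intro v hv
          have hv' := mem_pt.1 hv
          refine mem_pt.2 ⟨hJ q hq j hjJ (mem_pt.2 ⟨?_, hv'.2⟩), hv'.2⟩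
          rw [hB', mem_filter]
          refine ⟨hv'.1, fun h => ?_⟩
          rw [hv'.2] at h
          exact absurd h hj1
        refine (hy₂d j hj).trans ?_
        exact_mod_cast card_le_card (nb_mono G hsub (Subset.refl _))
      have hcard : ((x ∪ y) ∪ y₂).card ≤ 3 * a + r + M + M := by
        have h1 := card_union_le (x ∪ y) y₂
        have h2 := card_union_le x y
        omega
      have hQq : Q q ⊆ ((x ∪ y) ∪ y₂).image b := by
        intro j hj
        have hjR : j ∈ R := by rw [hRdef]; exact mem_biUnion.2 ⟨q, hqP, hj⟩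
        exact image_subset_image subset_union_left (hRy hjR)
      exact ih q hqt (hqt.trans ht)
        (restore2 hP hE hH hZ (hqt.trans ht) (Q q) (hQl q (hqt.trans ht)).1 hDM
          (hQl q (hqt.trans ht)).2 ((x ∪ y) ∪ y₂)
          (union_subset (union_subset hxH hyH) hy₂H) hxq hy₂T
          (hzx.trans (subset_union_left.trans subset_union_left)) hcard hQq z₂ hz₂x hφq hdq)
  obtain ⟨t, ht, hBt, hφt⟩ := hroot
  refine key t ht ⟨zS, hZ.sub, ?_, hZ.tc, Subset.refl _, ?_, fun z _ => hφt z, ?_⟩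
  · rw [hBt]
    exact subset_univ _
  · have := hZ.card_le
    omega
  · intro j hj
    rw [hBt]
    refine le_trans ?_ (hZ.large j hj)
    linarith

end Pool.Agent.H9.KR
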