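/-
ROW Kx (about 80 lines). Failure of the expansion property gives many disjoint bad sets.
PROOF. By contradiction: assume that for every `j`, `D` (in block `j`, `f ≤ D.card`) there is NO family `Z` as in the conclusion. We construct `W`:
for `D` (in some block `j`, `f ≤ D.card`) say that `z` is bad if `z.card ≤ T`, `b v ≠ j` on `z`, `|nb G D z| < σ |D|`. (The block `j` of `D` is determined as
`D` is nonempty, `0 < f`.) Claim: there is `W` with `W.card ≤ u * T` that meets every bad `z`. Otherwise, by induction on `i ≤ u`, there are pairwise disjoint bad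
`Z 0, ..., Z (i - 1)`: the union of those so far has at most `i T ≤ u T` elements, so some bad `z` is disjoint from it. For `i = u` this is the family `Z : Fin u → Finset V`,
contradiction. Choose such a `W D` for every `D` (`∅` if `D` is not of this kind); this gives `Expan G b f T (u * T) σ W`.
-/
import Pool.Agent.H9.KR.Defs

set_option autoImplicit false
set_option linter.unusedSectionVars false

open Finset

namespace Pool.Agent.H9.KR

variable {V : Type} [Fintype V] [DecidableEq V] {k : ℕ}

theorem bad_family (G : SimpleGraph V) (b : V → Fin k) (f T u : ℕ) (σ : ℝ) (hf : 0 < f)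
    (h : ¬ ∃ W, Expan G b f T (u * T) σ W) :
    ∃ (j : Fin k) (D : Finset V) (Z : Fin u → Finset V), (∀ v ∈ D, b v = j) ∧ f ≤ D.card ∧
      (∀ i, (Z i).card ≤ T) ∧ (∀ i, ∀ v ∈ Z i, b v ≠ j) ∧ (∀ i i', i ≠ i' → Disjoint (Z i) (Z i')) ∧
      ∀ i, ((nb G D (Z i)).card : ℝ) < σ * D.card := by
  classical
  by_contra hcon
  apply h
  have key : ∀ D : Finset V, ∃ W : Finset V, W.card ≤ u * T ∧ ∀ j : Fin k, (∀ v ∈ D, b v = j) →
      f ≤ D.card → ∀ z : Finset V, z.card ≤ T → Disjoint z W → (∀ v ∈ z, b v ≠ j) →
      σ * D.card ≤ ((nb G D z).card : ℝ) := by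
    intro D
    by_cases hD : ∃ j : Fin k, (∀ v ∈ D, b v = j) ∧ f ≤ D.card
    · obtain ⟨j, hj, hfD⟩ := hD
      by_contra hW
      have hbad : ∀ W : Finset V, W.card ≤ u * T → ∃ z : Finset V, z.card ≤ T ∧ Disjoint z W ∧
          (∀ v ∈ z, b v ≠ j) ∧ ((nb G D z).card : ℝ) < σ * D.card := by
        intro W hWc
        by_contra hz
        refine hW ⟨W, hWc, fun j' hj' _ z hzT hzW hzj => ?_⟩
        obtain ⟨v, hv⟩ : D.Nonempty := Finset.card_pos.1 (lt_of_lt_of_le hf hfD)
        have hjj : j' = j := (hj' v hv).symm.trans (hj v hv)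
        rw [hjj] at hzj
        by_contra hlt
        exact hz ⟨z, hzT, hzW, hzj, not_le.1 hlt⟩
      have hstep : ∀ i : ℕ, i ≤ u → ∃ Z : ℕ → Finset V, (∀ a < i, (Z a).card ≤ T ∧
          (∀ v ∈ Z a, b v ≠ j) ∧ ((nb G D (Z a)).card : ℝ) < σ * D.card) ∧
          ∀ a < i, ∀ a' < i, a ≠ a' → Disjoint (Z a) (Z a') := by
        intro i
        induction i with
        | zero => intro _; exact ⟨fun _ => ∅, fun a ha => absurd ha (Nat.not_lt_zero a),
            fun a ha => absurd ha (Nat.not_lt_zero a)⟩
        | succ i ih =>
          intro hi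
          obtain ⟨Z, hZ1, hZ2⟩ := ih (Nat.le_of_succ_le hi)
          have hcard : ((range i).biUnion Z).card ≤ u * T := by
            refine (Finset.card_biUnion_le_card_mul _ _ T fun a ha =>
              (hZ1 a (Finset.mem_range.1 ha)).1).trans ?_
            rw [Finset.card_range]
            exact Nat.mul_le_mul_right T (Nat.le_of_succ_le hi)
          obtain ⟨z, hz1, hz2, hz3, hz4⟩ := hbad _ hcard
          refine ⟨fun a => if a = i then z else Z a, ?_, ?_⟩
          · intro a ha
            by_cases hai : a = i
            · simp only [hai, if_true]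
              exact ⟨hz1, hz3, hz4⟩
            · simp only [hai, if_false]
              exact hZ1 a (by omega)
          · intro a ha a' ha' hne
            by_cases hai : a = i
            · by_cases hai' : a' = i
              · exact absurd (hai.trans hai'.symm) hne
              · simp only [hai, hai', if_true, if_false]
                exact hz2.mono_right (Finset.subset_biUnion_of_mem Z
                  (Finset.mem_range.2 (by omega)))
            · by_cases hai' : a' = i
              · simp only [hai, hai', if_true, if_false]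
                exact (hz2.mono_right (Finset.subset_biUnion_of_mem Z
                  (Finset.mem_range.2 (by omega)))).symm
              · simp only [hai, hai', if_false]
                exact hZ2 a (by omega) a' (by omega) hne
      obtain ⟨Z, hZ1, hZ2⟩ := hstep u le_rfl
      refine hcon ⟨j, D, fun i => Z i, hj, hfD, fun i => (hZ1 i i.2).1, fun i => (hZ1 i i.2).2.1,
        fun i i' hne => hZ2 i i.2 i' i'.2 (fun h => hne (Fin.ext h)), fun i => (hZ1 i i.2).2.2⟩
    · exact ⟨∅, by simp, fun j hj hfD => absurd ⟨j, hj, hfD⟩ hD⟩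
  choose W hW1 hW2 using key
  exact ⟨W, hW1, fun j D hj hfD z hz1 hz2 hz3 => hW2 D j hj hfD z hz1 hz2 hz3⟩

end Pool.Agent.H9.KR
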