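/-
ROW Kp (about 160 lines). The random graph has the expansion property.
PROOF. `n = card V`, `x = 1 / (n + 1)`, `σ = π / 2`.
(1) one: fix `D`, `Z : Fin u → Finset V` with `Z i` pairwise disjoint, disjoint from `D`, `(Z i).card ≤ T`. Then
 `pr w (∀ i, |nb G D (Z i)| < σ |D|) ≤ exp (-(π (u |D|) / 8))`. By `lower` with `I = (univ : Finset (Fin u)) ×ˢ D`, `A (i, v) = (Z i).image (fun z => s(v, z))`
 (these sets are pairwise disjoint: `s(v, z) = s(v', z')` with `v, v' ∈ D`, `z, z' ∉ D` gives `v = v'`, `z = z'`; subsets of `pairs V` as `v ≠ z`;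
 card `≤ T` so `p ^ card ≥ p ^ T ≥ π`, `p ≤ 1`), `q = π`, `y = π (u |D|) / 2`: `A (i, v) ⊆ ed G` iff `v ∈ nb G D (Z i)`, so
 `#{(i, v) ∈ I | A (i, v) ⊆ ed G} = ∑ i, |nb G D (Z i)| ≤ u σ |D| = y` on the event.
(2) union bound. By bad_family (`0 < f`), if no `W` exists there are `D` with `f ≤ |D|` and `Z` as in (1) (`D`, `Z i` are disjoint: different blocks) with the event of (1).
 For every `D` the number of `Z : Fin u → Finset V` with all `|Z i| ≤ T` is at most `((n + 1) ^ T) ^ u = (n + 1) ^ (u T) ≤ (n + 1) ^ |D|` (card_small,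
 `Fintype.piFinset`, `u T ≤ f ≤ |D|`), and `exp (-(π u |D| / 8)) ≤ exp (-4 |D| log (n + 1)) = x ^ (4 |D|)` (`32 log (n + 1) ≤ π u`). So
 `pr ≤ ∑ D with f ≤ |D|, (n + 1) ^ |D| x ^ (4 |D|) = ∑ x ^ (3 |D|) ≤ x ^ (2 f) ∑ D, x ^ |D| = x ^ (2 f) (1 + x) ^ n` (`Finset.sum_pow_mul_eq_add_pow` with `b = 1` or `Finset.prod_one_add`)
 `≤ x ^ (2 f) exp (n x) ≤ 3 x ^ (2 f) ≤ x ^ f` as `x ^ f ≤ x ≤ 1/3`.
-/
import Pool.Agent.H9.KR.Kx
import Pool.Agent.H9.KR.Lo
import Pool.Agent.H9.KR.Ct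

set_option autoImplicit false
set_option linter.unusedSectionVars false

open Finset

namespace Pool.Agent.H9.KR

variable {V : Type} [Fintype V] [DecidableEq V] {k : ℕ}

open Classical in
/-- one family of disjoint sets -/
theorem Kp_one {w : SimpleGraph V → ℝ} {p : ℝ} (h : RSub w ed (pairs V) p) (hp0 : 0 ≤ p)
    (hp1 : p ≤ 1) (T u : ℕ) (π : ℝ) (hπ0 : 0 < π) (hπ : π ≤ p ^ T) (D : Finset V)
    (Z : Fin u → Finset V) (hZT : ∀ i, (Z i).card ≤ T)
    (hZd : ∀ i i', i ≠ i' → Disjoint (Z i) (Z i')) (hZD : ∀ i, Disjoint (Z i) D) :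
    pr w (fun G => ∀ i, ((nb G D (Z i)).card : ℝ) < π / 2 * D.card) ≤
      Real.exp (-(π * (u * D.card) / 8)) := by
  have hIc : (((univ : Finset (Fin u)) ×ˢ D).card : ℝ) = u * D.card := by
    rw [card_product, card_univ, Fintype.card_fin]
    push_cast
    rfl
  have hlow := lower h hp0 hp1 ((univ : Finset (Fin u)) ×ˢ D)
    (fun x => (Z x.1).image (fun z => s(x.2, z))) ?_ ?_ π hπ0.le ?_ (π * (u * D.card) / 2) (by rw [hIc])
  · rw [hIc] at hlow
    refine le_trans (pr_mono h.nonneg ?_) hlow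
    intro G hG
    have h1 : ((((univ : Finset (Fin u)) ×ˢ D).filter
        (fun x => (Z x.1).image (fun z => s(x.2, z)) ⊆ ed G)).card : ℝ) ≤
        ∑ i : Fin u, ((nb G D (Z i)).card : ℝ) := by
      have h2 : (((univ : Finset (Fin u)) ×ˢ D).filter
          (fun x => (Z x.1).image (fun z => s(x.2, z)) ⊆ ed G)) ⊆
          (univ : Finset (Fin u)).biUnion (fun i => (nb G D (Z i)).image (fun v => (i, v))) := by
        rintro ⟨i, v⟩ hx
        rw [mem_filter, mem_product] at hx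
        rw [mem_biUnion]
        refine ⟨i, mem_univ _, mem_image.2 ⟨v, ?_, rfl⟩⟩
        rw [mem_nb]
        refine ⟨hx.1.2, fun z hz => ?_⟩
        have h3 : s(v, z) ∈ ed G := hx.2 (mem_image.2 ⟨z, hz, rfl⟩)
        rw [mem_ed] at h3
        exact h3.symm
      have h3 := (card_le_card h2).trans card_biUnion_le
      have h4 : ∑ i : Fin u, ((nb G D (Z i)).image (fun v => (i, v))).card ≤
          ∑ i : Fin u, (nb G D (Z i)).card := Finset.sum_le_sum fun i _ => card_image_le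
      exact_mod_cast h3.trans h4
    refine h1.trans ?_
    have h5 : ∑ i : Fin u, ((nb G D (Z i)).card : ℝ) ≤ ∑ _i : Fin u, π / 2 * D.card :=
      Finset.sum_le_sum fun i _ => (hG i).le
    refine h5.trans (le_of_eq ?_)
    rw [Finset.sum_const, card_univ, Fintype.card_fin, nsmul_eq_mul]
    ring
  · rintro ⟨i, v⟩ hx e he
    rw [mem_product] at hx
    obtain ⟨z, hz, rfl⟩ := mem_image.1 he
    rw [mem_pairs]
    intro hvz
    exact (Finset.disjoint_left.1 (hZD i)) hz (hvz ▸ hx.2)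
  · rintro ⟨i, v⟩ hx ⟨i', v'⟩ hx' hne
    rw [mem_product] at hx hx'
    rw [Finset.disjoint_left]
    intro e he he'
    obtain ⟨z, hz, rfl⟩ := mem_image.1 he
    obtain ⟨z', hz', h6⟩ := mem_image.1 he'
    simp only at hz hz' h6 hx hx'
    rw [Sym2.eq_iff] at h6
    rcases h6 with ⟨h7, h8⟩ | ⟨h7, h8⟩
    · apply hne
      by_cases hii : i = i'
      · rw [hii, h7]
      · exfalso
        exact (Finset.disjoint_left.1 (hZd i i' hii)) hz (h8 ▸ hz')
    · exact (Finset.disjoint_left.1 (hZD i')) hz' (h8 ▸ hx.2)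
  · rintro ⟨i, v⟩ hx
    refine hπ.trans (pow_le_pow_of_le_one hp0 hp1 (card_image_le.trans (hZT i)))

theorem Kp_num (N π : ℝ) (f T u d n : ℕ) (hN : (n : ℝ) + 1 = N) (hn : 2 ≤ n)
    (hu : 32 * Real.log N ≤ π * u) (hf : u * T ≤ f) (hd : f ≤ d) :
    (N ^ T) ^ u * Real.exp (-(π * (u * d) / 8)) ≤ (1 / N) ^ (2 * f) * (1 / N) ^ d := by
  have hn2 : (2 : ℝ) ≤ n := by exact_mod_cast hn
  have hN1 : 1 ≤ N := by linarith
  have hN0 : 0 < N := by linarith
  have h1 : (N ^ T) ^ u ≤ N ^ d := by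
    rw [← pow_mul]
    exact pow_le_pow_right₀ hN1 (by rw [mul_comm]; omega)
  have h2 : Real.exp (-(π * (u * d) / 8)) ≤ (1 / N) ^ (4 * d) := by
    have h3 : (1 / N) ^ (4 * d) = Real.exp (-(4 * d * Real.log N)) := by
      rw [← Real.exp_log (by positivity : 0 < (1 / N) ^ (4 * d)), Real.log_pow, Real.log_div one_ne_zero hN0.ne',
        Real.log_one]
      congr 1
      push_cast
      ring
    rw [h3]
    refine Real.exp_le_exp.2 ?_
    have h4 : 32 * Real.log N * d ≤ π * u * d := mul_le_mul_of_nonneg_right hu (Nat.cast_nonneg d)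
    linarith
  have h5 : (1 / N) ≤ 1 := by
    rw [div_le_one hN0]
    exact hN1
  have h6 : 0 ≤ 1 / N := by positivity
  calc (N ^ T) ^ u * Real.exp (-(π * (u * d) / 8)) ≤ N ^ d * (1 / N) ^ (4 * d) :=
        mul_le_mul h1 h2 (Real.exp_pos _).le (by positivity)
    _ = (1 / N) ^ (2 * d) * (1 / N) ^ d := by
        have h7 : (1 / N) ^ (4 * d) = (1 / N) ^ d * ((1 / N) ^ (2 * d) * (1 / N) ^ d) := by
          rw [← pow_add, ← pow_add]
          congr 1
          ring
        rw [h7, ← mul_assoc, ← mul_pow]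
        have h8 : N * (1 / N) = 1 := by field_simp
        rw [h8, one_pow, one_mul]
    _ ≤ (1 / N) ^ (2 * f) * (1 / N) ^ d :=
        mul_le_mul_of_nonneg_right (pow_le_pow_of_le_one h6 h5 (by omega)) (by positivity)

theorem pr_expan {w : SimpleGraph V → ℝ} {p : ℝ} (h : RSub w ed (pairs V) p) (hp0 : 0 ≤ p)
    (hp1 : p ≤ 1) (b : V → Fin k) (f T u : ℕ) (π : ℝ) (hπ0 : 0 < π) (hπ : π ≤ p ^ T)
    (hu : 32 * Real.log ((Fintype.card V : ℝ) + 1) ≤ π * u) (hf : u * T ≤ f) (hf0 : 0 < f)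
    (hn : 2 ≤ Fintype.card V) :
    pr w (fun G => ¬ ∃ W, Expan G b f T (u * T) (π / 2) W) ≤
      (1 / ((Fintype.card V : ℝ) + 1)) ^ f := by
  classical
  obtain ⟨N, hN⟩ : ∃ N : ℝ, (Fintype.card V : ℝ) + 1 = N := ⟨_, rfl⟩
  rw [hN] at hu ⊢
  have hn2 : (2 : ℝ) ≤ Fintype.card V := by exact_mod_cast hn
  have hN3 : 3 ≤ N := by linarith
  have hN0 : 0 < N := by linarith
  -- the families
  set Fam : Finset V → Finset (Fin u → Finset V) := fun D =>
    (Fintype.piFinset (fun _ : Fin u => (univ : Finset (Finset V)).filter (fun x => x.card ≤ T))).filter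
      (fun Z => (∀ i i', i ≠ i' → Disjoint (Z i) (Z i')) ∧ ∀ i, Disjoint (Z i) D) with hFam
  have hFc : ∀ D, ((Fam D).card : ℝ) ≤ (N ^ T) ^ u := by
    intro D
    have h1 : (Fam D).card ≤ ((Fintype.card V + 1) ^ T) ^ u := by
      refine (card_filter_le _ _).trans ?_
      rw [Fintype.card_piFinset_const]
      exact Nat.pow_le_pow_left (card_small T) u
    have h2 : ((Fam D).card : ℝ) ≤ (((Fintype.card V + 1) ^ T) ^ u : ℕ) := by exact_mod_cast h1
    refine h2.trans (le_of_eq ?_)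
    push_cast
    rw [hN]
  have h1 : pr w (fun G => ¬ ∃ W, Expan G b f T (u * T) (π / 2) W) ≤
      pr w (fun G => ∃ D ∈ (univ : Finset (Finset V)).filter (fun D => f ≤ D.card),
        ∃ Z ∈ Fam D, ∀ i, ((nb G D (Z i)).card : ℝ) < π / 2 * D.card) := by
    refine pr_mono h.nonneg fun G hG => ?_
    obtain ⟨j, D, Z, g1, g2, g3, g4, g5, g6⟩ := bad_family G b f T u (π / 2) hf0 hG
    refine ⟨D, mem_filter.2 ⟨mem_univ _, g2⟩, Z, ?_, g6⟩
    rw [hFam]
    refine mem_filter.2 ⟨Fintype.mem_piFinset.2 fun i => mem_filter.2 ⟨mem_univ _, g3 i⟩, g5, fun i => ?_⟩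
    rw [Finset.disjoint_left]
    intro v hv hvD
    exact g4 i v hv (g1 v hvD)
  have h2 : ∀ D ∈ (univ : Finset (Finset V)).filter (fun D => f ≤ D.card),
      pr w (fun G => ∃ Z ∈ Fam D, ∀ i, ((nb G D (Z i)).card : ℝ) < π / 2 * D.card) ≤
      (1 / N) ^ (2 * f) * (1 / N) ^ D.card := by
    intro D hD
    have hDf : f ≤ D.card := (mem_filter.1 hD).2
    have h3 := pr_exists_le_card h.nonneg (Fam D)
      (fun Z G => ∀ i, ((nb G D (Z i)).card : ℝ) < π / 2 * D.card)
      (Real.exp (-(π * (u * D.card) / 8))) (by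
        intro Z hZ
        rw [hFam] at hZ
        obtain ⟨hZ1, hZ2, hZ3⟩ := mem_filter.1 hZ
        exact Kp_one h hp0 hp1 T u π hπ0 hπ D Z
          (fun i => (mem_filter.1 (Fintype.mem_piFinset.1 hZ1 i)).2) hZ2 hZ3)
    refine h3.trans ?_
    refine le_trans (mul_le_mul_of_nonneg_right (hFc D) (Real.exp_pos _).le) ?_
    exact Kp_num N π f T u D.card (Fintype.card V) hN hn hu hf hDf
  refine h1.trans ((pr_exists_le h.nonneg _ _).trans ((Finset.sum_le_sum h2).trans ?_))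
  have h4 : ∑ D ∈ (univ : Finset (Finset V)).filter (fun D => f ≤ D.card),
      (1 / N) ^ (2 * f) * (1 / N) ^ D.card ≤ (1 / N) ^ (2 * f) * (1 + 1 / N) ^ Fintype.card V := by
    have h5 : (1 + 1 / N) ^ Fintype.card V = ∑ D : Finset V, (1 / N) ^ D.card := by
      have h6 := Finset.sum_pow_mul_eq_add_pow (1 / N) 1 (univ : Finset V)
      rw [powerset_univ, card_univ] at h6
      rw [add_comm, ← h6]
      exact Finset.sum_congr rfl fun D _ => by rw [one_pow, mul_one]
    rw [h5, Finset.mul_sum]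
    exact Finset.sum_le_sum_of_subset_of_nonneg (filter_subset _ _) fun D _ _ => by positivity
  refine h4.trans ?_
  have h7 : (1 + 1 / N) ^ Fintype.card V ≤ 3 := by
    have h8 : 1 + 1 / N ≤ Real.exp (1 / N) := by
      have := Real.add_one_le_exp (1 / N)
      linarith
    have h9 : (1 + 1 / N) ^ Fintype.card V ≤ (Real.exp (1 / N)) ^ Fintype.card V :=
      pow_le_pow_left₀ (by positivity) h8 _
    rw [← Real.exp_nat_mul] at h9
    have h10 : (Fintype.card V : ℝ) * (1 / N) ≤ 1 := by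
      rw [mul_one_div, div_le_one hN0]
      linarith
    have h11 := Real.exp_le_exp.2 h10
    have h12 := Real.exp_one_lt_d9
    linarith
  have h13 : (1 / N) ^ f ≤ 1 / 3 := by
    have h14 : (1 / N) ≤ 1 / 3 := one_div_le_one_div_of_le (by norm_num) hN3
    calc (1 / N) ^ f ≤ (1 / N) ^ 1 := pow_le_pow_of_le_one (by positivity) (by linarith) hf0
      _ ≤ 1 / 3 := by rw [pow_one]; exact h14
  have h15 : 0 ≤ (1 / N) ^ f := by positivity
  calc (1 / N) ^ (2 * f) * (1 + 1 / N) ^ Fintype.card V ≤ (1 / N) ^ (2 * f) * 3 :=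
        mul_le_mul_of_nonneg_left h7 (by positivity)
    _ = (1 / N) ^ f * ((1 / N) ^ f * 3) := by
        rw [two_mul, pow_add]
        ring
    _ ≤ (1 / N) ^ f * 1 := mul_le_mul_of_nonneg_left (by linarith) h15
    _ = (1 / N) ^ f := mul_one _

end Pool.Agent.H9.KR
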