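/-
ROW Nu1 (about 60 lines). Two estimates.
(1) large_n: `log (n + 1) ^ 2 / n ^ β → 0` (`isLittleO_log_rpow_atTop`, `log (n + 1) ≤ 2 log n`), so eventually `4325376 * log (n + 1) ^ 2 ≤ n ^ β`.
(2) k4: let `δ' = 60 β = min δ 1`. `1 ≤ k`, so `k ^ (4 + δ') ≤ k ^ (4 + δ) ≤ n`, hence `k ^ 4 ≤ n ^ (4 / (4 + δ'))` (rpow monotone with exponent
 `4 / (4 + δ')`), and `4 / (4 + δ') + 12 β = 4 / (4 + δ') + δ' / 5 ≤ 1` as `4 + δ' ≤ 5`. So `k ^ 4 * n ^ (12 β) ≤ n ^ 1` (`1 ≤ n`).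
-/
import Mathlib

set_option autoImplicit false

open Finset

namespace Pool.Agent.H9.KR

theorem large_n (β : ℝ) (hβ : 0 < β) : ∃ n₀ : ℕ, 2 ≤ n₀ ∧ ∀ n : ℕ, n₀ ≤ n →
    4325376 * Real.log ((n : ℝ) + 1) ^ 2 ≤ (n : ℝ) ^ β := by
  have h := (isLittleO_log_rpow_atTop (half_pos hβ)).bound (show (0 : ℝ) < 1 / 5000 by norm_num)
  obtain ⟨x0, hx0⟩ := Filter.eventually_atTop.1 h
  refine ⟨max 2 ⌈x0⌉₊, le_max_left _ _, fun n hn => ?_⟩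
  have hn2 : 2 ≤ n := (le_max_left _ _).trans hn
  have hnx : x0 ≤ (n : ℝ) := by
    have h1 : ⌈x0⌉₊ ≤ n := (le_max_right _ _).trans hn
    exact (Nat.le_ceil x0).trans (by exact_mod_cast h1)
  have hn2' : (2 : ℝ) ≤ n := by exact_mod_cast hn2
  have hn0 : (0 : ℝ) < n := by linarith
  have h1 := hx0 n hnx
  have hlog : 0 ≤ Real.log n := Real.log_nonneg (by linarith)
  have hpow : 0 ≤ (n : ℝ) ^ (β / 2) := Real.rpow_nonneg hn0.le _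
  rw [Real.norm_of_nonneg hlog, Real.norm_of_nonneg hpow] at h1
  have h2 : Real.log ((n : ℝ) + 1) ≤ 2 * Real.log n := by
    rw [show (2 : ℝ) * Real.log n = Real.log ((n : ℝ) ^ 2) by rw [Real.log_pow]; norm_num]
    exact Real.log_le_log (by linarith) (by nlinarith)
  have h3 : 0 ≤ Real.log ((n : ℝ) + 1) := Real.log_nonneg (by linarith)
  have h4 : Real.log ((n : ℝ) + 1) ≤ 2 * (1 / 5000 * (n : ℝ) ^ (β / 2)) := by linarith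
  have h5 : Real.log ((n : ℝ) + 1) ^ 2 ≤ (2 * (1 / 5000 * (n : ℝ) ^ (β / 2))) ^ 2 :=
    pow_le_pow_left₀ h3 h4 2
  have h6 : ((n : ℝ) ^ (β / 2)) ^ 2 = (n : ℝ) ^ β := by
    rw [← Real.rpow_natCast, ← Real.rpow_mul hn0.le]
    congr 1
    push_cast
    ring
  have h7 : (2 * (1 / 5000 * (n : ℝ) ^ (β / 2))) ^ 2 = 4 / 25000000 * (n : ℝ) ^ β := by
    rw [← h6]
    ring
  rw [h7] at h5
  have h8 : 0 ≤ (n : ℝ) ^ β := Real.rpow_nonneg hn0.le _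
  linarith

theorem k4 (δ β : ℝ) (hδ : 0 < δ) (hβ : 60 * β = min δ 1) (n k : ℕ) (hk : 1 ≤ k)
    (h : (k : ℝ) ^ (4 + δ) ≤ n) : (k : ℝ) ^ (4 : ℕ) * (n : ℝ) ^ (12 * β) ≤ n := by
  obtain ⟨d, hd⟩ : ∃ d : ℝ, d = min δ 1 := ⟨_, rfl⟩
  rw [← hd] at hβ
  have hd0 : 0 < d := by rw [hd]; exact lt_min hδ one_pos
  have hd1 : d ≤ 1 := by rw [hd]; exact min_le_right _ _
  have hdδ : d ≤ δ := by rw [hd]; exact min_le_left _ _
  have hk1 : (1 : ℝ) ≤ k := by exact_mod_cast hk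
  have hk0 : (0 : ℝ) ≤ k := by linarith
  have h1 : (k : ℝ) ^ (4 + d) ≤ n :=
    (Real.rpow_le_rpow_of_exponent_le hk1 (by linarith)).trans h
  have hn1 : (1 : ℝ) ≤ n := (Real.one_le_rpow hk1 (by linarith)).trans h1
  have hn0 : (0 : ℝ) < n := by linarith
  have h2 : (k : ℝ) ^ (4 : ℕ) ≤ (n : ℝ) ^ (4 / (4 + d)) := by
    have h3 : ((k : ℝ) ^ (4 + d)) ^ (4 / (4 + d)) ≤ (n : ℝ) ^ (4 / (4 + d)) :=
      Real.rpow_le_rpow (Real.rpow_nonneg hk0 _) h1 (by positivity)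
    rw [← Real.rpow_mul hk0, mul_div_cancel₀ _ (by positivity : (4 + d) ≠ 0)] at h3
    have h4 : (k : ℝ) ^ (4 : ℝ) = (k : ℝ) ^ (4 : ℕ) := by
      rw [← Real.rpow_natCast]
      norm_num
    rwa [h4] at h3
  calc (k : ℝ) ^ (4 : ℕ) * (n : ℝ) ^ (12 * β) ≤ (n : ℝ) ^ (4 / (4 + d)) * (n : ℝ) ^ (12 * β) :=
        mul_le_mul_of_nonneg_right h2 (Real.rpow_nonneg hn0.le _)
    _ = (n : ℝ) ^ (4 / (4 + d) + 12 * β) := (Real.rpow_add hn0 _ _).symm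
    _ ≤ (n : ℝ) ^ (1 : ℝ) := by
        refine Real.rpow_le_rpow_of_exponent_le hn1 ?_
        have h5 : 12 * β = d / 5 := by linarith
        rw [h5, div_add' _ _ _ (by positivity : (4 + d) ≠ 0), div_le_one (by positivity)]
        nlinarith
    _ = n := Real.rpow_one _

end Pool.Agent.H9.KR
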