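/-
ROW Nu2 (about 200 lines). The choice of the numbers.
`c = β ^ 3 / 262144`, `C = 1048576 / β ^ 3` (so `c * C = 4`), `0 < β ≤ 1/60`, `L = log (n + 1)`. `n ≥ 2`: `L ≥ 1`, `log n ≥ L / 2` (`n + 1 ≤ n ^ 2`),
`log n ≥ 1 / 2`. From `C ξ ^ 2 log n ≤ k`: (E1) `c k / ξ ^ 2 ≥ 4 log n ≥ 2`, `c k / ξ ≥ 2`, and (as `β ^ 3 ≤ β ^ 2 ≤ β`) (E2) `β ^ 2 k / (262144 ξ ^ 2) ≥ 4 log n ≥ 2 L`,
(E3) `β k / (8 ξ) ≥ 14`. `k ≥ 2`.
CHOICE: `π = n ^ (-β)` (`≤ 1`), `T = ⌊β (k - 1) / (2 ξ)⌋₊`, `u = ⌈32 L / π⌉₊`, `f = u * k`, `a = T / 8` (natural division), `r = ⌊a ^ 2 / (8 k L)⌋₊`, `m = n / k`, `σ = π / 2`,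
`μ = σ m / 64`, `d₂ = σ ^ 3 μ = σ ^ 4 m / 64`, `ρ = 64 k L / d₂`.
- `π ≤ p ^ T`: `p ^ T ≥ (n ^ (-(2ξ)/(k-1))) ^ T = n ^ (-(2ξ)T/(k-1)) ≥ n ^ (-β)` as `2 ξ T / (k - 1) ≤ β`, `1 ≤ n`.
- `u ≤ 32 L / π + 1 ≤ 33 L / π = 33 L n ^ β` (`1 ≤ L / π`). `T ≤ k` (so `u T ≤ u k = f`), `k ≤ f` (`u ≥ 1`).
- `T ≥ β (k - 1) / (2 ξ) - 1 ≥ β k / (4 ξ) - 1 ≥ β k / (8 ξ) ≥ 14` (E3), `a ≥ T / 16 ≥ β k / (128 ξ)` (`8 a + 7 ≥ T ≥ 14`), so (A) `a ^ 2 / k ≥ β ^ 2 k / (16384 ξ ^ 2)`.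
  `a ≤ T ≤ k`. `r ≤ a ^ 2 / (8 k L) ≤ a`. `M = ⌊c k / ξ⌋₊ ≤ a` as `c ≤ β / 128`. So `3 a + r + M + 2 a ≤ 7 a ≤ T`.
- (D) `d₂ ≥ k ^ 3 n ^ (8 β) / 2048`: `m ≥ n / (2 k)` (`k ≤ n`), `n ≥ k ^ 4 n ^ (12 β)` (hk4), so `m ≥ k ^ 3 n ^ (12 β) / 2`, `σ ^ 4 = n ^ (-4 β) / 16`.
- hN: `4325376 L ^ 2 ≤ n ^ β`, so `131072 L ≤ n ^ (8 β)`: `ρ ≤ 1`. `2162688 L ≤ n ^ (7 β)`: `32 k (u T) ≤ 32 k * 33 L n ^ β * k ≤ d₂` (kw_le), and
  `f = u k ≤ 33 L n ^ β k ≤ d₂ = σ (σ ^ 2 μ) ≤ σ ^ 2 μ`.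
- `k (u T) ρ ≤ k * 33 L n ^ β k * 64 k L * 2048 / (k ^ 3 n ^ (8 β)) = 4325376 L ^ 2 n ^ (-7 β) ≤ n ^ (-6 β) = exp (-6 β log n) ≤ exp (-3 β L)`.
- `L r ≥ a ^ 2 / (8 k) - L ≥ a ^ 2 / (16 k)` since `a ^ 2 / (16 k) ≥ β ^ 2 k / (262144 ξ ^ 2) ≥ L` (A, E2). So
  `s (k u T ρ) ^ r ≤ exp (c k / ξ ^ 2 - 3 β L r)`, `3 β L r ≥ 3 β a ^ 2 / (16 k) ≥ 3 β ^ 3 k / (262144 ξ ^ 2) = 3 c k / ξ ^ 2`: at most `exp (-2 c k / ξ ^ 2) ≤ exp (-4) < 1 / 2`.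
- `ρ d₂ / 8 = 8 k L`, `exp (-8 k L) = (n + 1) ^ (-8 k)`; `s ≤ exp k ≤ (n + 1) ^ k` (`c ≤ 1`, `1 ≤ ξ`, `1 ≤ L`), `k ≤ (n + 1) ^ k`, `3 ≤ (n + 1) ^ k`, `T ≤ k`:
  `3 s k (n + 1) ^ T exp (-(ρ d₂ / 8)) ≤ (n + 1) ^ (-4 k) < 1 / 2`.
- count₂: `1 - x ≤ exp (-x)`: `s (n + 1) ^ r (1 - a / (2 k)) ^ a < exp (c k / ξ ^ 2 + r L - a ^ 2 / (2 k)) ≤ 1`: `r L ≤ a ^ 2 / (8 k)` and
  `c k / ξ ^ 2 ≤ a ^ 2 / (16 k)` (A). (If `s = 0` both counts are trivial; `0 ≤ 1 - a / (2 k)`, and positive as `a ≤ k`.)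
-/
import Pool.Agent.H9.KR.Defs

set_option autoImplicit false

open Finset

namespace Pool.Agent.H9.KR

theorem Nu2_exp4 : Real.exp (-4) < 1 / 2 := by
  have h1 := Real.add_one_le_exp (4 : ℝ)
  rw [Real.exp_neg, one_div]
  exact inv_strictAnti₀ (by norm_num) (by linarith)

theorem Nu2_L (n : ℕ) (hn : 2 ≤ n) :
    1 ≤ Real.log ((n : ℝ) + 1) ∧ 1 / 2 ≤ Real.log n ∧ Real.log ((n : ℝ) + 1) ≤ 2 * Real.log n := by
  have hn2 : (2 : ℝ) ≤ n := by exact_mod_cast hn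
  refine ⟨?_, ?_, ?_⟩
  · rw [Real.le_log_iff_exp_le (by linarith)]
    have := Real.exp_one_lt_d9
    linarith
  · have h1 : Real.log 2 ≤ Real.log n := Real.log_le_log (by norm_num) hn2
    have h2 := Real.log_two_gt_d9
    linarith
  · have h1 : Real.log ((n : ℝ) + 1) ≤ Real.log ((n : ℝ) ^ 2) :=
      Real.log_le_log (by linarith) (by nlinarith)
    rw [Real.log_pow] at h1
    push_cast at h1
    exact h1

theorem params (β : ℝ) (hβ0 : 0 < β) (hβ1 : β ≤ 1 / 60) (n k : ℕ) (ξ : ℝ) (hn : 2 ≤ n)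
    (hξ : 1 ≤ ξ) (hN : 4325376 * Real.log ((n : ℝ) + 1) ^ 2 ≤ (n : ℝ) ^ β)
    (hC : 1048576 / β ^ 3 * ξ ^ 2 * Real.log n ≤ k)
    (hk4 : (k : ℝ) ^ (4 : ℕ) * (n : ℝ) ^ (12 * β) ≤ n) :
    2 ≤ k ∧ 2 ≤ β ^ 3 / 262144 * k / ξ ∧
    ∀ p : ℝ, (n : ℝ) ^ (-(2 * ξ) / ((k : ℝ) - 1)) ≤ p → p ≤ 1 →
      ∃ (f T u a r : ℕ) (π ρ μ d₂ : ℝ), 0 < π ∧ π ≤ p ^ T ∧
        32 * Real.log ((n : ℝ) + 1) ≤ π * u ∧ u * T ≤ f ∧ k ≤ f ∧
        ∀ s : ℕ, (s : ℝ) < Real.exp (β ^ 3 / 262144 * k / ξ ^ 2) →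
          Par n (n / k) k f T (u * T) s r a ⌊β ^ 3 / 262144 * k / ξ⌋₊ (π / 2) ρ μ d₂ := by
  obtain ⟨hL1, hlog, hLl⟩ := Nu2_L n hn
  obtain ⟨L, hL⟩ : ∃ L : ℝ, L = Real.log ((n : ℝ) + 1) := ⟨_, rfl⟩
  rw [← hL] at hN hL1 hLl ⊢
  obtain ⟨N1, hN1⟩ : ∃ N1 : ℝ, N1 = (n : ℝ) ^ β := ⟨_, rfl⟩
  have hn2 : (2 : ℝ) ≤ n := by exact_mod_cast hn
  have hn0 : (0 : ℝ) < n := by linarith
  have hL0 : 0 < L := by linarith
  have hξ0 : 0 < ξ := by linarith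
  have hpow12 : (n : ℝ) ^ (12 * β) = N1 ^ 12 := by
    rw [hN1, ← Real.rpow_natCast, ← Real.rpow_mul hn0.le]
    congr 1
    push_cast
    ring
  rw [hpow12] at hk4
  rw [← hN1] at hN
  have hLL : L ≤ L ^ 2 := by nlinarith
  have hN1a : 4325376 * L ≤ N1 := by linarith
  have hN1b : (4325376 : ℝ) ≤ N1 := by linarith
  have hN10 : 0 < N1 := by linarith
  have hN11 : 1 ≤ N1 := by linarith
  -- E1
  obtain ⟨Z, hZ⟩ : ∃ Z : ℝ, Z = β ^ 3 / 262144 * k / ξ ^ 2 := ⟨_, rfl⟩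
  have hβ3 : 0 < β ^ 3 := by positivity
  have hZ4 : 4 * Real.log n ≤ Z := by
    have h1 : 1048576 / β ^ 3 * ξ ^ 2 * Real.log n * (β ^ 3 / 262144 / ξ ^ 2) = 4 * Real.log n := by
      field_simp
      ring
    rw [hZ, ← h1, show β ^ 3 / 262144 * (k : ℝ) / ξ ^ 2 = k * (β ^ 3 / 262144 / ξ ^ 2) by ring]
    exact mul_le_mul_of_nonneg_right hC (by positivity)
  have hZ2 : 2 ≤ Z := by linarith
  have hZL : 2 * L ≤ Z := by linarith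
  have hk0' : (0 : ℝ) ≤ k := Nat.cast_nonneg k
  have hξ2 : ξ ≤ ξ ^ 2 := by nlinarith
  have hZ' : Z ≤ β ^ 3 / 262144 * k / ξ := by
    rw [hZ]
    exact div_le_div_of_nonneg_left (by positivity) hξ0 hξ2
  have hck : 2 ≤ β ^ 3 / 262144 * k / ξ := hZ2.trans hZ'
  have hβle1 : β ≤ 1 := by linarith
  have hβ3le : β ^ 3 ≤ 1 := pow_le_one₀ hβ0.le hβle1
  have hk2r : (2 : ℝ) ≤ k := by
    rw [le_div_iff₀ hξ0] at hck
    have h1 : β ^ 3 / 262144 * (k : ℝ) ≤ 1 * k := mul_le_mul_of_nonneg_right (by linarith) hk0'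
    linarith
  have hk2 : 2 ≤ k := by exact_mod_cast hk2r
  refine ⟨hk2, hck, ?_⟩
  have hk0 : (0 : ℝ) < k := by linarith
  -- y
  obtain ⟨y, hy⟩ : ∃ y : ℝ, y = β * k / ξ := ⟨_, rfl⟩
  have hy0 : 0 ≤ y := by rw [hy]; positivity
  have hyZ : 262144 * Z ≤ y := by
    have h1 : 262144 * Z = β ^ 3 * k / ξ ^ 2 := by rw [hZ]; ring
    rw [h1, hy]
    have h2 : β ^ 3 ≤ β := by
      have h3 : β ^ 2 ≤ 1 := pow_le_one₀ hβ0.le hβle1
      calc β ^ 3 = β * β ^ 2 := by ring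
        _ ≤ β * 1 := mul_le_mul_of_nonneg_left h3 hβ0.le
        _ = β := mul_one β
    exact div_le_div₀ (by positivity) (mul_le_mul_of_nonneg_right h2 hk0') hξ0 hξ2
  have hyb : 524288 ≤ y := by linarith
  have hyk : y ≤ k / 60 := by
    rw [hy, div_le_iff₀ hξ0]
    calc β * (k : ℝ) ≤ 1 / 60 * k := mul_le_mul_of_nonneg_right hβ1 hk0'
      _ = (k : ℝ) / 60 * 1 := by ring
      _ ≤ (k : ℝ) / 60 * ξ := mul_le_mul_of_nonneg_left hξ (by linarith)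
  -- G
  obtain ⟨G, hG⟩ : ∃ G : ℝ, G = β ^ 2 * k / (262144 * ξ ^ 2) := ⟨_, rfl⟩
  have hGZ : β * G = Z := by
    rw [hG, hZ]
    field_simp
  have hG0 : 0 ≤ G := by rw [hG]; positivity
  have hZG : Z ≤ G := by
    rw [← hGZ]
    calc β * G ≤ 1 * G := mul_le_mul_of_nonneg_right hβle1 hG0
      _ = G := one_mul G
  have hyG : y ^ 2 = 262144 * G * k := by
    rw [hy, hG]
    field_simp
  intro p hp0 hp1
  -- T
  obtain ⟨T, hT⟩ : ∃ T : ℕ, T = ⌊β * ((k : ℝ) - 1) / (2 * ξ)⌋₊ := ⟨_, rfl⟩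
  have ht0 : 0 ≤ β * ((k : ℝ) - 1) / (2 * ξ) :=
    div_nonneg (mul_nonneg hβ0.le (by linarith)) (by linarith)
  have hT1 : (T : ℝ) ≤ β * ((k : ℝ) - 1) / (2 * ξ) := by
    rw [hT]
    exact Nat.floor_le ht0
  have hT2 : β * ((k : ℝ) - 1) / (2 * ξ) < T + 1 := by
    rw [hT]
    exact Nat.lt_floor_add_one _
  have ht1 : β * ((k : ℝ) - 1) / (2 * ξ) ≤ y / 2 := by
    rw [hy]
    have h1 : β * (k : ℝ) / ξ / 2 - β * ((k : ℝ) - 1) / (2 * ξ) = β / (2 * ξ) := by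
      field_simp
      ring
    have h2 : 0 ≤ β / (2 * ξ) := by positivity
    linarith
  have ht2 : y / 4 ≤ β * ((k : ℝ) - 1) / (2 * ξ) := by
    rw [hy]
    have h1 : β * ((k : ℝ) - 1) / (2 * ξ) - β * (k : ℝ) / ξ / 4 = β * (k - 2) / (4 * ξ) := by
      field_simp
      ring
    have h2 : 0 ≤ β * ((k : ℝ) - 2) / (4 * ξ) :=
      div_nonneg (mul_nonneg hβ0.le (by linarith)) (by linarith)
    linarith
  have hTy : y / 8 ≤ T := by linarith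
  have hTk : (T : ℝ) ≤ k := by linarith
  have hTkn : T ≤ k := by exact_mod_cast hTk
  have hT14 : 14 ≤ T := by
    have : (14 : ℝ) ≤ T := by linarith
    exact_mod_cast this
  have hkkL : (k : ℝ) ≤ k * L := le_mul_of_one_le_right hk0' hL1
  -- a
  obtain ⟨a, ha⟩ : ∃ a : ℕ, a = T / 8 := ⟨_, rfl⟩
  have ha1 : 8 * a ≤ T := by omega
  have ha2 : T ≤ 16 * a := by omega
  have ha0 : 0 < a := by omega
  have haT : (T : ℝ) ≤ 16 * a := by exact_mod_cast ha2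
  have hay : y / 128 ≤ a := by linarith
  have hak : a ≤ k := by omega
  have hakr : (a : ℝ) ≤ k := by exact_mod_cast hak
  have har0 : (0 : ℝ) < a := by exact_mod_cast ha0
  have haG : 16 * G * k ≤ (a : ℝ) ^ 2 := by
    have h1 : (y / 128) ^ 2 ≤ (a : ℝ) ^ 2 := pow_le_pow_left₀ (by linarith) hay 2
    have h2 : (y / 128) ^ 2 = 16 * G * k := by
      rw [div_pow, hyG]
      ring
    linarith
  have haG2 : G ≤ (a : ℝ) ^ 2 / (16 * k) := by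
    rw [le_div_iff₀ (by positivity)]
    linarith
  -- r
  obtain ⟨r, hr⟩ : ∃ r : ℕ, r = ⌊(a : ℝ) ^ 2 / (8 * k * L)⌋₊ := ⟨_, rfl⟩
  have hr1 : (r : ℝ) ≤ (a : ℝ) ^ 2 / (8 * k * L) := by
    rw [hr]
    exact Nat.floor_le (by positivity)
  have hr2 : (a : ℝ) ^ 2 / (8 * k * L) < r + 1 := by
    rw [hr]
    exact Nat.lt_floor_add_one _
  have hrL1 : (r : ℝ) * L ≤ (a : ℝ) ^ 2 / (8 * k) := by
    have h1 := mul_le_mul_of_nonneg_right hr1 hL0.le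
    refine h1.trans (le_of_eq ?_)
    field_simp
  have hrL2 : G ≤ r * L := by
    have h1 := mul_lt_mul_of_pos_right hr2 hL0
    have h2 : (a : ℝ) ^ 2 / (8 * k * L) * L = (a : ℝ) ^ 2 / (16 * k) * 2 := by
      field_simp
      ring
    rw [h2] at h1
    linarith
  have hra : r ≤ a := by
    have h1 : (r : ℝ) ≤ a := by
      refine hr1.trans ?_
      rw [div_le_iff₀ (by positivity), pow_two]
      refine mul_le_mul_of_nonneg_left ?_ har0.le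
      linarith
    exact_mod_cast h1
  -- M
  have hMa : ⌊β ^ 3 / 262144 * k / ξ⌋₊ ≤ a := by
    have h1 : ((⌊β ^ 3 / 262144 * (k : ℝ) / ξ⌋₊ : ℕ) : ℝ) ≤ β ^ 3 / 262144 * k / ξ :=
      Nat.floor_le (by positivity)
    have h2 : β ^ 3 / 262144 * (k : ℝ) / ξ ≤ y / 128 := by
      rw [hy, div_div, mul_comm ξ 128, ← div_div]
      refine div_le_div_of_nonneg_right ?_ hξ0.le
      have h3 : β ^ 3 ≤ β := by
        have h3 : β ^ 2 ≤ 1 := pow_le_one₀ hβ0.le hβle1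
        calc β ^ 3 = β * β ^ 2 := by ring
          _ ≤ β * 1 := mul_le_mul_of_nonneg_left h3 hβ0.le
          _ = β := mul_one β
      have h4 : β ^ 3 * (k : ℝ) ≤ β * k := mul_le_mul_of_nonneg_right h3 hk0'
      have h5 : 0 ≤ β * (k : ℝ) := by positivity
      linarith
    have h3 : ((⌊β ^ 3 / 262144 * (k : ℝ) / ξ⌋₊ : ℕ) : ℝ) ≤ a := by linarith
    exact_mod_cast h3
  -- u
  obtain ⟨u, hu⟩ : ∃ u : ℕ, u = ⌈32 * L * N1⌉₊ := ⟨_, rfl⟩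
  have hu1 : 32 * L * N1 ≤ u := by
    rw [hu]
    exact Nat.le_ceil _
  have hLN : 1 ≤ L * N1 := one_le_mul_of_one_le_of_one_le hL1 hN11
  have hu2 : (u : ℝ) ≤ 33 * L * N1 := by
    have h1 : (u : ℝ) < 32 * L * N1 + 1 := by
      rw [hu]
      exact Nat.ceil_lt_add_one (by positivity)
    linarith
  have hu0 : 1 ≤ u := by
    have h1 : (1 : ℝ) ≤ u := by linarith
    exact_mod_cast h1
  -- k ≤ n
  have hN12 : 1 ≤ N1 ^ 12 := one_le_pow₀ hN11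
  have hk4' : (k : ℝ) ^ 4 ≤ n := by
    have h1 : (k : ℝ) ^ 4 * 1 ≤ (k : ℝ) ^ 4 * N1 ^ 12 := mul_le_mul_of_nonneg_left hN12 (by positivity)
    linarith
  have hkn : (k : ℝ) ≤ n := by
    have h1 : (k : ℝ) ≤ (k : ℝ) ^ 4 := le_self_pow₀ (by linarith) (by norm_num)
    linarith
  have hknn : k ≤ n := by exact_mod_cast hkn
  have hk0n : 0 < k := by omega
  -- m
  obtain ⟨m, hm⟩ : ∃ m : ℕ, m = n / k := ⟨_, rfl⟩
  have hm1 : 1 ≤ m := by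
    rw [hm]
    exact Nat.div_pos hknn hk0n
  have hm1r : (1 : ℝ) ≤ m := by exact_mod_cast hm1
  have hm2 : (n : ℝ) < k * (m + 1) := by
    have h1 : n < k * (m + 1) := by
      rw [hm]
      exact Nat.lt_mul_div_succ n hk0n
    exact_mod_cast h1
  have hm3 : (n : ℝ) ≤ 2 * k * m := by
    have h1 := mul_le_mul_of_nonneg_left (show (m : ℝ) + 1 ≤ 2 * m by linarith) hk0.le
    linarith
  have hm4 : (k : ℝ) ^ 3 * N1 ^ 12 ≤ 2 * m := by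
    have h1 : (k : ℝ) * ((k : ℝ) ^ 3 * N1 ^ 12) ≤ (k : ℝ) * (2 * (m : ℝ)) := by
      calc (k : ℝ) * ((k : ℝ) ^ 3 * N1 ^ 12) = (k : ℝ) ^ 4 * N1 ^ 12 := by ring
        _ ≤ (n : ℝ) := hk4
        _ ≤ 2 * (k : ℝ) * (m : ℝ) := hm3
        _ = (k : ℝ) * (2 * (m : ℝ)) := by ring
    exact le_of_mul_le_mul_left h1 hk0
  -- the reals
  obtain ⟨σ, hσ⟩ : ∃ σ : ℝ, σ = N1⁻¹ / 2 := ⟨_, rfl⟩
  have hσ0 : 0 < σ := by rw [hσ]; positivity
  have hσ1 : σ ≤ 1 := by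
    rw [hσ]
    have : N1⁻¹ ≤ 1 := inv_le_one_of_one_le₀ hN11
    linarith
  obtain ⟨μ, hμ⟩ : ∃ μ : ℝ, μ = σ * m / 64 := ⟨_, rfl⟩
  have hμ0 : 0 < μ := by rw [hμ]; positivity
  obtain ⟨d₂, hd₂⟩ : ∃ d₂ : ℝ, d₂ = σ ^ 3 * μ := ⟨_, rfl⟩
  have hd₂0 : 0 < d₂ := by rw [hd₂]; positivity
  have hd₂e : d₂ = m / (1024 * N1 ^ 4) := by
    rw [hd₂, hμ, hσ]
    field_simp
    ring
  have hD : (k : ℝ) ^ 3 * N1 ^ 8 ≤ 2048 * d₂ := by
    rw [hd₂e, ← mul_div_assoc, le_div_iff₀ (by positivity)]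
    calc (k : ℝ) ^ 3 * N1 ^ 8 * (1024 * N1 ^ 4) = 1024 * ((k : ℝ) ^ 3 * N1 ^ 12) := by ring
      _ ≤ 1024 * (2 * (m : ℝ)) := mul_le_mul_of_nonneg_left hm4 (by norm_num)
      _ = 2048 * (m : ℝ) := by ring
  -- N1 powers
  have hN7 : N1 ≤ N1 ^ 7 := le_self_pow₀ hN11 (by norm_num)
  have hN67 : 4325376 * L ^ 2 * N1 ^ 6 ≤ N1 ^ 7 := by
    calc 4325376 * L ^ 2 * N1 ^ 6 ≤ N1 * N1 ^ 6 := mul_le_mul_of_nonneg_right hN (by positivity)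
      _ = N1 ^ 7 := by ring
  have hkk : (k : ℝ) ^ 2 ≤ (k : ℝ) ^ 3 := pow_le_pow_right₀ (by linarith) (by norm_num)
  have hkk1 : (k : ℝ) ≤ (k : ℝ) ^ 2 := le_self_pow₀ (by linarith) (by norm_num)
  -- main inequality: L N1 k^2 (4325376/2) ≤ 2048 d₂ ...
  have hmain : 4325376 * L * N1 * (k : ℝ) ^ 2 ≤ 2048 * d₂ := by
    have h1 : 4325376 * L * N1 ≤ N1 ^ 8 := by
      calc 4325376 * L * N1 ≤ N1 ^ 7 * N1 := mul_le_mul_of_nonneg_right (hN1a.trans hN7) hN10.le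
        _ = N1 ^ 8 := by ring
    calc 4325376 * L * N1 * (k : ℝ) ^ 2 ≤ N1 ^ 8 * (k : ℝ) ^ 3 :=
          mul_le_mul h1 hkk (by positivity) (by positivity)
      _ = (k : ℝ) ^ 3 * N1 ^ 8 := by ring
      _ ≤ 2048 * d₂ := hD
  have hmain2 : 2112 * (L * N1 * (k : ℝ) ^ 2) ≤ d₂ := by linarith
  have hLNk : 0 ≤ L * N1 * (k : ℝ) ^ 2 := by positivity
  have hLk : L * (k : ℝ) ≤ L * N1 * (k : ℝ) ^ 2 := by
    calc L * (k : ℝ) = L * 1 * k := by ring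
      _ ≤ L * N1 * (k : ℝ) ^ 2 := by gcongr
  obtain ⟨ρ, hρ⟩ : ∃ ρ : ℝ, ρ = 64 * k * L / d₂ := ⟨_, rfl⟩
  have hρ0 : 0 < ρ := by rw [hρ]; positivity
  have hρ1 : ρ ≤ 1 := by
    rw [hρ, div_le_one hd₂0]
    linarith
  have hρd : ρ * d₂ = 64 * k * L := by
    rw [hρ]
    field_simp
  have hd₂σ : d₂ ≤ σ ^ 2 * μ := by
    rw [hd₂]
    refine mul_le_mul_of_nonneg_right ?_ hμ0.le
    exact pow_le_pow_of_le_one hσ0.le hσ1 (by norm_num)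
  have huk : ((u * k : ℕ) : ℝ) ≤ 33 * (L * N1 * (k : ℝ) ^ 2) := by
    push_cast
    calc (u : ℝ) * k ≤ 33 * L * N1 * k := mul_le_mul_of_nonneg_right hu2 hk0'
      _ ≤ 33 * L * N1 * (k : ℝ) ^ 2 := mul_le_mul_of_nonneg_left hkk1 (by positivity)
      _ = _ := by ring
  have hkw : ((k : ℝ) * ((u * T : ℕ) : ℝ)) ≤ 33 * (L * N1 * (k : ℝ) ^ 2) := by
    push_cast
    calc (k : ℝ) * ((u : ℝ) * T) ≤ k * (33 * L * N1 * k) := by
          gcongr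
      _ = _ := by ring
  have hkwρ : (k : ℝ) * ((u * T : ℕ) : ℝ) * ρ ≤ (N1 ^ 6)⁻¹ := by
    rw [hρ, ← mul_div_assoc, div_le_iff₀ hd₂0, inv_mul_eq_div, le_div_iff₀ (by positivity)]
    have h1 : (k : ℝ) * ((u * T : ℕ) : ℝ) * (64 * k * L) * N1 ^ 6 ≤
        33 * (L * N1 * (k : ℝ) ^ 2) * (64 * k * L) * N1 ^ 6 := by
      gcongr
    have h2 : 33 * (L * N1 * (k : ℝ) ^ 2) * (64 * k * L) * N1 ^ 6 * 2048 =
        (4325376 * L ^ 2 * N1 ^ 6) * (N1 * (k : ℝ) ^ 3) := by ring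
    have h3 : (4325376 * L ^ 2 * N1 ^ 6) * (N1 * (k : ℝ) ^ 3) ≤ N1 ^ 7 * (N1 * (k : ℝ) ^ 3) :=
      mul_le_mul_of_nonneg_right hN67 (by positivity)
    have h4 : N1 ^ 7 * (N1 * (k : ℝ) ^ 3) = (k : ℝ) ^ 3 * N1 ^ 8 := by ring
    linarith
  have hLexp : ∀ j : ℕ, ((n : ℝ) + 1) ^ j = Real.exp (j * L) := by
    intro j
    rw [Real.exp_nat_mul, hL, Real.exp_log (by linarith)]
  have hkL : 2 ≤ k * L := by linarith
  refine ⟨u * k, T, u, a, r, N1⁻¹, ρ, μ, d₂, by positivity, ?_, ?_, Nat.mul_le_mul_left u hTkn,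
    Nat.le_mul_of_pos_left k hu0, ?_⟩
  · -- π ≤ p ^ T
    have hk1 : 0 < (k : ℝ) - 1 := by linarith
    have h1 : ((n : ℝ) ^ (-(2 * ξ) / ((k : ℝ) - 1))) ^ T ≤ p ^ T :=
      pow_le_pow_left₀ (Real.rpow_nonneg hn0.le _) hp0 T
    refine le_trans ?_ h1
    rw [← Real.rpow_natCast, ← Real.rpow_mul hn0.le, hN1, ← Real.rpow_neg hn0.le]
    apply Real.rpow_le_rpow_of_exponent_le (by linarith)
    have h2 : (T : ℝ) * (2 * ξ) ≤ β * ((k : ℝ) - 1) := by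
      rwa [le_div_iff₀ (by linarith)] at hT1
    rw [div_mul_eq_mul_div, le_div_iff₀ hk1]
    linarith
  · rw [inv_mul_eq_div, le_div_iff₀ hN10]
    exact hu1
  · intro s hs
    rw [← hZ] at hs
    rw [← hσ, ← hm]
    have hs0 : (0 : ℝ) ≤ s := Nat.cast_nonneg s
    refine ⟨hσ0, hσ1, hρ0, hρ1, hd₂0, hd₂.le, Nat.mul_pos hu0 hk0n, ?_, ?_, ?_, ?_, hk0n, ha0, hak,
      ?_, ?_⟩
    · linarith
    · rw [hμ]
      linarith
    · omega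
    · linarith
    · -- count 1
      have e1 : ρ * d₂ / 8 = 8 * (k * L) := by
        rw [hρd]
        ring
      have p1 : 3 * (s : ℝ) * k * ((n : ℝ) + 1) ^ T * Real.exp (-(ρ * d₂ / 8)) < 1 / 2 := by
        have f1 : (3 : ℝ) ≤ Real.exp (k * L) := by
          have := Real.add_one_le_exp ((k : ℝ) * L)
          linarith
        have f2 : (s : ℝ) ≤ Real.exp (k * L) := by
          refine hs.le.trans (Real.exp_le_exp.2 ?_)
          rw [hZ]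
          have g1 : β ^ 3 / 262144 * (k : ℝ) / ξ ^ 2 ≤ k := by
            rw [div_le_iff₀ (by positivity)]
            have g2 : (1 : ℝ) ≤ ξ ^ 2 := one_le_pow₀ hξ
            calc β ^ 3 / 262144 * (k : ℝ) ≤ 1 * k := mul_le_mul_of_nonneg_right (by linarith) hk0'
              _ = (k : ℝ) * 1 := by ring
              _ ≤ k * ξ ^ 2 := mul_le_mul_of_nonneg_left g2 hk0'
          exact g1.trans hkkL
        have f3 : (k : ℝ) ≤ Real.exp (k * L) := by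
          have := Real.add_one_le_exp ((k : ℝ) * L)
          linarith
        have f4 : ((n : ℝ) + 1) ^ T ≤ Real.exp (k * L) := by
          rw [hLexp]
          exact Real.exp_le_exp.2 (mul_le_mul_of_nonneg_right hTk hL0.le)
        have hE := Real.exp_pos ((k : ℝ) * L)
        calc 3 * (s : ℝ) * k * ((n : ℝ) + 1) ^ T * Real.exp (-(ρ * d₂ / 8))
            ≤ Real.exp (k * L) * Real.exp (k * L) * Real.exp (k * L) * Real.exp (k * L) *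
              Real.exp (-(ρ * d₂ / 8)) := by gcongr
          _ = Real.exp (-(4 * (k * L))) := by
              rw [e1, ← Real.exp_add, ← Real.exp_add, ← Real.exp_add, ← Real.exp_add]
              congr 1
              ring
          _ ≤ Real.exp (-4) := Real.exp_le_exp.2 (by linarith)
          _ < 1 / 2 := Nu2_exp4
      have p2 : (s : ℝ) * ((k : ℝ) * ((u * T : ℕ) : ℝ) * ρ) ^ r < 1 / 2 := by
        have hb0 : 0 ≤ (k : ℝ) * ((u * T : ℕ) : ℝ) * ρ := by positivity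
        have q1 : ((k : ℝ) * ((u * T : ℕ) : ℝ) * ρ) ^ r ≤ ((N1 ^ 6)⁻¹) ^ r :=
          pow_le_pow_left₀ hb0 hkwρ r
        have q2 : ((N1 ^ 6)⁻¹) ^ r = Real.exp (-(6 * β * Real.log n * r)) := by
          have e2 : N1 = Real.exp (β * Real.log n) := by
            rw [hN1, Real.rpow_def_of_pos hn0, mul_comm]
          rw [e2, ← Real.exp_nat_mul, ← Real.exp_neg, ← Real.exp_nat_mul]
          congr 1
          push_cast
          ring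
        have q3 : Real.exp (-(6 * β * Real.log n * r)) ≤ Real.exp (-(3 * Z)) := by
          apply Real.exp_le_exp.2
          have r0 : (0 : ℝ) ≤ r := Nat.cast_nonneg r
          have w1 : β * G ≤ β * (r * L) := mul_le_mul_of_nonneg_left hrL2 hβ0.le
          have w2 : β * (r * L) ≤ β * (r * (2 * Real.log n)) := by gcongr
          have w3 : 6 * β * Real.log n * r = 3 * (β * (r * (2 * Real.log n))) := by ring
          linarith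
        calc (s : ℝ) * ((k : ℝ) * ((u * T : ℕ) : ℝ) * ρ) ^ r
            ≤ Real.exp Z * Real.exp (-(3 * Z)) := by
              refine mul_le_mul hs.le ?_ (pow_nonneg hb0 r) (Real.exp_pos _).le
              rw [← q2] at q3
              exact q1.trans q3
          _ = Real.exp (-(2 * Z)) := by
              rw [← Real.exp_add]
              congr 1
              ring
          _ ≤ Real.exp (-4) := Real.exp_le_exp.2 (by linarith)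
          _ < 1 / 2 := Nu2_exp4
      linarith
    · -- count 2
      have h1 : 0 ≤ 1 - (a : ℝ) / (2 * k) := by
        rw [sub_nonneg, div_le_one (by positivity)]
        linarith
      have h2 : 1 - (a : ℝ) / (2 * k) ≤ Real.exp (-((a : ℝ) / (2 * k))) := by
        have := Real.add_one_le_exp (-((a : ℝ) / (2 * k)))
        linarith
      have h3 : (1 - (a : ℝ) / (2 * k)) ^ a ≤ Real.exp (-((a : ℝ) ^ 2 / (2 * k))) := by
        refine (pow_le_pow_left₀ h1 h2 a).trans (le_of_eq ?_)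
        rw [← Real.exp_nat_mul]
        congr 1
        ring
      have h4 : (s : ℝ) * ((n : ℝ) + 1) ^ r * (1 - (a : ℝ) / (2 * k)) ^ a ≤
          Real.exp Z * Real.exp (r * L) * Real.exp (-((a : ℝ) ^ 2 / (2 * k))) := by
        rw [hLexp]
        refine mul_le_mul (mul_le_mul_of_nonneg_right hs.le (Real.exp_pos _).le) h3
          (pow_nonneg h1 a) (by positivity)
      refine lt_of_le_of_lt h4 ?_
      rw [← Real.exp_add, ← Real.exp_add, ← Real.exp_zero]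
      apply Real.exp_lt_exp.2
      have w0 : 0 < (a : ℝ) ^ 2 / (16 * k) := by positivity
      have w1 : (a : ℝ) ^ 2 / (8 * k) = 2 * ((a : ℝ) ^ 2 / (16 * k)) := by
        field_simp
        ring
      have w2 : (a : ℝ) ^ 2 / (2 * k) = 8 * ((a : ℝ) ^ 2 / (16 * k)) := by
        field_simp
        ring
      rw [w1] at hrL1
      rw [w2]
      linarith

end Pool.Agent.H9.KR
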