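import Pool.Agent.H9.KR.Core2
import Pool.Agent.H9.KR.Gnp
import Pool.Agent.H9.KR.CF
import Pool.Agent.H9.KR.Kp
import Pool.Agent.H9.KR.Bx
import Pool.Agent.H9.KR.Nu1
import Pool.Agent.H9.KR.Nu2

/-!
Refutations of the k-clique formula of a random graph: assembly.
-/

set_option autoImplicit false
set_option linter.unusedSectionVars false

open Finset SimpleGraph

namespace Pool.Agent.H9.KR

theorem refutation_pr {n k : ℕ} (p : unitInterval) (hk : 0 < k) (M : ℝ) (S : ℝ)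
    (f T u a r : ℕ) (π ρ μ d₂ : ℝ) (hπ0 : 0 < π) (hπ : π ≤ (p : ℝ) ^ T)
    (hu : 32 * Real.log ((n : ℝ) + 1) ≤ π * u) (hf : u * T ≤ f) (hkf : k ≤ f) (hn : 2 ≤ n)
    (hpar : ∀ s : ℕ, (s : ℝ) < S →
      Par n (n / k) k f T (u * T) s r a ⌊M⌋₊ (π / 2) ρ μ d₂) :
    (G(Fin n, p)).real {G | ∃ s D : ℕ, (s : ℝ) < S ∧ (D : ℝ) ≤ M ∧
      ((∃ L : ℕ → Line k n, Refutes G M D s L) ∨ ∃ F : ℕ → Cell k n, Protocol G M D s F)} ≤
      (n : ℝ) ^ (-(k : ℝ)) := by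
  classical
  have h1 := pr_expan (k := k) (rsub_gnp (V := Fin n) p) p.2.1 p.2.2 (blk n k hk) f T u π hπ0 hπ
    (by rw [Fintype.card_fin]; exact hu) hf (by omega) (by rw [Fintype.card_fin]; exact hn)
  rw [real_eq_pr p]
  refine (pr_mono (rsub_gnp (V := Fin n) p).nonneg ?_).trans (h1.trans ?_)
  · rintro G ⟨s, D, hs, hD, hG⟩ ⟨W, hW⟩
    have hB : ∃ F : ℕ → Cell k n, Protocol G M D s F := by
      rcases hG with ⟨L, hL⟩ | hB
      · exact refutes_protocol G M D s L hL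
      · exact hB
    obtain ⟨F, hF⟩ := hB
    obtain ⟨B', hB'⟩ := protocol_box G M D s F hk hF
    have hP := hpar s hs
    exact core2 (V := Fin n) (by rw [Fintype.card_fin]; exact hP) hW
      (fun j => blk_card hk j) (Nat.le_floor hD) B' _ _ hB'
  · rw [Fintype.card_fin]
    have hn0 : (0 : ℝ) < n := by exact_mod_cast (by omega : 0 < n)
    calc (1 / ((n : ℝ) + 1)) ^ f ≤ (1 / ((n : ℝ) + 1)) ^ k := by
          apply pow_le_pow_of_le_one (by positivity) _ hkf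
          rw [div_le_one (by positivity)]
          linarith
      _ ≤ (1 / (n : ℝ)) ^ k := by
          apply pow_le_pow_left₀ (by positivity)
          apply one_div_le_one_div_of_le hn0
          linarith
      _ = (n : ℝ) ^ (-(k : ℝ)) := by
          rw [Real.rpow_neg hn0.le, Real.rpow_natCast, one_div, inv_pow]

theorem clique_pr {n k : ℕ} (p : unitInterval) (ξ : ℝ) (hk : 2 ≤ k) (hn : 2 ≤ n)
    (hp : (p : ℝ) = (n : ℝ) ^ (-(2 * ξ) / ((k : ℝ) - 1))) :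
    (G(Fin n, p)).real {G | ¬ G.CliqueFree k} ≤ (n : ℝ) ^ (-((ξ - 1) * k)) := by
  classical
  have h1 := pr_clique (rsub_gnp (V := Fin n) p) k
  rw [real_eq_pr p]
  refine h1.trans ?_
  rw [Fintype.card_fin]
  have hn0 : (0 : ℝ) < n := by exact_mod_cast (by omega : 0 < n)
  have hk1 : (k : ℝ) - 1 ≠ 0 := by
    have : (2 : ℝ) ≤ k := by exact_mod_cast hk
    linarith
  have h2 : ((n.choose k : ℕ) : ℝ) ≤ (n : ℝ) ^ (k : ℝ) := by
    rw [Real.rpow_natCast]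
    exact_mod_cast Nat.choose_le_pow n k
  have h3 : (p : ℝ) ^ (k.choose 2) = (n : ℝ) ^ (-(ξ * k)) := by
    rw [hp, ← Real.rpow_natCast, ← Real.rpow_mul hn0.le, Nat.cast_choose_two]
    congr 1
    field_simp
  rw [h3]
  calc ((n.choose k : ℕ) : ℝ) * (n : ℝ) ^ (-(ξ * k)) ≤ (n : ℝ) ^ (k : ℝ) * (n : ℝ) ^ (-(ξ * k)) :=
        mul_le_mul_of_nonneg_right h2 (by positivity)
    _ = (n : ℝ) ^ (-((ξ - 1) * k)) := by
        rw [← Real.rpow_add hn0]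
        congr 1
        ring

theorem main (δ : ℝ) (hδ : 0 < δ) : ∃ c : ℝ, 0 < c ∧ ∃ (C : ℝ) (n₀ : ℕ), ∀ (n k : ℕ) (ξ : ℝ),
    n₀ ≤ n → 1 ≤ ξ → C * ξ ^ 2 * Real.log n ≤ k → (k : ℝ) ^ (4 + δ) ≤ n →
    2 ≤ c * k / ξ ∧
    (∀ p : unitInterval, (n : ℝ) ^ (-(2 * ξ) / ((k : ℝ) - 1)) ≤ p →
      (G(Fin n, p)).real {G | ∃ s D : ℕ, (s : ℝ) < Real.exp (c * k / ξ ^ 2) ∧
        (D : ℝ) ≤ c * k / ξ ∧ ((∃ L : ℕ → Line k n, Refutes G (c * k / ξ) D s L) ∨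
          ∃ F : ℕ → Cell k n, Protocol G (c * k / ξ) D s F)} ≤ (n : ℝ) ^ (-(k : ℝ))) ∧
    ∀ p : unitInterval, (p : ℝ) = (n : ℝ) ^ (-(2 * ξ) / ((k : ℝ) - 1)) →
      (G(Fin n, p)).real {G | ¬ G.CliqueFree k} ≤ (n : ℝ) ^ (-((ξ - 1) * k)) := by
  set β : ℝ := min δ 1 / 60 with hβ
  have hβ0 : 0 < β := by
    have : 0 < min δ 1 := lt_min hδ one_pos
    positivity
  have hβ1 : β ≤ 1 / 60 := by
    have : min δ 1 ≤ 1 := min_le_right _ _
    rw [hβ]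
    linarith
  obtain ⟨n₀, hn₀2, hn₀⟩ := large_n β hβ0
  refine ⟨β ^ 3 / 262144, by positivity, 1048576 / β ^ 3, n₀, ?_⟩
  intro n k ξ hn hξ hC hkn
  have hn2 : 2 ≤ n := hn₀2.trans hn
  have hlog : 0 < Real.log n := Real.log_pos (by exact_mod_cast (by omega : 1 < n))
  have hk0 : 1 ≤ k := by
    have h1 : (0 : ℝ) < k := lt_of_lt_of_le (by positivity) hC
    have h2 : 0 < k := by exact_mod_cast h1
    omega
  have hk4 := k4 δ β hδ (by rw [hβ]; ring) n k hk0 hkn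
  obtain ⟨hk2, hM, hpar⟩ := params β hβ0 hβ1 n k ξ hn2 hξ (hn₀ n hn) hC hk4
  refine ⟨hM, ?_, ?_⟩
  · intro p hp
    obtain ⟨f, T, u, a, r, π, ρ, μ, d₂, hπ0, hπ, hu, hf, hkf, hP⟩ := hpar p hp p.2.2
    exact refutation_pr p (by omega) _ _ f T u a r π ρ μ d₂ hπ0 hπ hu hf hkf hn2 hP
  · intro p hp
    exact clique_pr p ξ hk2 hn2 hp

end Pool.Agent.H9.KR
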